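import Pool.Agent.H30GR.Grow

/-!
# The bound for all quadratic twists over `ℚ`
-/

set_option autoImplicit false
set_option linter.all false

open NumberField IsDedekindDomain WeierstrassCurve Module Filter
open Pool.Agent.TH115.GD
open scoped Classical

namespace Pool.Agent.H30GR

open Pool.Agent.H30EV
open Pool.Agent.N874.PP (sW)
open Pool.Agent.N922.PQ

/-- The integer `d` is admissible for the curve `q = (A, B)`: it is squarefree, not `3` modulo `4`, and
its odd prime factors do not divide `4 A ^ 3 + 27 B ^ 2`, so that `E` has good reduction there. -/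
structure GoodTwist (q : ℤ × ℤ) (d : ℤ) : Prop where
  squarefree : Squarefree d
  two : d % 4 ≠ 3
  good : ∀ p : ℕ, p.Prime → p ≠ 2 → (p : ℤ) ∣ d → ¬ (p : ℤ) ∣ 4 * q.1 ^ 3 + 27 * q.2 ^ 2

/-- The product of the orders of `E(𝔽_p)[2]` over the odd prime factors `p` of `d`. -/
noncomputable def twistProd (q : ℤ × ℤ) (d : ℤ) : ℕ :=
  ∏ p ∈ d.natAbs.primeFactors.erase 2, redTwo q p

theorem twR_of {A B d : ℤ} (hB : B % 2 = 1) (h : GoodTwist (A, B) d) : TwR A B d where
  two := by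
    have h1 := h.two
    have h2 := sqfree_mod h.squarefree
    omega
  gd P hP hPd := by
    obtain ⟨p, hp, rfl⟩ := nat_isPr hP
    by_cases hp2 : p = 2
    · subst hp2
      intro h2
      have h3 : (2 : ℤ) ∣ 4 * A ^ 3 + 27 * B ^ 2 := h2
      have h4 : (2 : ℤ) ∣ 4 * A ^ 3 := (by norm_num : (2 : ℤ) ∣ 4).mul_right _
      have h5 : (2 : ℤ) ∣ 27 * B ^ 2 := (dvd_add_right h4).1 h3
      have h6 : (2 : ℤ) ∣ B := by
        rcases Int.prime_two.dvd_or_dvd h5 with h6 | h6
        · norm_num at h6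
        · exact Int.prime_two.dvd_of_dvd_pow h6
      omega
    · exact h.good p hp hp2 hPd

theorem no_zero_tw {A B d : ℤ} (hA : Odd A) (hB : Odd B) (hd : d ≠ 0) (x : ℚ) :
    x ^ 3 + (((twist (A, B) d).1 : ℤ) : ℚ) * x + (((twist (A, B) d).2 : ℤ) : ℚ) ≠ 0 := by
  intro h
  have hd' : (d : ℚ) ≠ 0 := by exact_mod_cast hd
  have halg : (DivisionRing.toRatAlgebra : Algebra ℚ ℚ) = Algebra.id ℚ := Subsingleton.elim _ _
  haveI : @IsGalois ℚ _ ℚ _ DivisionRing.toRatAlgebra := by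
    rw [halg]
    exact IsGalois.self ℚ
  have hfr : Module.finrank ℚ ℚ = 2 ^ 0 := by rw [Module.finrank_self, pow_zero]
  have h1 := no_zero (K := ℚ) (n := 0) (by convert hfr) hA hB (x / d)
  apply h1
  simp only [twist] at h
  push_cast at h
  field_simp
  linear_combination h

theorem twist_bound {A B : ℤ} (hG : GSelR A B) {d : ℤ} (hd : GoodTwist (A, B) d) :
    Finite (Sel2 (curve ℚ (twist (A, B) d))) ∧
    Nat.card (Sel2 (curve ℚ (twist (A, B) d))) ≤ twistProd (A, B) d ∧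
    Nat.card (Sel2 (curve ℚ (twist (A, B) d))) =
      2 ^ finrank ℤ (Pts (curve ℚ (twist (A, B) d)) ℚ) *
        Nat.card {x : Sha (curve ℚ (twist (A, B) d)) // 2 • x = 0} := by
  have ha := hG.a4
  have hb := hG.b4
  have hpos := hG.pos
  have hd0 : d ≠ 0 := hd.squarefree.ne_zero
  have hA : Odd A := by
    rw [Int.odd_iff]
    omega
  have hB : Odd B := by
    rw [Int.odd_iff]
    omega
  -- `ℚ` is admissible
  have hunr : ∀ P : ℤ, IsPr P → Unr ℚ P := by
    intro P hP w hw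
    have hl' : w.asIdeal.LiesOver (pz hP).asIdeal := liesOver_of hP hw
    have h3 := HeightOneSpectrum.valuation_liesOver (K := ℚ) ℚ (pz hP) w
    have h4 : (pz hP).valuation ℚ (P : ℚ) = WithZero.exp (-1 : ℤ) := by
      have e : ((P : ℤ) : ℚ) = algebraMap ℤ ℚ P := by simp
      rw [e, HeightOneSpectrum.valuation_of_algebraMap]
      exact HeightOneSpectrum.intValuation_singleton _ hP.2.ne_zero rfl
    -- the ramification index is one, as the valuation is surjective
    obtain ⟨x, hx⟩ := w.valuation_surjective (K := ℚ) (WithZero.exp (-1 : ℤ))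
    have h5 := h3 x
    rw [Algebra.algebraMap_self, RingHom.id_apply, hx] at h5
    have hne : (pz hP).valuation ℚ x ≠ 0 := by
      intro h0
      have : x = 0 := (Valuation.zero_iff _).1 h0
      rw [this, map_zero] at hx
      exact WithZero.exp_ne_zero hx.symm
    rw [← WithZero.exp_log hne, ← WithZero.exp_nsmul, WithZero.exp_inj] at h5
    have h6 : ((pz hP).asIdeal.ramificationIdx' w.asIdeal : ℤ) ∣ 1 := by
      refine ⟨-WithZero.log ((pz hP).valuation ℚ x), ?_⟩
      simp only [nsmul_eq_mul] at h5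
      linear_combination h5
    have h7 : (pz hP).asIdeal.ramificationIdx' w.asIdeal = 1 := by
      have : (pz hP).asIdeal.ramificationIdx' w.asIdeal ∣ 1 := by exact_mod_cast h6
      exact Nat.dvd_one.1 this
    have h8 := h3 (P : ℚ)
    rw [h7, pow_one, h4, Algebra.algebraMap_self, RingHom.id_apply] at h8
    exact h8.symm
  have hres : ∀ P : ℤ, IsPr P → Res ℚ P := by
    intro P hP w hw
    have hPp : w.asIdeal.IsPrime := w.isPrime
    have hl : w.asIdeal.LiesOver (Ideal.span {P}) := liesOver_of hP hw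
    have hN := Ideal.absNorm_eq_pow_inertiaDeg w.asIdeal hP.2
    have h0 : Ideal.span {P} ≠ ⊥ := by
      rw [Ne, Ideal.span_singleton_eq_bot]
      exact hP.2.ne_zero
    have hpmax : (Ideal.span {P}).IsMaximal :=
      PrincipalIdealRing.isMaximal_of_irreducible hP.2.irreducible
    have hf : (Ideal.span {P}).inertiaDeg' w.asIdeal = 1 := by
      have hsum := Ideal.sum_ramification_inertia (𝓞 ℚ) ℚ ℚ h0
      rw [Module.finrank_self] at hsum
      have hm : w.asIdeal ∈ IsDedekindDomain.primesOverFinset (Ideal.span {P}) (𝓞 ℚ) :=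
        (IsDedekindDomain.mem_primesOverFinset_iff h0 _).mpr ⟨hPp, hl⟩
      have h1 := Finset.single_le_sum (f := fun Q => (Ideal.span {P}).ramificationIdx' Q *
        (Ideal.span {P}).inertiaDeg' Q) (fun _ _ => Nat.zero_le _) hm
      rw [hsum] at h1
      have h2 : (Ideal.span {P}).inertiaDeg' w.asIdeal ≠ 0 := Ideal.inertiaDeg'_ne_zero _ _
      have h3 : (Ideal.span {P}).ramificationIdx' w.asIdeal ≠ 0 :=
        Ideal.IsDedekindDomain.ramificationIdx'_ne_zero_of_liesOver _ h0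
      have h4 : (Ideal.span {P}).inertiaDeg' w.asIdeal ≤
          (Ideal.span {P}).ramificationIdx' w.asIdeal * (Ideal.span {P}).inertiaDeg' w.asIdeal :=
        Nat.le_mul_of_pos_left _ (Nat.pos_of_ne_zero h3)
      have h5 := h4.trans h1
      omega
    rw [hf, pow_one] at hN
    exact hN
  have halg : (DivisionRing.toRatAlgebra : Algebra ℚ ℚ) = Algebra.id ℚ := Subsingleton.elim _ _
  haveI : @IsGalois ℚ _ ℚ _ DivisionRing.toRatAlgebra := by
    rw [halg]
    exact IsGalois.self ℚ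
  have hfr : Module.finrank ℚ ℚ = 2 ^ 0 := by rw [Module.finrank_self, pow_zero]
  have hsel := hG.sel ℚ 0 (by convert hfr) ⟨hunr 2 (isPr_nat Nat.prime_two), fun P hP h =>
    absurd (hunr P hP) h, fun P hP _ _ => hres P hP⟩ d (twR_of (by omega) hd) ∅
    (d.natAbs.primeFactors.erase 2) (fun l => by
      constructor
      · intro h
        exact absurd h (Finset.notMem_empty _)
      · rintro ⟨h1, h2, -⟩
        exact absurd (hunr l (isPr_nat h1)) h2) (fun l => by
      rw [Finset.mem_erase, Nat.mem_primeFactors, Int.natCast_dvd]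
      constructor
      · rintro ⟨h1, h2, h3, -⟩
        exact ⟨h2, h1, h3⟩
      · rintro ⟨h1, h2, h3⟩
        exact ⟨h2, h1, h3, Int.natAbs_ne_zero.2 hd0⟩)
  have hbd : bdN A B 0 ∅ (d.natAbs.primeFactors.erase 2) = twistProd (A, B) d := by
    unfold bdN twistProd
    rw [pow_zero, Nat.sub_self, pow_zero, mul_one]
    rfl
  rw [hbd] at hsel
  obtain ⟨h1, h2⟩ := sel_fin (q := twist (A, B) d) hsel
  have hdd : 4 * (twist (A, B) d).1 ^ 3 + 27 * (twist (A, B) d).2 ^ 2 ≠ 0 := by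
    have e : 4 * (twist (A, B) d).1 ^ 3 + 27 * (twist (A, B) d).2 ^ 2 =
        d ^ 6 * (4 * A ^ 3 + 27 * B ^ 2) := by
      simp only [twist]
      ring
    rw [e]
    have : 0 < 4 * A ^ 3 + 27 * B ^ 2 := by positivity
    exact mul_ne_zero (pow_ne_zero _ hd0) this.ne'
  exact ⟨h1, h2, by rw [card_sel_rank hdd (no_zero_tw hA hB hd0), mul_comm]⟩

theorem unr_rat : Unr ℚ 2 := by
  rw [show (2 : ℤ) = ((2 : ℕ) : ℤ) from rfl, unr_iff Nat.prime_two]
  rintro ⟨𝔭, hpr, hmem⟩
  -- transport to the integers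
  let e : 𝓞 ℚ ≃+* ℤ := Rat.ringOfIntegersEquiv
  have h1 : ((2 : ℕ) : 𝓞 ℚ) ∈ 𝔭 := Ideal.pow_le_self two_ne_zero hmem
  have h2 : (2 : ℤ) ∈ 𝔭.map (e : 𝓞 ℚ →+* ℤ) := by
    have := Ideal.mem_map_of_mem (e : 𝓞 ℚ →+* ℤ) h1
    rwa [map_natCast, Nat.cast_ofNat] at this
  have h3 : (2 : ℤ) ∈ (𝔭.map (e : 𝓞 ℚ →+* ℤ)) ^ 2 := by
    rw [← Ideal.map_pow]
    have := Ideal.mem_map_of_mem (e : 𝓞 ℚ →+* ℤ) hmem
    rwa [map_natCast, Nat.cast_ofNat] at this
  have h4 : (𝔭.map (e : 𝓞 ℚ →+* ℤ)).IsPrime := Ideal.map_isPrime_of_equiv e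
  obtain ⟨m, hm⟩ : ∃ m : ℤ, 𝔭.map (e : 𝓞 ℚ →+* ℤ) = Ideal.span {m} :=
    ⟨_, (Ideal.span_singleton_generator _).symm⟩
  rw [hm] at h2 h3 h4
  rw [Ideal.span_singleton_pow, Ideal.mem_span_singleton] at h3
  rw [Ideal.mem_span_singleton] at h2
  have h5 : m.natAbs ∣ 2 := by
    have := Int.natAbs_dvd_natAbs.2 h2
    simpa using this
  have h6 : m.natAbs ^ 2 ∣ 2 := by
    have := Int.natAbs_dvd_natAbs.2 h3
    simpa [Int.natAbs_pow] using this
  rcases (Nat.dvd_prime Nat.prime_two).1 h5 with h7 | h7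
  · apply h4.ne_top
    rw [Ideal.span_singleton_eq_top, Int.isUnit_iff_natAbs_eq]
    exact h7
  · rw [h7] at h6
    norm_num at h6

/-- **The main theorem** on the twists over `ℚ`. -/
theorem main_twist :
    ∃ c : ℝ, 0 < c ∧ ∀ᶠ X : ℕ in atTop, 0 < (Curves X).ncard ∧
      c * ((Curves X).ncard : ℝ) ≤ ({q ∈ Curves X |
        ∀ d : ℤ, GoodTwist q d → Finite (Sel2 (curve ℚ (twist q d))) ∧
          Nat.card (Sel2 (curve ℚ (twist q d))) ≤ twistProd q d ∧
          Nat.card (Sel2 (curve ℚ (twist q d))) =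
            2 ^ finrank ℤ (Pts (curve ℚ (twist q d)) ℚ) *
              Nat.card {x : Sha (curve ℚ (twist q d)) // 2 • x = 0}}.ncard : ℝ) := by
  have halg : (DivisionRing.toRatAlgebra : Algebra ℚ ℚ) = Algebra.id ℚ := Subsingleton.elim _ _
  haveI : @IsGalois ℚ _ ℚ _ DivisionRing.toRatAlgebra := by
    rw [halg]
    exact IsGalois.self ℚ
  obtain ⟨c, hc, H₀, h⟩ := propR ℚ unr_rat ∅ (by
    intro P hP
    exact absurd hP (Finset.notMem_empty _))
  refine ⟨c, hc, ?_⟩
  filter_upwards [eventually_ge_atTop H₀, eventually_ge_atTop 27] with X hX hX'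
  refine ⟨curves_pos hX', ?_⟩
  obtain ⟨-, h3⟩ := h X hX
  rw [← curves_eq] at h3
  refine h3.trans ?_
  have hsub : {p : ℤ × ℤ | Crv X p.1 p.2 ∧ GoodR ℚ ∅ p} ⊆
      {q ∈ Curves X | ∀ d : ℤ, GoodTwist q d → Finite (Sel2 (curve ℚ (twist q d))) ∧
          Nat.card (Sel2 (curve ℚ (twist q d))) ≤ twistProd q d ∧
          Nat.card (Sel2 (curve ℚ (twist q d))) =
            2 ^ finrank ℤ (Pts (curve ℚ (twist q d)) ℚ) *
              Nat.card {x : Sha (curve ℚ (twist q d)) // 2 • x = 0}} := by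
    rintro ⟨A, B⟩ ⟨hq, hg⟩
    exact ⟨(crv_iff X _).1 hq, fun d hd => twist_bound hg.sel hd⟩
  exact_mod_cast Set.ncard_le_ncard hsub ((curves_fin X).subset fun q hq => hq.1)

end Pool.Agent.H30GR
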