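import Pool.Agent.H30EV.Defs

/-!
# Project GR (helper30): growth of the 2-Selmer group, statement of an independent part

`S_LOW` is the lower bound for the 2-Selmer group of `E : y ^ 2 = x ^ 3 + A x + B` over a number field
`K` which is Galois over `ℚ`: the classes over `ℚ` which satisfy the local conditions at `2`, `∞` and at
the bad primes, and no condition at the primes in `R`, become Selmer classes over `K`, because the
ramification index of `K` at the primes in `R` is even.

Plan (everything is a small change of the starting files `R425/G`):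

1. Counting (`Pool/Agent/R425/G/Cn2.lean`, `exists_z`, which is the case `R = {l}` and one class).
   With `D0 = 2 Δ`, `m = ∏ l ∈ R, l`, `T` the places of the cubic field `A` over `D0 m`, `G = SU T`,
   `S0` the primes dividing `D0`, `I` the intersection of the local conditions, `B = G² · SU_ℚ`:
   `B.relIndex G ≥ 2 ^ (rank A + |T| + 1 - (|S0| + |R| + 1))` and
   `I.relIndex G ≤ 2 ^ (∑ p ∈ S0, (r p - 1) + 1)`, so the index of `B ⊓ I ⊓ G` in `I ⊓ G` is at least
   `2 ^ (∑ l ∈ R, (|Tq A l| - 1))`. Multiplying `z` by its norm gives that many elements `z` of `Aˣ` with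
   square norm, pairwise different modulo squares, units outside `D0 m`, with `Cond` at `p ∣ D0`.
2. If the cubic has `r` zeros modulo `l` then `1 + r ≤ 2 ^ (|Tq A l| - 1)` (`r = 0, 1, 3`; compare
   `tq_two` in `R425/G`: different zeros modulo `l` lie under different places, and if there is exactly
   one zero there is a further place).
3. `Cond` at the places of `K`: `cond_place` (`Cl1`) over `2 Δ`, `cond_good` (`Cl2`) elsewhere (it is
   stated for one prime `l`; the proof works for a place over `q ∈ R` with the `Ev`-hypothesis of `q`),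
   `cond_inf` at infinity.
4. `exists_class` (`Cl4`) and `no_root_ram` (`Cl5`) give the cocycles. The class of `z` is
   nontrivial by `sq_of_triv`; the difference of the classes of `z` and `z'` has the Kummer generator
   `t t'` for `z z'`, so it is nontrivial too if `z z'` is not a square. `core'` and `exists_cls` are
   for any separably closed Galois extension `Ω` of `ℚ`; take `Ω = SeparableClosure K`.
-/

set_option autoImplicit false
set_option linter.all false

open NumberField IsDedekindDomain

namespace Pool.Agent.H30GR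

open Pool.Agent.H30EV

/-- The ramification indices of `K` over `l` are even. -/
def EvR (K : Type) [Field K] [NumberField K] (l : ℕ) : Prop :=
  ∀ v : HeightOneSpectrum (𝓞 K), ((l : ℕ) : 𝓞 K) ∈ v.asIdeal →
    ∃ s : K, v.valuation K s ^ 2 = v.valuation K (l : K)

/-- The number of the zeros of `x ^ 3 + A x + B` modulo `l`. -/
noncomputable def nz (A B : ℤ) (l : ℕ) : ℕ :=
  Nat.card {x : ZMod l // x ^ 3 + (A : ZMod l) * x + (B : ZMod l) = 0}

/-- The lower bound. -/
def S_LOW : Prop := ∀ A B : ℤ, 0 < 4 * A ^ 3 + 27 * B ^ 2 →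
  ∀ (K : Type) [Field K] [NumberField K] [IsGalois ℚ K],
  (∀ x : K, x ^ 3 + (A : K) * x + (B : K) ≠ 0) → ∀ R : Finset ℕ,
  (∀ l ∈ R, l.Prime ∧ l ≠ 2 ∧ ¬ (l : ℤ) ∣ 4 * A ^ 3 + 27 * B ^ 2 ∧ EvR K l) →
  ∃ (n : ℕ) (z : Fin n → Coch (curve K (A, B))),
    (∀ i, ShaCocycle (curve K (A, B)) (z i) ∧ ∀ σ, 2 • z i σ = 0) ∧
    (∀ i j, (∃ Q, 2 • Q = 0 ∧ z i - z j = cob Q) → i = j) ∧
    ∏ l ∈ R, (1 + nz A B l) ≤ n

end Pool.Agent.H30GR
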