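import Pool.Agent.H30GR.Low4
import Pool.Agent.H30GR.Stm
import Pool.Agent.R425.G.Cl5

/-!
# The lower bound for the 2-Selmer group
-/

set_option autoImplicit false
set_option linter.all false

open NumberField IsDedekindDomain WithZero WeierstrassCurve WeierstrassCurve.Affine
open scoped NNReal Classical

namespace Pool.Agent.H30GR

open Pool.Agent
open Pool.Agent.TH115.GD
open Pool.Agent.Y702.G (sh base pts)
open Pool.Agent.Y355.G (trE trE_inj trE_surj trE_act V_roots sh_disc isSh')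
open Pool.Agent.R425 (Ev)
open Pool.Agent.R425.G

theorem tower (K L : Type) [Field K] [Field L] [Algebra K L] [Algebra ℚ K] [Algebra ℚ L] :
    IsScalarTower ℚ K L := IsScalarTower.of_algebraMap_eq' (Subsingleton.elim _ _)

section transfer

variable (W : WeierstrassCurve ℤ) {K Ω : Type} [Field K] [Field Ω] [Algebra ℚ K] [Algebra K Ω]
  [Algebra ℚ Ω] [IsScalarTower ℚ K Ω] [IsGalois ℚ Ω] [IsGalois K Ω]

/-- The isomorphism on the points. -/
noncomputable def tE (K L : Type) [Field K] [Field L] [Algebra K L] [Algebra ℚ L] :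
    Pt (base W K) L →+ Pt (sh W) L where
  toFun := trE W L
  map_zero' := map_zero (trE W L)
  map_add' := fun P Q => map_add (trE W L) P Q

theorem tE_inj (K L : Type) [Field K] [Field L] [Algebra K L] [Algebra ℚ L] :
    Function.Injective (tE W K L) := trE_inj W (K := K) L

theorem tE_surj (K L : Type) [Field K] [Field L] [Algebra K L] [Algebra ℚ L] (Q : Pt (sh W) L) :
    ∃ P : Pt (base W K) L, tE W K L P = Q := trE_surj W (K := K) L Q

theorem tE_map (K : Type) [Field K] {L L' : Type} [Field L] [Field L'] [Algebra K L] [Algebra ℚ L]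
    [Algebra K L'] [Algebra ℚ L'] (φ : L →ₐ[K] L') (ψ : L →ₐ[ℚ] L') (h : ∀ x, φ x = ψ x)
    (P : Pt (base W K) L) :
    tE W K L' (act (base W K) φ P) = act (sh W) ψ (tE W K L P) := trE_act W (K := K) φ ψ h P

theorem loc_tr {L Ω' : Type} [Field L] [Field Ω'] [Algebra K L] [Algebra ℚ L] [Algebra L Ω']
    [Algebra K Ω'] [Algebra ℚ Ω'] [IsScalarTower ℚ L Ω'] [IsScalarTower K L Ω']
    [IsScalarTower ℚ K Ω'] [IsSepClosed Ω'] {g : (Ω ≃ₐ[ℚ] Ω) → Pt (sh W) Ω}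
    (hg : IsCoc (F := ℚ) (sh W) g) (hloc : LocTriv (F := ℚ) (Ω := Ω) (sh W) L Ω' g)
    {f : (Ω ≃ₐ[K] Ω) → Pt (base W K) Ω}
    (hf : ∀ σ : Ω ≃ₐ[K] Ω, tE W K Ω (f σ) = g (σ.restrictScalars ℚ)) :
    LocTriv (F := K) (Ω := Ω) (base W K) L Ω' f := by
  let ι : Ω →ₐ[K] Ω' := IsSepClosed.lift
  obtain ⟨P0, hP0⟩ := LocTriv.of_any (sh W) hg hloc (ι.restrictScalars ℚ)
  obtain ⟨P, hP⟩ := tE_surj W K Ω' P0
  refine ⟨ι, P, fun τ σ h => ?_⟩
  apply tE_inj W K Ω'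
  have h1 := hP0 τ (σ.restrictScalars ℚ) h
  have e1 := tE_map W K (ι.restrictScalars K) (ι.restrictScalars ℚ) (fun x => rfl) (f σ)
  have e2 := tE_map W K (rs K τ) (rs ℚ τ) (fun x => rfl) P
  rw [map_sub, hP]
  refine e1.trans ?_
  rw [hf]
  refine Eq.trans ?_ (h1.trans ?_)
  · rfl
  · rw [hP] at e2
    exact (congrArg (fun z => z - P0) e2).symm

end transfer

theorem low_abs (W : WeierstrassCurve ℤ) (hW : W.Δ < 0) (K : Type) [Field K] [NumberField K]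
    [IsGalois ℚ K] (hnr : ∀ x : K, cub (sh W) x ≠ 0) (R : Finset ℕ)
    (hR : ∀ l ∈ R, l.Prime ∧ ¬ (l : ℤ) ∣ 2 * W.Δ ∧ Ev K l)
    (Ω : Type) [Field Ω] [Algebra K Ω] [IsGalois K Ω] [IsSepClosed Ω] :
    ∃ (n : ℕ) (z : Fin n → (Ω ≃ₐ[K] Ω) → Pt (base W K) Ω),
      (∀ i, IsCoc (F := K) (base W K) (z i) ∧ (∀ σ, z i σ + z i σ = 0) ∧
        (∀ (v : HeightOneSpectrum (𝓞 K)) (L Ω' : Type) [Field L] [Field Ω'] [Algebra K L]
          [Algebra L Ω'] [Algebra K Ω'] [IsScalarTower K L Ω'] [IsSepClosed Ω'] [IsGalois L Ω'],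
          (v.adicCompletion K →+* L) → LocTriv (F := K) (Ω := Ω) (base W K) L Ω' (z i)) ∧
        (∀ (L Ω' : Type) [Field L] [Field Ω'] [Algebra K L] [Algebra L Ω'] [Algebra K Ω']
          [IsScalarTower K L Ω'] [IsSepClosed Ω'] [IsGalois L Ω'],
          (ℝ →+* L) → LocTriv (F := K) (Ω := Ω) (base W K) L Ω' (z i))) ∧
      (∀ i j, (∃ Q : Pt (base W K) Ω, Q + Q = 0 ∧
        ∀ σ : Ω ≃ₐ[K] Ω, z i σ - z j σ = act (base W K) (rs K σ) Q - Q) → i = j) ∧
      ∏ l ∈ R, (1 + nr W l) ≤ n := by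
  haveI : CharZero Ω := charZero_of_injective_algebraMap (algebraMap K Ω).injective
  haveI : IsScalarTower ℚ K Ω := tower K Ω
  haveI : PerfectField Ω := inferInstance
  haveI : IsAlgClosed Ω := inferInstance
  haveI : Algebra.IsAlgebraic ℚ Ω := Algebra.IsAlgebraic.trans ℚ K _
  haveI : IsAlgClosure ℚ Ω := ⟨inferInstance, inferInstance⟩
  haveI : Normal ℚ Ω := IsAlgClosure.normal ℚ Ω
  haveI : IsGalois ℚ Ω := IsGalois.mk
  obtain ⟨n, g, hn, hg, hd⟩ := exists_classes K hW hnr R hR Ω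
  have hsurj := tE_surj W K Ω
  choose inv hinv using hsurj
  set f : Fin n → (Ω ≃ₐ[K] Ω) → Pt (base W K) Ω :=
    fun i σ => inv (g i (σ.restrictScalars ℚ)) with hf
  have hfe : ∀ i σ, tE W K Ω (f i σ) = g i (σ.restrictScalars ℚ) := fun i σ => hinv _
  have hcoc : ∀ i, IsCoc (F := ℚ) (sh W) (g i) := fun i => ⟨(hg i).1, (hg i).2.1⟩
  have nat : ∀ (σ : Ω ≃ₐ[K] Ω) (P : Pt (base W K) Ω),
      tE W K Ω (act (base W K) (rs K σ) P) = act (sh W) (rs ℚ σ) (tE W K Ω P) := fun σ P =>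
    tE_map W K (rs K σ) (rs ℚ σ) (fun x => rfl) P
  refine ⟨n, f, fun i => ⟨⟨?_, ?_⟩, ?_, ?_, ?_⟩, ?_, hn⟩
  · have h1 : IsLocallyConstant (fun σ : Ω ≃ₐ[K] Ω => g i (σ.restrictScalars ℚ)) :=
      (hg i).1.comp_continuous cont_rs
    exact h1.comp inv
  · intro σ τ
    apply tE_inj W K Ω
    rw [map_add, nat, hfe, hfe, hfe]
    exact (hg i).2.1 (σ.restrictScalars ℚ) (τ.restrictScalars ℚ)
  · intro σ
    apply tE_inj W K Ω
    rw [map_add, map_zero, hfe]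
    exact (hg i).2.2.1 _
  · intro v L Ω' _ _ _ _ _ _ _ _ j
    haveI : CharZero L := charZero_of_injective_algebraMap (algebraMap K L).injective
    haveI : CharZero Ω' := charZero_of_injective_algebraMap (algebraMap L Ω').injective
    haveI : IsScalarTower ℚ L Ω' := tower _ _
    haveI : IsScalarTower ℚ K Ω' := tower _ _
    exact loc_tr W (hcoc i) ((hg i).2.2.2.1 v L Ω' j) (hfe i)
  · intro L Ω' _ _ _ _ _ _ _ _ j
    haveI : CharZero L := charZero_of_injective_algebraMap (algebraMap K L).injective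
    haveI : CharZero Ω' := charZero_of_injective_algebraMap (algebraMap L Ω').injective
    haveI : IsScalarTower ℚ L Ω' := tower _ _
    haveI : IsScalarTower ℚ K Ω' := tower _ _
    exact loc_tr W (hcoc i) ((hg i).2.2.2.2 L Ω' j) (hfe i)
  · rintro i j ⟨Q, hQ, hQ2⟩
    apply hd
    refine ⟨tE W K Ω Q, ?_, fun σ => ?_⟩
    · rw [← map_add, hQ, map_zero]
    · rw [← hfe, ← hfe, ← map_sub, hQ2, map_sub, nat]

section num

open Pool.Agent.H30EV

/-- the number of the zeros of the two models -/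
theorem nz_le {A B : ℤ} {l : ℕ} (hl : l.Prime) (h2 : l ≠ 2) :
    nz A B l ≤ nr ⟨0, 0, 0, A, B⟩ l := by
  haveI : Fact l.Prime := ⟨hl⟩
  have h20 : (2 : ZMod l) ≠ 0 := by
    intro h
    have h1 : ((2 : ℕ) : ZMod l) = 0 := by exact_mod_cast h
    rw [ZMod.natCast_eq_zero_iff] at h1
    exact h2 ((Nat.prime_dvd_prime_iff_eq hl Nat.prime_two).1 h1)
  have h4 : (4 : ZMod l) ≠ 0 := by
    have : (4 : ZMod l) = 2 * 2 := by norm_num
    rw [this]
    exact mul_ne_zero h20 h20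
  unfold nz nr
  refine Nat.card_le_card_of_injective (fun x => ⟨4 * x.1, ?_⟩) ?_
  · have hx := x.2
    simp only [WeierstrassCurve.b₂, WeierstrassCurve.b₄, WeierstrassCurve.b₆]
    push_cast
    linear_combination 64 * hx
  · intro x y hxy
    have h := congrArg Subtype.val hxy
    exact Subtype.ext (mul_left_cancel₀ h4 h)

theorem disc_AB (A B : ℤ) : (⟨0, 0, 0, A, B⟩ : WeierstrassCurve ℤ).Δ =
    -16 * (4 * A ^ 3 + 27 * B ^ 2) := by
  simp only [WeierstrassCurve.Δ, WeierstrassCurve.b₂, WeierstrassCurve.b₄, WeierstrassCurve.b₆,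
    WeierstrassCurve.b₈]
  ring

end num

section fin

open Pool.Agent.H30EV

theorem lt_to {F : Type} [Field F] {W : WeierstrassCurve F} {L : Type} [Field L] [Algebra F L]
    {f : (Sep F ≃ₐ[F] Sep F) → Pt W (Sep F)} (hf : IsCoc (F := F) W f)
    (h : LocTriv (F := F) (Ω := Sep F) W L (Sep L) f) : LocallyTrivial W L f := by
  intro ι
  obtain ⟨P, hP⟩ := LocTriv.of_any (F := F) W hf h (ι : Sep F →ₐ[F] Sep L)
  exact ⟨P, fun τ σ h => hP τ σ h⟩

theorem low_aux (W : WeierstrassCurve ℤ) (hW : W.Δ < 0) (K : Type) [Field K] [NumberField K]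
    [IsGalois ℚ K] (hnr : ∀ x : K, cub (sh W) x ≠ 0) (R : Finset ℕ)
    (hR : ∀ l ∈ R, l.Prime ∧ ¬ (l : ℤ) ∣ 2 * W.Δ ∧ Ev K l) :
    ∃ (n : ℕ) (z : Fin n → Coch (base W K)),
      (∀ i, ShaCocycle (base W K) (z i) ∧ ∀ σ, 2 • z i σ = 0) ∧
      (∀ i j, (∃ Q, 2 • Q = 0 ∧ z i - z j = cob Q) → i = j) ∧
      ∏ l ∈ R, (1 + nr W l) ≤ n := by
  obtain ⟨n, f, hf, hd, hn⟩ := low_abs W hW K hnr R hR (Sep K)
  refine ⟨n, f, fun i => ⟨⟨(hf i).1.lc, fun σ τ => (hf i).1.mul σ τ, ?_, ?_⟩, ?_⟩, ?_, hn⟩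
  · intro v
    exact lt_to (hf i).1 ((hf i).2.2.1 v (v.adicCompletion K) (Sep (v.adicCompletion K))
      (RingHom.id _))
  · intro ρ
    letI : Algebra K ℝ := ρ.toAlgebra
    exact lt_to (hf i).1 ((hf i).2.2.2 ℝ (Sep ℝ) (RingHom.id _))
  · intro σ
    refine (two_nsmul _).trans ?_
    exact (hf i).2.1 σ
  · rintro i j ⟨Q, hQ, hQ2⟩
    exact hd i j ⟨Q, (two_nsmul Q).symm.trans hQ, fun σ => congrFun hQ2 σ⟩

theorem low : S_LOW := by
  intro A B hAB K _ _ _ hnr R hR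
  have hΔ := disc_AB A B
  have hW : (⟨0, 0, 0, A, B⟩ : WeierstrassCurve ℤ).Δ < 0 := by
    rw [hΔ]
    linarith
  have hX : curve K (A, B) = base ⟨0, 0, 0, A, B⟩ K := by
    unfold curve base
    ext <;> simp
  have hnr' : ∀ x : K, cub (sh ⟨0, 0, 0, A, B⟩) x ≠ 0 := by
    intro x hx
    rw [cub_sh] at hx
    simp only [WeierstrassCurve.b₂, WeierstrassCurve.b₄, WeierstrassCurve.b₆] at hx
    push_cast at hx
    apply hnr (x / 4)
    have h4 : (4 : K) ≠ 0 := by norm_num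
    field_simp
    linear_combination hx
  have hR' : ∀ l ∈ R, l.Prime ∧ ¬ (l : ℤ) ∣ 2 * (⟨0, 0, 0, A, B⟩ : WeierstrassCurve ℤ).Δ ∧
      Ev K l := by
    intro l hl
    obtain ⟨h1, h2, h3, h4⟩ := hR l hl
    refine ⟨h1, ?_, h4⟩
    intro hdvd
    rw [hΔ] at hdvd
    have hlZ : Prime (l : ℤ) := Nat.prime_iff_prime_int.1 h1
    have e : (2 * (-16 * (4 * A ^ 3 + 27 * B ^ 2)) : ℤ) =
        2 ^ 5 * (-(4 * A ^ 3 + 27 * B ^ 2)) := by ring
    rw [e] at hdvd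
    rcases hlZ.dvd_or_dvd hdvd with h5 | h5
    · have h6 := hlZ.dvd_of_dvd_pow h5
      have h7 : l ∣ 2 := by exact_mod_cast h6
      exact h2 ((Nat.prime_dvd_prime_iff_eq h1 Nat.prime_two).1 h7)
    · rw [dvd_neg] at h5
      exact h3 h5
  obtain ⟨n, z, h1, h2, h3⟩ := low_aux ⟨0, 0, 0, A, B⟩ hW K hnr' R hR'
  rw [hX]
  refine ⟨n, z, h1, h2, le_trans ?_ h3⟩
  exact Finset.prod_le_prod' fun l hl => Nat.add_le_add_left (nz_le (hR l hl).1 (hR l hl).2.1) 1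

end fin

end Pool.Agent.H30GR
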