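import Pool.Agent.R425.G.Cl4

/-!
# Counting the elements of the cubic field which satisfy the local conditions at the bad primes
-/

set_option autoImplicit false
set_option linter.all false

open NumberField IsDedekindDomain WithZero WeierstrassCurve WeierstrassCurve.Affine
open scoped NNReal Classical

namespace Pool.Agent.H30GR

open Pool.Agent
open Pool.Agent.TH115.GD
open Pool.Agent.TeamU (SU su_fg su_rank index_sq)
open Pool.Agent.Y710.CV (Cond)
open Pool.Agent.R425.G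

theorem grp {G : Type} [CommGroup G] (a b N M : G) :
    a⁻¹ ^ 2 * (a * N * (b * M)) * (N⁻¹ * M⁻¹) = a⁻¹ * b := by
  have e : a⁻¹ ^ 2 * (a * N * (b * M)) * (N⁻¹ * M⁻¹) =
      (a⁻¹ * b) * (a⁻¹ * a) * (N * N⁻¹) * (M * M⁻¹) := by
    rw [sq]
    ac_rfl
  rw [e, inv_mul_cancel, mul_inv_cancel, mul_inv_cancel, mul_one, mul_one, mul_one]

section count

variable {A : Type} [Field A] [NumberField A]

/-- the places over a prime -/
noncomputable def FQ (A : Type) [Field A] [NumberField A] (q : ℕ) :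
    Finset (HeightOneSpectrum (𝓞 A)) :=
  if h : q ≠ 0 then (tq_finite (A := A) h).toFinset else ∅

theorem mem_FQ {q : ℕ} (hq : q ≠ 0) (u : HeightOneSpectrum (𝓞 A)) :
    u ∈ FQ A q ↔ ((q : ℕ) : 𝓞 A) ∈ u.asIdeal := by
  rw [FQ, dif_pos hq, Set.Finite.mem_toFinset]
  rfl

theorem card_FQ {q : ℕ} (hq : q ≠ 0) : (FQ A q).card = (Tq A q).ncard := by
  rw [FQ, dif_pos hq]
  exact (Set.ncard_eq_toFinset_card _ (tq_finite (A := A) hq)).symm

/-- the number of the places -/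
theorem card_TR {D0 : ℤ} (hD0 : D0 ≠ 0) (R : Finset ℕ) (hR : ∀ l ∈ R, l.Prime ∧ ¬ (l : ℤ) ∣ D0)
    (hD : D0 * ((∏ l ∈ R, l : ℕ) : ℤ) ≠ 0) :
    (∑ p ∈ TF ℚ D0 hD0, (Tq A (ng p)).ncard) + ∑ l ∈ R, (Tq A l).ncard ≤
      (TF A (D0 * ((∏ l ∈ R, l : ℕ) : ℤ)) hD).card := by
  set P0 : Finset ℕ := (TF ℚ D0 hD0).image ng with hP0
  have hP0p : ∀ q ∈ P0, q.Prime ∧ (q : ℤ) ∣ D0 := by
    intro q hq
    rw [hP0, Finset.mem_image] at hq
    obtain ⟨p, hp, rfl⟩ := hq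
    exact ⟨ng_prime p, mem_TFQ.1 hp⟩
  have hdisj : Disjoint P0 R := by
    rw [Finset.disjoint_left]
    intro q hq hq'
    exact (hR q hq').2 (hP0p q hq).2
  have hprime : ∀ q ∈ P0 ∪ R, q.Prime := by
    intro q hq
    rcases Finset.mem_union.1 hq with h | h
    · exact (hP0p q h).1
    · exact (hR q h).1
  have hdis : (↑(P0 ∪ R) : Set ℕ).PairwiseDisjoint (FQ A) := by
    intro q hq q' hq' hne
    rw [Function.onFun, Finset.disjoint_left]
    intro u hu hu'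
    have h1 := hprime q hq
    have h2 := hprime q' hq'
    rw [mem_FQ h1.ne_zero] at hu
    rw [mem_FQ h2.ne_zero] at hu'
    apply hne
    have h3 := not_both h1 (D := (q' : ℤ)) hu (by exact_mod_cast hu')
    have h4 : q ∣ q' := by exact_mod_cast h3
    exact (Nat.prime_dvd_prime_iff_eq h1 h2).1 h4
  have hsub : (P0 ∪ R).biUnion (FQ A) ⊆ TF A (D0 * ((∏ l ∈ R, l : ℕ) : ℤ)) hD := by
    intro u hu
    rw [Finset.mem_biUnion] at hu
    obtain ⟨q, hq, hu⟩ := hu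
    rw [mem_FQ (hprime q hq).ne_zero] at hu
    rw [mem_TF]
    have hdvd : (q : ℤ) ∣ D0 * ((∏ l ∈ R, l : ℕ) : ℤ) := by
      rcases Finset.mem_union.1 hq with h | h
      · exact (hP0p q h).2.mul_right _
      · exact Dvd.dvd.mul_left (by exact_mod_cast Finset.dvd_prod_of_mem (fun l => l) h) _
    obtain ⟨k, hk⟩ := hdvd
    rw [hk]
    push_cast
    exact u.asIdeal.mul_mem_right _ hu
  have h1 := Finset.card_le_card hsub
  rw [Finset.card_biUnion hdis, Finset.sum_union hdisj] at h1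
  have h2 : ∑ q ∈ P0, (FQ A q).card = ∑ p ∈ TF ℚ D0 hD0, (Tq A (ng p)).ncard := by
    rw [hP0, Finset.sum_image (fun p _ p' _ h => ng_inj h)]
    exact Finset.sum_congr rfl fun p _ => card_FQ (ng_prime p).ne_zero
  have h3 : ∑ q ∈ R, (FQ A q).card = ∑ l ∈ R, (Tq A l).ncard :=
    Finset.sum_congr rfl fun l hl => card_FQ (hR l hl).1.ne_zero
  rw [h2, h3] at h1
  exact h1

/-- the number of the rational primes -/
theorem card_SR {D0 : ℤ} (hD0 : D0 ≠ 0) (R : Finset ℕ) (hR : ∀ l ∈ R, l.Prime ∧ ¬ (l : ℤ) ∣ D0)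
    (hD : D0 * ((∏ l ∈ R, l : ℕ) : ℤ) ≠ 0) :
    (TF ℚ (D0 * ((∏ l ∈ R, l : ℕ) : ℤ)) hD).card ≤ (TF ℚ D0 hD0).card + R.card := by
  have h1 : (TF ℚ (D0 * ((∏ l ∈ R, l : ℕ) : ℤ)) hD).image ng ⊆ (TF ℚ D0 hD0).image ng ∪ R := by
    intro q hq
    rw [Finset.mem_image] at hq
    obtain ⟨p, hp, rfl⟩ := hq
    rw [mem_TFQ] at hp
    rw [Finset.mem_union]
    rcases (Nat.prime_iff_prime_int.1 (ng_prime p)).dvd_or_dvd hp with h4 | h4
    · left
      exact Finset.mem_image_of_mem _ (mem_TFQ.2 h4)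
    · right
      have h5 : ng p ∣ ∏ l ∈ R, l := by exact_mod_cast h4
      obtain ⟨l, hl, h6⟩ := (Prime.dvd_finset_prod_iff (ng_prime p).prime _).1 h5
      rw [(Nat.prime_dvd_prime_iff_eq (ng_prime p) (hR l hl).1).1 h6]
      exact hl
  have h2 := Finset.card_le_card h1
  rw [Finset.card_image_of_injective _ (fun p p' h => ng_inj h)] at h2
  refine h2.trans ((Finset.card_union_le _ _).trans ?_)
  exact Nat.add_le_add_right Finset.card_image_le _

end count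

section main

variable {V : WeierstrassCurve ℚ} {A : Type} [Field A] [NumberField A] {θ : A} (h : CF V A θ)

include h in
theorem exists_zs (hV : IV V) {D0 : ℤ} (hD0 : D0 ≠ 0) (R : Finset ℕ)
    (hR : ∀ l ∈ R, l.Prime ∧ ¬ (l : ℤ) ∣ D0) (hR1 : ∀ l ∈ R, 1 ≤ (Tq A l).ncard)
    (hD : D0 * ((∏ l ∈ R, l : ℕ) : ℤ) ≠ 0) :
    ∃ (n : ℕ) (z : Fin n → Aˣ), 2 ^ (∑ l ∈ R, ((Tq A l).ncard - 1)) ≤ n ∧
      (∀ i, (∃ r : ℚ, r ≠ 0 ∧ Algebra.norm ℚ (z i : A) = r ^ 2) ∧
      (∀ u : HeightOneSpectrum (𝓞 A), ((D0 * ((∏ l ∈ R, l : ℕ) : ℤ) : ℤ) : 𝓞 A) ∉ u.asIdeal →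
        u.valuation A (z i : A) = 1) ∧
      ∀ p : HeightOneSpectrum (𝓞 ℚ), (ng p : ℤ) ∣ D0 →
        Cond (p.adicCompletion ℚ) (AlgebraicClosure (p.adicCompletion ℚ)) V θ (z i : A)) ∧
      (∀ i j, (∃ s : A, (z i : A) * (z j : A) = s ^ 2) → i = j) := by
  have hθ : _root_.IsIntegral ℤ θ := hV.int h.root
  have hroots := fun p : HeightOneSpectrum (𝓞 ℚ) =>
    Y355.G.V_roots hV.a1 hV.a3 hV.Δ (AlgebraicClosure (p.adicCompletion ℚ))
  choose a b c hC using hroots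
  haveI hgal := gal_p
  set D : ℤ := D0 * ((∏ l ∈ R, l : ℕ) : ℤ) with hDdef
  set S0 := TF ℚ D0 hD0 with hS0
  set S := TF ℚ D hD with hS
  set T := TF A D hD with hT
  set G := SU T with hG
  set C : S0 → Subgroup Aˣ := fun p => (DD (L := p.1.adicCompletion ℚ) (hC p.1)).comap
    (lo h (p.1.adicCompletion ℚ) (AlgebraicClosure (p.1.adicCompletion ℚ))) with hCdef
  set r : HeightOneSpectrum (𝓞 ℚ) → ℕ := fun p =>
    Nat.card (Orb V (p.adicCompletion ℚ) (AlgebraicClosure (p.adicCompletion ℚ))) with hrdef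
  have hCidx : ∀ p : S0, (C p).relIndex G ≠ 0 ∧
      (C p).relIndex G ≤ 2 ^ (r p.1 - 1) * (if ng p.1 = 2 then 2 else 1) := by
    intro p
    obtain ⟨w, hσ, hL, hfour⟩ := exists_ld p.1
    obtain ⟨k1, k2⟩ := lp w hσ (hC p.1) hL hV
    have h1 : (C p).relIndex G ∣ (DD (L := p.1.adicCompletion ℚ) (hC p.1)).index := by
      rw [hCdef, Subgroup.relIndex_comap]
      exact Subgroup.relIndex_dvd_index_of_normal _ _
    exact ⟨fun h0 => k1 (by rw [h0] at h1; exact Nat.eq_zero_of_zero_dvd h1),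
      (Nat.le_of_dvd (Nat.pos_of_ne_zero k1) h1).trans k2⟩
  have hr1 : ∀ p : HeightOneSpectrum (𝓞 ℚ), 1 ≤ r p ∧ r p ≤ (Tq A (ng p)).ncard := by
    intro p
    obtain ⟨w, hσ, hL, hfour⟩ := exists_ld p
    refine ⟨?_, orb_le_tq h w (hC p) hL hθ⟩
    haveI := rt_finite (hC p)
    haveI : Finite (Orb V (p.adicCompletion ℚ) (AlgebraicClosure (p.adicCompletion ℚ))) :=
      Quotient.finite _
    haveI : Nonempty (Orb V (p.adicCompletion ℚ) (AlgebraicClosure (p.adicCompletion ℚ))) :=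
      ⟨Quotient.mk _ ⟨a p, (hC p).root_a⟩⟩
    exact Nat.card_pos
  set I : Subgroup Aˣ := ⨅ p : S0, C p with hI
  have hI0 : I.relIndex G ≠ 0 := Subgroup.relIndex_iInf_ne_zero fun p => (hCidx p).1
  have hIle : I.relIndex G ≤ 2 ^ (∑ p ∈ S0, (r p - 1)) * 2 := by
    refine (Subgroup.relIndex_iInf_le _).trans ?_
    refine (Finset.prod_le_prod' fun p _ => (hCidx p).2).trans ?_
    rw [Finset.prod_mul_distrib, Finset.prod_coe_sort S0 (fun p => 2 ^ (r p - 1)),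
      Finset.prod_coe_sort S0 (fun p => (if ng p = 2 then 2 else 1 : ℕ)),
      Finset.prod_pow_eq_pow_sum]
    apply Nat.mul_le_mul_left
    rw [Finset.prod_ite, Finset.prod_const, Finset.prod_const_one, mul_one]
    have h1 : (S0.filter (fun p => ng p = 2)).card ≤ 1 := by
      rw [Finset.card_le_one]
      intro p hp p' hp'
      rw [Finset.mem_filter] at hp hp'
      exact ng_inj (hp.2.trans hp'.2.symm)
    calc 2 ^ (S0.filter (fun p => ng p = 2)).card ≤ 2 ^ 1 := Nat.pow_le_pow_right (by norm_num) h1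
      _ = 2 := rfl
  -- the subgroup of the squares and of the rational numbers
  set Q : Subgroup Aˣ := (SU S).map (io A) with hQ
  have hQG : Q ≤ G := by
    rintro _ ⟨x, hx, rfl⟩
    exact io_mem hD hx
  set B : Subgroup Aˣ := SqrH G ⊔ Q with hB
  have hBG : B ≤ G := sup_le (sqrH_le G) hQG
  have hX : (SqrH G).relIndex G = 2 ^ (Units.rank A + T.card) * 2 := by
    rw [← sqr_sub, su_idx, two_su]
  have hX1 : (SqrH G).relIndex B * B.relIndex G = (SqrH G).relIndex G :=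
    Subgroup.relIndex_mul_relIndex _ _ _ le_sup_left hBG
  have hX2 : (SqrH G).relIndex B ≤ 2 ^ (S.card + 1) := by
    have e1 : (SqrH G).relIndex B = (SqrH G).relIndex Q := by
      rw [hB, Subgroup.relIndex_sup_left]
    have e2 : (SqrH G).relIndex Q ∣ (SqrH (SU S)).relIndex (SU S) := by
      rw [hQ, ← Subgroup.relIndex_comap]
      apply Subgroup.relIndex_dvd_of_le_left
      rintro _ ⟨x, hx, rfl⟩
      exact ⟨io A x, io_mem hD hx, by
        show (io A x) ^ 2 = io A (x ^ 2)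
        rw [map_pow]⟩
    have e3 : (SqrH (SU S)).relIndex (SU S) = 2 ^ (S.card + 1) := by
      rw [← sqr_sub, su_idx, two_su, rank_Q, zero_add, pow_succ]
    rw [e1]
    rw [e3] at e2
    exact Nat.le_of_dvd (by positivity) e2
  have hB0 : B.relIndex G ≠ 0 := by
    intro h0
    rw [h0, mul_zero, hX] at hX1
    exact absurd hX1.symm (by positivity)
  -- the index of `B` in the intersection
  have hJ1 : B.relIndex G ≤ B.relIndex (I ⊓ G) * I.relIndex G := by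
    have h1 : (B ⊓ (I ⊓ G)).relIndex G = (B ⊓ (I ⊓ G)).relIndex (I ⊓ G) * (I ⊓ G).relIndex G :=
      (Subgroup.relIndex_mul_relIndex _ _ _ inf_le_right inf_le_right).symm
    rw [Subgroup.inf_relIndex_right, Subgroup.inf_relIndex_right] at h1
    have h2 : B.relIndex G ∣ (B ⊓ (I ⊓ G)).relIndex G :=
      Subgroup.relIndex_dvd_of_le_left G inf_le_left
    rw [h1] at h2
    refine Nat.le_of_dvd (Nat.pos_of_ne_zero ?_) h2
    refine mul_ne_zero ?_ hI0
    intro h0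
    apply hB0
    exact Subgroup.relIndex_eq_zero_of_le_right inf_le_right h0
  have hJ0 : B.relIndex (I ⊓ G) ≠ 0 := by
    intro h0
    rw [h0, zero_mul] at hJ1
    exact hB0 (Nat.le_zero.1 hJ1)
  have hJ : 2 ^ (∑ l ∈ R, ((Tq A l).ncard - 1)) ≤ B.relIndex (I ⊓ G) := by
    have h3 : (SqrH G).relIndex G ≤ 2 ^ (S.card + 1) *
        (B.relIndex (I ⊓ G) * (2 ^ (∑ p ∈ S0, (r p - 1)) * 2)) := by
      rw [← hX1]
      exact Nat.mul_le_mul hX2 (hJ1.trans (Nat.mul_le_mul_left _ hIle))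
    rw [hX] at h3
    have hrk := rank_cubic h.deg
    have hT1 : (∑ p ∈ S0, (Tq A (ng p)).ncard) + ∑ l ∈ R, (Tq A l).ncard ≤ T.card :=
      card_TR (A := A) hD0 R hR hD
    have hsum : ∑ p ∈ S0, (r p - 1) + S0.card = ∑ p ∈ S0, r p := by
      rw [Finset.card_eq_sum_ones, ← Finset.sum_add_distrib]
      refine Finset.sum_congr rfl fun p _ => ?_
      have := (hr1 p).1
      omega
    have hsum3 : ∑ l ∈ R, ((Tq A l).ncard - 1) + R.card = ∑ l ∈ R, (Tq A l).ncard := by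
      rw [Finset.card_eq_sum_ones, ← Finset.sum_add_distrib]
      refine Finset.sum_congr rfl fun l hl => ?_
      have := hR1 l hl
      omega
    have hsum2 : ∑ p ∈ S0, r p ≤ ∑ p ∈ S0, (Tq A (ng p)).ncard :=
      Finset.sum_le_sum fun p _ => (hr1 p).2
    have hScard : S.card ≤ S0.card + R.card := card_SR hD0 R hR hD
    have h4 : 2 ^ (Units.rank A + T.card) * 2 = 2 ^ (Units.rank A + T.card + 1) := by
      rw [pow_succ]
    have h5 : 2 ^ (S.card + 1) * (B.relIndex (I ⊓ G) * (2 ^ (∑ p ∈ S0, (r p - 1)) * 2)) =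
        B.relIndex (I ⊓ G) * 2 ^ (S.card + 1 + (∑ p ∈ S0, (r p - 1) + 1)) := by
      rw [pow_add 2 (S.card + 1) (∑ p ∈ S0, (r p - 1) + 1), pow_succ 2 (∑ p ∈ S0, (r p - 1))]
      ring
    rw [h4, h5] at h3
    have h6 : 2 ^ (∑ l ∈ R, ((Tq A l).ncard - 1)) * 2 ^ (S.card + 1 + (∑ p ∈ S0, (r p - 1) + 1)) ≤
        B.relIndex (I ⊓ G) * 2 ^ (S.card + 1 + (∑ p ∈ S0, (r p - 1) + 1)) := by
      refine le_trans ?_ h3
      rw [← pow_add]
      apply Nat.pow_le_pow_right (by norm_num)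
      omega
    exact Nat.le_of_mul_le_mul_right h6 (by positivity)
  -- the representatives
  haveI hfi : (B.subgroupOf (I ⊓ G)).FiniteIndex := ⟨hJ0⟩
  haveI hfin : Finite (↥(I ⊓ G) ⧸ B.subgroupOf (I ⊓ G)) :=
    Subgroup.finite_quotient_of_finiteIndex
  have hcard : Nat.card (↥(I ⊓ G) ⧸ B.subgroupOf (I ⊓ G)) = B.relIndex (I ⊓ G) := rfl
  let E : Fin (B.relIndex (I ⊓ G)) ≃ (↥(I ⊓ G) ⧸ B.subgroupOf (I ⊓ G)) :=
    (finCongr hcard.symm).trans (Finite.equivFin _).symm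
  let y : Fin (B.relIndex (I ⊓ G)) → ↥(I ⊓ G) := fun i => (E i).out
  have hy : ∀ i j, (y i)⁻¹ * y j ∈ B.subgroupOf (I ⊓ G) → i = j := by
    intro i j hij
    apply E.injective
    rw [← Quotient.out_eq (E i), ← Quotient.out_eq (E j)]
    exact QuotientGroup.eq.2 hij
  set N : Fin (B.relIndex (I ⊓ G)) → ℚˣ := fun i => nrm A (y i).1 with hN
  have hNS : ∀ i, N i ∈ SU S := fun i => nrm_mem h hV hD (y i).2.2
  have hNval : ∀ i, (N i : ℚ) = Algebra.norm ℚ (((y i).1 : Aˣ) : A) := fun i => rfl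
  have hzG : ∀ i, (y i).1 * io A (N i) ∈ G := fun i =>
    G.mul_mem (y i).2.2 (io_mem hD (hNS i))
  refine ⟨B.relIndex (I ⊓ G), fun i => (y i).1 * io A (N i), hJ, fun i => ⟨?_, ?_, ?_⟩, ?_⟩
  · refine ⟨(N i : ℚ) ^ 2, pow_ne_zero 2 (N i).ne_zero, ?_⟩
    rw [Units.val_mul, map_mul]
    have e1 : ((io A (N i) : Aˣ) : A) = algebraMap ℚ A (N i : ℚ) := rfl
    rw [e1, Algebra.norm_algebraMap, h.deg, ← hNval]
    ring
  · intro u hu
    exact hzG i u (by
      intro hmem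
      exact hu (mem_TF.1 hmem))
  · intro p hp
    have hzC : (y i).1 ∈ C ⟨p, mem_TFQ.2 hp⟩ := (Subgroup.mem_iInf.1 (y i).2.1) _
    have hD1 := (mem_DD (L := p.adicCompletion ℚ) (hC p)).1 hzC
    obtain ⟨η, d, P, hη⟩ := hD1
    have hη' : ∀ e, em h e (((y i).1 : Aˣ) : A) =
        (η.1 e : AlgebraicClosure (p.adicCompletion ℚ)) ^ 2 *
      algebraMap _ _ (d : p.adicCompletion ℚ) * kpf P e := hη
    obtain ⟨y1, hy1⟩ := prod_fixed (hC p) η
    obtain ⟨y2, hy2⟩ := kp_norm (hC p) P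
    set Ω' := AlgebraicClosure (p.adicCompletion ℚ) with hΩ'
    set ι := algebraMap (p.adicCompletion ℚ) Ω' with hι
    have hnorm : algebraMap ℚ Ω' (N i : ℚ) = (ι y1 * ι y2 * ι (d : p.adicCompletion ℚ)) ^ 2 *
        ι (d : p.adicCompletion ℚ) := by
      rw [hNval, norm_em h (hC p), hη', hη', hη', hy1]
      linear_combination (((η.1 ⟨a p, (hC p).root_a⟩ : Ω') * (η.1 ⟨b p, (hC p).root_b⟩) *
        (η.1 ⟨c p, (hC p).root_c⟩)) ^ 2 * ι (d : p.adicCompletion ℚ) ^ 3) * hy2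
    refine ⟨act V (incl ℚ (p.adicCompletion ℚ) Ω') P, fun σ => rs_act_incl V σ P, fun φ => ?_⟩
    set e : Rt V Ω' := ⟨φ θ, root_em h φ⟩ with he
    refine ⟨(η.1 e : Ω') * (ι y1 * ι y2 * ι (d : p.adicCompletion ℚ)) *
      ι (d : p.adicCompletion ℚ), fun σ hσ => ?_, fun b' c' hC' => ?_⟩
    · have hmv : mv σ e = e := Subtype.ext hσ
      rw [map_mul, map_mul, map_mul, map_mul, equi, hmv, σ.commutes, σ.commutes, σ.commutes]
    · rw [em_uniq h e φ rfl, Units.val_mul, map_mul, hη' e]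
      have e1 : ((io A (N i) : Aˣ) : A) = algebraMap ℚ A (N i : ℚ) := rfl
      rw [e1, (em h e).commutes, hnorm, kpf_eq P e hC']
      ring
  · rintro i j ⟨s, hs⟩
    apply hy
    rw [Subgroup.mem_subgroupOf]
    show ((y i).1)⁻¹ * (y j).1 ∈ B
    have hs0 : s ≠ 0 := by
      rintro rfl
      rw [zero_pow two_ne_zero] at hs
      exact mul_ne_zero ((y i).1 * io A (N i)).ne_zero ((y j).1 * io A (N j)).ne_zero hs
    have hzN : ((y i).1 * io A (N i)) * ((y j).1 * io A (N j)) = (Units.mk0 s hs0) ^ 2 :=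
      Units.ext (by
        rw [Units.val_mul]
        exact hs)
    have hsG : Units.mk0 s hs0 ∈ G := by
      intro u hu
      have h1 := G.mul_mem (hzG i) (hzG j)
      rw [hzN] at h1
      have h3 : u.valuation A (((Units.mk0 s hs0) ^ 2 : Aˣ) : A) = 1 := h1 u hu
      rw [Units.val_pow_eq_pow_val, map_pow] at h3
      exact (pow_eq_one_iff_of_nonneg zero_le' (by norm_num)).1 h3
    have hz : ((y i).1)⁻¹ * (y j).1 = (((y i).1)⁻¹ * Units.mk0 s hs0) ^ 2 *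
        io A ((N i)⁻¹ * (N j)⁻¹) := by
      rw [mul_pow, map_mul, map_inv, map_inv, ← hzN]
      exact (grp _ _ _ _).symm
    rw [hz]
    refine Subgroup.mul_mem_sup ⟨_, G.mul_mem (G.inv_mem (y i).2.2) hsG, rfl⟩
      ⟨(N i)⁻¹ * (N j)⁻¹, (SU S).mul_mem ((SU S).inv_mem (hNS i)) ((SU S).inv_mem (hNS j)), rfl⟩

end main

end Pool.Agent.H30GR
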