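import Pool.Agent.H30GR.SelC
import Pool.Agent.H30EV.Count

/-!
# The curves with small 2-Selmer groups for all twists over all admissible extensions
-/

set_option autoImplicit false
set_option linter.all false

open Polynomial IsDedekindDomain WeierstrassCurve WeierstrassCurve.Affine NumberField
open Pool.Agent.TH115.GD
open scoped Classical IntermediateField

namespace Pool.Agent.H30GR

open Pool.Agent.N922.PQ
open Pool.Agent.H30EV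
open Pool.Agent.N692.PMTOW
open Pool.Agent.N874.PP (Tup chA chB gq tau Two Ev Sq1 U0 sW IsBeta Rt)
open Pool.Agent.N874.PM (PLoc Lies SelR ShaR)

/-- The field `M` is admissible for the curve `y ^ 2 = x ^ 3 + A x + B`: the ramified primes are good,
and the common prime divisors of `A`, `B` split. -/
structure AdmR (M : Type) [Field M] [NumberField M] (A B : ℤ) : Prop where
  two : Unr M 2
  gd : ∀ P : ℤ, IsPr P → ¬ Unr M P → ¬ P ∣ dsc A B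
  sp : ∀ P : ℤ, IsPr P → P ∣ A → P ∣ B → Res M P

/-- The integer `d` is admissible for the curve `y ^ 2 = x ^ 3 + A x + B`: the primes which divide it
are good. -/
structure TwR (A B d : ℤ) : Prop where
  two : d % 4 = 1 ∨ d % 4 = 2
  gd : ∀ P : ℤ, IsPr P → P ∣ d → ¬ P ∣ dsc A B

/-- The bound. -/
noncomputable def bdN (A B : ℤ) (n : ℕ) (R₁ R₂ : Finset ℕ) : ℕ :=
  (∏ l ∈ R₂, (1 + nz A B l)) * (∏ l ∈ R₁ ∪ R₂, (1 + nz A B l)) ^ (2 ^ n - 1)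

/-- The bounds for the 2-Selmer groups of all twists over all admissible fields. -/
structure GSelR (A B : ℤ) : Prop where
  a4 : A % 4 = 3
  b4 : B % 4 = 3
  pos : 0 < A
  sel : ∀ (M : Type) [Field M] [NumberField M] [IsGalois ℚ M] (n : ℕ),
    Module.finrank ℚ M = 2 ^ n → AdmR M A B → ∀ d : ℤ, TwR A B d → ∀ R₁ R₂ : Finset ℕ,
    (∀ l : ℕ, l ∈ R₁ ↔ l.Prime ∧ ¬ Unr M (l : ℤ) ∧ ¬ (l : ℤ) ∣ d) →
    (∀ l : ℕ, l ∈ R₂ ↔ l.Prime ∧ l ≠ 2 ∧ (l : ℤ) ∣ d) →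
    SelBd (𝓞 M) (sW (((A * d ^ 2 : ℤ)) : M) (((B * d ^ 3 : ℤ)) : M)) (bdN A B n R₁ R₂)

theorem nz_irr {a b : ℤ} {l : ℕ} (h : (l : ℤ) ∈ irr a b) : nz a b l = 0 := by
  unfold nz
  have hl : Prime (l : ℤ) := h.1.2
  haveI : Fact l.Prime := ⟨Nat.prime_iff_prime_int.2 hl⟩
  haveI : IsEmpty {x : ZMod l // x ^ 3 + (a : ZMod l) * x + (b : ZMod l) = 0} := by
    refine ⟨fun x => ?_⟩
    obtain ⟨z, hz⟩ := ZMod.intCast_surjective x.1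
    apply h.2 z
    rw [← ZMod.intCast_zmod_eq_zero_iff_dvd]
    push_cast
    rw [hz]
    exact x.2
  exact Nat.card_of_isEmpty

theorem nz_tw {a b D : ℤ} {l : ℕ} (hl : l.Prime) (hD : ¬ (l : ℤ) ∣ D) :
    nz (a * D ^ 2) (b * D ^ 3) l = nz a b l := by
  haveI : Fact l.Prime := ⟨hl⟩
  have hD0 : (D : ZMod l) ≠ 0 := fun h => hD ((ZMod.intCast_zmod_eq_zero_iff_dvd _ l).1 h)
  unfold nz
  have h1 : ∀ x : ZMod l, x ^ 3 + (a : ZMod l) * x + (b : ZMod l) = 0 →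
      ((D : ZMod l) * x) ^ 3 + ((a * D ^ 2 : ℤ) : ZMod l) * ((D : ZMod l) * x) +
        ((b * D ^ 3 : ℤ) : ZMod l) = 0 := by
    intro x h
    push_cast
    linear_combination (D : ZMod l) ^ 3 * h
  have h2 : ∀ x : ZMod l, x ^ 3 + ((a * D ^ 2 : ℤ) : ZMod l) * x +
      ((b * D ^ 3 : ℤ) : ZMod l) = 0 → ((D : ZMod l)⁻¹ * x) ^ 3 +
        (a : ZMod l) * ((D : ZMod l)⁻¹ * x) + (b : ZMod l) = 0 := by
    intro x h
    push_cast at h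
    field_simp
    linear_combination h
  refine (Nat.card_congr ⟨fun x => ⟨(D : ZMod l) * x.1, h1 x.1 x.2⟩,
    fun x => ⟨(D : ZMod l)⁻¹ * x.1, h2 x.1 x.2⟩, fun x => ?_, fun x => ?_⟩).symm
  · apply Subtype.ext
    field_simp
  · apply Subtype.ext
    field_simp

theorem dsc_tw (a b D : ℤ) : dsc (a * D ^ 2) (b * D ^ 3) = D ^ 6 * dsc a b := by
  unfold dsc
  ring

/-- The theorem on the Selmer groups, for a given set `J`. -/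
theorem gselR_of (H : Parts2) (hI : S_INT) {L : Type} [Field L] [NumberField L] {a b : ℤ} {θ : L}
    {X' : ℕ} {S T J : Finset ℤ} {s A B : ℤ → ℤ} (hc : IsCub a b θ)
    (hu : ∀ (Ω : Type) [Field Ω] [CharZero Ω] (t : Ω), t ^ 3 + (a : Ω) * t + (b : Ω) = 0 →
      ∃ φ : L →+* Ω, φ θ = t) (hS : GoodS S s)
    (hF : Fam X' S s T A B a b) (ha4 : a % 4 = 3) (hb4 : b % 4 = 3) (hT : GoodT T A B)
    (hJ : J ⊆ S) (hsel : HSel a b J θ) :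
    GSelR (a * (∏ Q ∈ J, Q) ^ 2) (b * (∏ Q ∈ J, Q) ^ 3) := by
  have hnt2 : ∀ z : ℤ, ¬ (2 : ℤ) ∣ z ^ 3 + a * z + b := fam_nt hT hF hT.1
  obtain ⟨ha, hb⟩ := odd_of hnt2
  have hJp : ∀ Q ∈ J, IsPr Q := fun Q hQ => (hS Q (hJ hQ)).1
  have hD8 : (∏ Q ∈ J, Q) % 8 = 1 := prod_mod8 fun Q hQ => (hS Q (hJ hQ)).2.1
  have hDpos : 0 < ∏ Q ∈ J, Q := Finset.prod_pos fun Q hQ => (hJp Q hQ).1
  have hirr2 : irr (a * (∏ Q ∈ J, Q) ^ 2) (b * (∏ Q ∈ J, Q) ^ 3) = irr a b :=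
    irr_mul fun P hP hPD => hF.rb P (hJ (prime_prod hJp hP hPD))
  obtain ⟨m, hm⟩ : ∃ m : ℤ, (∏ Q ∈ J, Q) = 4 * m + 1 := ⟨(∏ Q ∈ J, Q) / 4, by omega⟩
  refine ⟨?_, ?_, ?_, ?_⟩
  · have e : a * (∏ Q ∈ J, Q) ^ 2 = a + 4 * (a * (4 * m ^ 2 + 2 * m)) := by rw [hm]; ring
    rw [e]
    omega
  · have e : b * (∏ Q ∈ J, Q) ^ 3 = b + 4 * (b * (16 * m ^ 3 + 12 * m ^ 2 + 3 * m)) := by
      rw [hm]; ring
    rw [e]
    omega
  · have := hF.pa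
    positivity
  intro M _ _ _ n hM hadm d hd R₁ R₂ hR₁ hR₂
  -- the primes in `J`
  have hJd : ∀ Q ∈ J, Q ∣ dsc (a * (∏ Q ∈ J, Q) ^ 2) (b * (∏ Q ∈ J, Q) ^ 3) := fun Q hQ => by
    have h1 : Q ∣ ∏ Q ∈ J, Q := Finset.dvd_prod_of_mem (fun Q : ℤ => Q) hQ
    rw [dsc_tw]
    exact (dvd_pow h1 (by norm_num)).mul_right _
  have hJu : ∀ Q ∈ J, Unr M Q := fun Q hQ => by
    by_contra h
    exact hadm.gd Q (hJp Q hQ) h (hJd Q hQ)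
  have hrJ : ∀ Q ∈ J, Res M Q := fun Q hQ => by
    have h1 : Q ∣ ∏ Q ∈ J, Q := Finset.dvd_prod_of_mem (fun Q : ℤ => Q) hQ
    exact hadm.sp Q (hJp Q hQ) ((dvd_pow h1 two_ne_zero).mul_left _)
      ((dvd_pow h1 three_ne_zero).mul_left _)
  have hgood : ∀ l : ℕ, l.Prime → (¬ Unr M (l : ℤ) ∨ (l : ℤ) ∣ d) →
      ¬ (l : ℤ) ∣ dsc a b ∧ ¬ (l : ℤ) ∣ ∏ Q ∈ J, Q := by
    intro l hl h
    have h1 : ¬ (l : ℤ) ∣ dsc (a * (∏ Q ∈ J, Q) ^ 2) (b * (∏ Q ∈ J, Q) ^ 3) := by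
      rcases h with h | h
      · exact hadm.gd l (isPr_nat hl) h
      · exact hd.gd l (isPr_nat hl) h
    rw [dsc_tw] at h1
    exact ⟨fun h2 => h1 (h2.mul_left _), fun h2 => h1 ((dvd_pow h2 (by norm_num)).mul_right _)⟩
  obtain ⟨w₀, hw₀⟩ := exists_over (𝓞 M)
  have hnr := H.nr M (𝓞 M) n hM w₀ hw₀ a b ha hb
  have hnrM : ∀ t : M, t ^ 3 + (a : M) * t + (b : M) ≠ 0 := by
    intro t ht
    apply hnr (algebraMap M _ t)
    have h1 := congrArg (algebraMap M (w₀.adicCompletion M)) ht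
    rw [map_zero, map_add, map_add, map_mul, map_pow, map_intCast, map_intCast] at h1
    exact h1
  have hirrM : Irreducible (ff M a b) := irr_tw' hnrM
  obtain ⟨Ω, iF', iA', t, ht, hr, htop, hfin⟩ := exists_field hirrM (ff_monic M a b) (ff_deg M a b)
  haveI : CharZero Ω := charZero_of_injective_algebraMap (algebraMap M Ω).injective
  haveI : FiniteDimensional ℚ Ω := FiniteDimensional.trans ℚ M Ω
  haveI : NumberField Ω := ⟨⟩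
  have ht' : t ^ 3 + (a : Ω) * t + (b : Ω) = 0 := by
    simp only [ff, map_add, map_mul, map_pow, aeval_X, aeval_C, map_intCast] at ht
    exact ht
  obtain ⟨φ, hφ⟩ := hu Ω t ht'
  letI : Algebra L Ω := φ.toAlgebra
  have hroot : algebraMap L Ω θ = t := hφ
  have htop' : M⟮algebraMap L Ω θ⟯ = ⊤ := by rw [hroot]; exact htop
  -- the sets of the primes
  let F₁ := R₁.filter fun l : ℕ => ((l : ℤ) ∉ irr a b)
  let F₂ := R₂.filter fun l : ℕ => ((l : ℤ) ∉ irr a b)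
  have hF₁ : ∀ l, l ∈ F₁ ↔ (l.Prime ∧ ¬ Unr M (l : ℤ) ∧ ¬ (l : ℤ) ∣ d) ∧ (l : ℤ) ∉ irr a b := by
    intro l
    rw [Finset.mem_filter, hR₁]
  have hF₂ : ∀ l, l ∈ F₂ ↔ (l.Prime ∧ l ≠ 2 ∧ (l : ℤ) ∣ d) ∧ (l : ℤ) ∉ irr a b := by
    intro l
    rw [Finset.mem_filter, hR₂]
  have h2i : (2 : ℤ) ∈ irr a b := ⟨(hT.2.2 2 hT.1).1, hnt2⟩
  have hFg : ∀ l ∈ F₁ ∪ F₂, l.Prime ∧ ¬ (l : ℤ) ∣ dsc a b ∧ ¬ (l : ℤ) ∣ ∏ Q ∈ J, Q := by
    intro l hl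
    rcases Finset.mem_union.1 hl with hl | hl
    · obtain ⟨⟨h1, h2, h3⟩, h4⟩ := (hF₁ l).1 hl
      exact ⟨h1, hgood l h1 (Or.inl h2)⟩
    · obtain ⟨⟨h1, h2, h3⟩, h4⟩ := (hF₂ l).1 hl
      exact ⟨h1, hgood l h1 (Or.inr h3)⟩
  have hmem : ∀ P : ℤ, IsPr P → (¬ Unr M P ∨ P ∣ d) → P ∈ irr a b ∪ zs (F₁ ∪ F₂) := by
    intro P hP h
    by_cases hi : P ∈ irr a b
    · exact Or.inl hi
    obtain ⟨l, hl, rfl⟩ := nat_isPr hP
    refine Or.inr ⟨l, ?_, rfl⟩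
    have hl2 : l ≠ 2 := by
      rintro rfl
      exact hi h2i
    by_cases hld : (l : ℤ) ∣ d
    · exact Finset.mem_union_right _ ((hF₂ l).2 ⟨⟨hl, hl2, hld⟩, hi⟩)
    · rcases h with h | h
      · exact Finset.mem_union_left _ ((hF₁ l).2 ⟨⟨hl, h, hld⟩, hi⟩)
      · exact absurd h hld
  have h1 := sel_cov (Ω := Ω) (R₁ := F₁) (R₂ := F₂) H hI hc hS hF hT hJ hsel hM hr htop' ha4 hb4
    hd.two hadm.two (fun l hl => (hFg l hl).1)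
    (by
      rintro Q hQ ⟨l, hl, rfl⟩
      exact (hFg l hl).2.2 (Finset.dvd_prod_of_mem (fun Q : ℤ => Q) hQ))
    (fun l hl => ⟨⟨((hF₁ l).1 hl).2, ((hF₁ l).1 hl).1.2.2⟩,
      (hFg l (Finset.mem_union_left _ hl)).2.1⟩)
    (fun P hP hPT => by
      by_contra h
      exact hPT (hmem P hP (Or.inl h))) hrJ (fun P hP hPd => hmem P hP (Or.inr hPd))
  have e1 : a * (∏ Q ∈ J, Q) ^ 2 * d ^ 2 = a * (d * ∏ Q ∈ J, Q) ^ 2 := by ring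
  have e2 : b * (∏ Q ∈ J, Q) ^ 3 * d ^ 3 = b * (d * ∏ Q ∈ J, Q) ^ 3 := by ring
  rw [e1, e2]
  have hprod : ∀ R : Finset ℕ, (∀ l ∈ R, l.Prime ∧ (¬ Unr M (l : ℤ) ∨ (l : ℤ) ∣ d)) →
      ∏ l ∈ R, (1 + nz (a * (∏ Q ∈ J, Q) ^ 2) (b * (∏ Q ∈ J, Q) ^ 3) l) =
        ∏ l ∈ R.filter (fun l : ℕ => ((l : ℤ) ∉ irr a b)), (1 + nz a b l) := by
    intro R hR
    rw [Finset.prod_filter]
    refine Finset.prod_congr rfl fun l hl => ?_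
    obtain ⟨h2, h3⟩ := hR l hl
    rw [nz_tw h2 (hgood l h2 h3).2]
    by_cases h4 : (l : ℤ) ∈ irr a b
    · rw [if_neg (not_not.2 h4), nz_irr h4, add_zero]
    · rw [if_pos h4]
  have hbd : bdN (a * (∏ Q ∈ J, Q) ^ 2) (b * (∏ Q ∈ J, Q) ^ 3) n R₁ R₂ =
      (∏ l ∈ F₂, (1 + nz a b l)) * (∏ l ∈ F₁ ∪ F₂, (1 + nz a b l)) ^ (2 ^ n - 1) := by
    unfold bdN
    rw [hprod R₂ (fun l hl => ⟨((hR₂ l).1 hl).1, Or.inr ((hR₂ l).1 hl).2.2⟩),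
      hprod (R₁ ∪ R₂) (fun l hl => by
        rcases Finset.mem_union.1 hl with hl | hl
        · exact ⟨((hR₁ l).1 hl).1, Or.inl ((hR₁ l).1 hl).2.1⟩
        · exact ⟨((hR₂ l).1 hl).1, Or.inr ((hR₂ l).1 hl).2.2⟩), Finset.filter_union]
  rw [hbd]
  exact h1

/-- The theorem on the Selmer groups. -/
theorem selER (H : Parts2) (hI : S_INT) {κ : ℕ} (hLB : LBk κ) {a b : ℤ} {X' : ℕ}
    {S T : Finset ℤ} {s A B : ℤ → ℤ} (hS : GoodS S s)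
    (hF : Fam X' S s T A B a b) (ha4 : a % 4 = 3) (hb4 : b % 4 = 3)
    (hnb : ¬ LBad κ X' S s a b) (hT : GoodT T A B) :
    ∃ J ⊆ S, GSelR (a * (∏ Q ∈ J, Q) ^ 2) (b * (∏ Q ∈ J, Q) ^ 3) := by
  have hnt2 : ∀ z : ℤ, ¬ (2 : ℤ) ∣ z ^ 3 + a * z + b := fam_nt hT hF hT.1
  -- the cubic field
  have hirr : Irreducible (ff ℚ a b) := by
    have hone : (X ^ 3 + C ((((a * 1 ^ 2 : ℤ)) : ℚ)) * X +
      C ((((b * 1 ^ 3 : ℤ)) : ℚ)) : ℚ[X]) = ff ℚ a b := by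
      rw [one_pow, one_pow, mul_one, mul_one]
      rfl
    rw [← hone]
    exact irr_tw (algebraMap ℚ ℚ_[2]) hnt2 one_ne_zero
  obtain ⟨L, iF, iN, θ, hc, hu⟩ := exists_cub hirr
  obtain ⟨J, hJ, hsel⟩ := core2 (L := L) (𝓞 L) H.p.cls H.p.exq H.p.ns H.p.lin H.p.recp H.p.plm
    H.p.sd H.p.ttv hLB hc hS hT hF hnb
  exact ⟨J, hJ, gselR_of H hI hc hu hS hF ha4 hb4 hT hJ hsel⟩

/-! ### Counting -/

/-- The good curves. -/
structure GoodR (M₀ : Type) [Field M₀] [NumberField M₀] (T₀ : Finset ℤ) (p : ℤ × ℤ) : Prop where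
  ir : ∀ P ∈ T₀, P ∈ irr p.1 p.2
  adm : Adm M₀ p.1 p.2
  sel : GSelR p.1 p.2

/-- The main theorem with a bound of order `X ^ 5`. -/
theorem mainR (M₀ : Type) [Field M₀] [NumberField M₀] [IsGalois ℚ M₀] (hur : Unr M₀ 2)
    (T₀ : Finset ℤ) (hT₀ : ∀ P ∈ T₀, IsPr P) :
    ∃ (P X₀ : ℕ) (c : ℝ), 0 < c ∧ 1 ≤ P ∧ ∀ X : ℕ, X₀ ≤ X → ∀ H : ℕ, 27 * (X * P) ^ 6 ≤ H →
      c * (X : ℝ) ^ 5 ≤ ({p : ℤ × ℤ | Crv H p.1 p.2 ∧ GoodR M₀ T₀ p}.ncard : ℝ) := by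
  obtain ⟨κ, hLB'⟩ := lb
  obtain ⟨γ, g, δ, hG, hdeg⟩ := Pool.Agent.N40.PQ.gen M₀
  -- the prime divisors of `δ`
  obtain ⟨T₁, hT₁, hδ₁⟩ : ∃ T : Finset ℤ, (∀ P ∈ T, IsPr P) ∧
      ∀ P : ℤ, IsPr P → P ∣ δ → P ∈ T := by
    have hf : {P : ℤ | IsPr P ∧ P ∣ δ}.Finite := by
      refine (Set.finite_Icc (-|δ|) |δ|).subset ?_
      rintro P ⟨-, h⟩
      have h3 : |P| ≤ |δ| := Int.le_of_dvd (abs_pos.2 hG.ne) ((abs_dvd_abs P δ).2 h)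
      exact abs_le.1 h3
    refine ⟨hf.toFinset, fun P hP => ?_, fun P h1 h2 => ?_⟩
    · exact (hf.mem_toFinset.1 hP).1
    · exact hf.mem_toFinset.2 ⟨h1, h2⟩
  obtain ⟨T, A, B, hTT, hT⟩ := Pool.Agent.N954.PQ.tch (T₀ ∪ T₁) (by
    intro P hP
    rcases Finset.mem_union.1 hP with h | h
    · exact hT₀ P h
    · exact hT₁ P h)
  have hδ : ∀ P : ℤ, IsPr P → P ∣ δ → P ∈ T := fun P h1 h2 =>
    hTT (Finset.mem_union_right _ (hδ₁ P h1 h2))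
  have hT0T : T₀ ⊆ T := fun P hP => hTT (Finset.mem_union_left _ hP)
  obtain ⟨S, s, c, hS, hdis, hsp, hc, X₀, hX₀⟩ := good_card3 κ hT
    (fun Q => SplitMod Q g) (Pool.Agent.N40.PQ.spl M₀ γ g δ hG hdeg T)
  have hSpos : 0 < ∏ Q ∈ S, Q := Finset.prod_pos fun Q hQ => (hS Q hQ).1.1
  refine ⟨(∏ Q ∈ S, Q).toNat, X₀, c / 2 ^ S.card,
    by positivity, by omega, fun X hX Hh hHh => ?_⟩
  have hN := hX₀ X hX
  set Hs := {p : ℤ × ℤ | Crv Hh p.1 p.2 ∧ GoodR M₀ T₀ p} with hH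
  set G := {p : ℤ × ℤ | (Fam X S s T A B p.1 p.2 ∧ p.1 % 4 = 3 ∧ p.2 % 4 = 3) ∧
    ¬ LBad κ X S s p.1 p.2} with hG'
  have hHf : Hs.Finite := (crv_fin Hh).subset fun p hp => hp.1
  have hbd : 27 * ((X : ℤ) * ∏ Q ∈ S, Q) ^ 6 ≤ Hh := by
    have h1 : ((27 * (X * (∏ Q ∈ S, Q).toNat) ^ 6 : ℕ) : ℤ) ≤ Hh := by exact_mod_cast hHh
    have e1 : (((∏ Q ∈ S, Q).toNat : ℕ) : ℤ) = ∏ Q ∈ S, Q := Int.toNat_of_nonneg hSpos.le
    rw [Nat.cast_mul, Nat.cast_pow, Nat.cast_mul, e1] at h1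
    exact_mod_cast h1
  have hcard := card_fib hHf S
    (fun (J : Finset ℤ) (p : ℤ × ℤ) => (p.1 * (∏ Q ∈ J, Q) ^ 2, p.2 * (∏ Q ∈ J, Q) ^ 3)) (G := G) (by
      rintro p ⟨⟨hpF, hpa, hpb⟩, hnb⟩
      obtain ⟨J, hJ, hsel⟩ := selER parts2 Pool.Agent.N849.PQ.int hLB' hS hpF hpa hpb hnb hT
      refine ⟨J, hJ, ?_⟩
      have hcrv := Pool.Agent.N707.PQ.crv X Hh S T s A B p.1 p.2 hS hT hpF J hJ hbd
      have hJp : ∀ Q ∈ J, IsPr Q := fun Q hQ => (hS Q (hJ hQ)).1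
      have hirr2 : irr (p.1 * (∏ Q ∈ J, Q) ^ 2) (p.2 * (∏ Q ∈ J, Q) ^ 3) = irr p.1 p.2 :=
        irr_mul fun P hP hPD => hpF.rb P (hJ (prime_prod hJp hP hPD))
      have hTirr : ∀ P ∈ T, P ∈ irr p.1 p.2 := fun P hP =>
        ⟨(hT.2.2 P hP).1, fam_nt hT hpF hP⟩
      refine ⟨hcrv, ?_, ?_, hsel⟩
      · intro P hP
        show P ∈ irr (p.1 * (∏ Q ∈ J, Q) ^ 2) (p.2 * (∏ Q ∈ J, Q) ^ 3)
        rw [hirr2]
        exact hTirr P (hT0T hP)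
      · refine ⟨hur, fun P hP hPi => ?_, fun P hP hPA hPB => ?_⟩
        · refine unr_of_gen hG hP fun hPδ => hPi ?_
          show P ∈ irr (p.1 * (∏ Q ∈ J, Q) ^ 2) (p.2 * (∏ Q ∈ J, Q) ^ 3)
          rw [hirr2]
          exact hTirr P (hδ P hP hPδ)
        · -- `P ∈ J`
          have hPJ : P ∈ J := by
            by_contra hPJ
            have hnD : ¬ P ∣ ∏ Q ∈ J, Q := fun h => hPJ (prime_prod hJp hP h)
            have h1 : P ∣ p.1 := by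
              rcases hP.2.dvd_or_dvd hPA with h | h
              · exact h
              · exact absurd (hP.2.dvd_of_dvd_pow h) hnD
            have h2 : P ∣ p.2 := by
              rcases hP.2.dvd_or_dvd hPB with h | h
              · exact h
              · exact absurd (hP.2.dvd_of_dvd_pow h) hnD
            exact coprime_ab hpF.sq hP h1 h2
          have hPS := hJ hPJ
          refine res_of_gen hG hP (fun hPδ => ?_) (hsp P hPS)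
          exact Finset.disjoint_left.1 hdis hPS (hδ P hP hPδ)) (by
      intro J hJ x hx y hy hxy
      have hD0 : (∏ Q ∈ J, Q) ≠ 0 := by
        rw [Finset.prod_ne_zero_iff]
        exact fun Q hQ => (hS Q (hJ hQ)).1.2.ne_zero
      rw [Prod.mk.injEq] at hxy
      exact twist_inj hD0 hxy.1 hxy.2)
  have hcard' : (G.ncard : ℝ) ≤ 2 ^ S.card * Hs.ncard := by exact_mod_cast hcard
  calc c / 2 ^ S.card * (X : ℝ) ^ 5
      = c * (X : ℝ) ^ 5 / 2 ^ S.card := by ring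
    _ ≤ (G.ncard : ℝ) / 2 ^ S.card := by gcongr
    _ ≤ (2 ^ S.card * Hs.ncard) / 2 ^ S.card := by gcongr
    _ = Hs.ncard := by field_simp

/-- A positive proportion of all elliptic curves is good. -/
theorem propR (M₀ : Type) [Field M₀] [NumberField M₀] [IsGalois ℚ M₀] (hur : Unr M₀ 2)
    (T₀ : Finset ℤ) (hT₀ : ∀ P ∈ T₀, IsPr P) :
    ∃ c : ℝ, 0 < c ∧ ∃ H₀ : ℕ, ∀ H ≥ H₀, {p : ℤ × ℤ | Crv H p.1 p.2}.Finite ∧
    c * ({p : ℤ × ℤ | Crv H p.1 p.2}.ncard : ℝ) ≤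
      ({p : ℤ × ℤ | Crv H p.1 p.2 ∧ GoodR M₀ T₀ p}.ncard : ℝ) := by
  obtain ⟨P, X₀, c, hc, hP, h⟩ := mainR M₀ hur T₀ hT₀
  exact Pool.Agent.N607.PQ.cnt (fun p => GoodR M₀ T₀ p) P X₀ c hc hP
    fun X hX Hh hHh => h X hX Hh hHh

end Pool.Agent.H30GR
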