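import Pool.Agent.H30GR.Seq
import Pool.Agent.H30GR.GoodR
import Pool.Agent.H30GR.Stm

/-!
# From the bounds to the groups
-/

set_option autoImplicit false
set_option linter.all false

open NumberField IsDedekindDomain WeierstrassCurve Module
open Pool.Agent.TH115.GD
open scoped Classical

namespace Pool.Agent.H30GR

open Pool.Agent.H30EV
open Pool.Agent.N874.PP (sW)
open Pool.Agent.N922.PQ

theorem exists_inj {α : Type} {N : ℕ} (h : ¬ (Finite α ∧ Nat.card α ≤ N)) :
    ∃ f : Fin (N + 1) → α, Function.Injective f := by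
  by_cases hf : Finite α
  · have h1 : N < Nat.card α := by
      by_contra h2
      exact h ⟨hf, not_lt.1 h2⟩
    exact ⟨(Finite.equivFin α).symm ∘ Fin.castLE h1, (Finite.equivFin α).symm.injective.comp
      (Fin.castLE_injective h1)⟩
  · haveI : Infinite α := not_finite_iff_infinite.1 hf
    exact ⟨fun i => Infinite.natEmbedding α i.1,
      (Infinite.natEmbedding α).injective.comp Fin.val_injective⟩

section

variable {K : Type} [Field K] [NumberField K] {q : ℤ × ℤ}

/-- The upper bound. -/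
theorem sel_fin {N : ℕ} (h : SelBd (𝓞 K) (sW (q.1 : K) (q.2 : K)) N) :
    Finite (Sel2 (curve K q)) ∧ Nat.card (Sel2 (curve K q)) ≤ N := by
  by_contra hcon
  obtain ⟨f, hf⟩ := exists_inj hcon
  choose z hz using fun i => QuotientAddGroup.mk_surjective (f i)
  have h1 := h (N + 1) (fun i => ((z i : selmerCocycles (curve K q)) : Coch (curve K q)))
    (fun i => coc_of (z i).2.1) (fun i σ => congrFun (z i).2.2 σ)
    (fun i v => loc_of (z i).2.1 v) (by
      rintro i j ⟨T₀, hT₀, h2₀⟩
      obtain ⟨T, hT, h2⟩ : ∃ T : Pts (curve K q) (SeparableClosure K), 2 • T = 0 ∧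
          cobHom (curve K q) T = (z i : Coch (curve K q)) - (z j : Coch (curve K q)) :=
        ⟨T₀, hT₀, funext fun σ => (h2₀ σ).symm⟩
      apply hf
      rw [← hz i, ← hz j]
      have h3 : -(z i) + z j ∈
          (coboundariesTwo (curve K q)).addSubgroupOf (selmerCocycles (curve K q)) := by
        rw [AddSubgroup.mem_addSubgroupOf]
        refine ⟨-T, ?_, ?_⟩
        · show 2 • (-T) = 0
          rw [smul_neg, hT, neg_zero]
        · show cobHom (curve K q) (-T) = -((z i : Coch (curve K q))) + (z j : Coch (curve K q))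
          rw [map_neg, h2]
          abel
      exact QuotientAddGroup.eq.2 h3)
  omega

/-- The lower bound. -/
theorem sel_low [Finite (Sel2 (curve K q))] {n : ℕ} (z : Fin n → Coch (curve K q))
    (hz : ∀ i, ShaCocycle (curve K q) (z i) ∧ ∀ σ, 2 • z i σ = 0)
    (hd : ∀ i j, (∃ Q, 2 • Q = 0 ∧ z i - z j = cob Q) → i = j) :
    n ≤ Nat.card (Sel2 (curve K q)) := by
  have hmem : ∀ i, z i ∈ selmerCocycles (curve K q) := fun i =>
    ⟨(hz i).1, funext fun σ => (hz i).2 σ⟩
  let g : Fin n → Sel2 (curve K q) := fun i =>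
    ((⟨z i, hmem i⟩ : selmerCocycles (curve K q)) :
      selmerCocycles (curve K q) ⧸
        (coboundariesTwo (curve K q)).addSubgroupOf (selmerCocycles (curve K q)))
  have hg : Function.Injective g := by
    intro i j hij
    have h1 := QuotientAddGroup.eq.1 hij
    rw [AddSubgroup.mem_addSubgroupOf] at h1
    obtain ⟨Q, hQ, h2⟩ := h1
    have h3 : cobHom (curve K q) Q = -(z i) + z j := h2
    apply hd
    refine ⟨-Q, ?_, ?_⟩
    · have h4 : 2 • Q = 0 := hQ
      rw [smul_neg, h4, neg_zero]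
    · show z i - z j = cobHom (curve K q) (-Q)
      rw [map_neg, h3]
      abel
  have := Nat.card_le_card_of_injective g hg
  rwa [Nat.card_eq_fintype_card, Fintype.card_fin] at this

end

/-! ### Ramified primes -/

/-- The ramification indices of ramified primes are even. -/
theorem evR_of {K : Type} [Field K] [NumberField K] [IsGalois ℚ K] {n : ℕ}
    (hn : finrank ℚ K = 2 ^ n) {l : ℕ} (hl : l.Prime) (hr : ¬ Unr K (l : ℤ)) : EvR K l := by
  have hP : IsPr (l : ℤ) := isPr_nat hl
  have hpmax : (Ideal.span {(l : ℤ)}).IsMaximal :=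
    PrincipalIdealRing.isMaximal_of_irreducible hP.2.irreducible
  have h0 : Ideal.span {(l : ℤ)} ≠ ⊥ := by
    rw [Ne, Ideal.span_singleton_eq_bot]
    exact hP.2.ne_zero
  have hfin : Finite (ℤ ⧸ Ideal.span {(l : ℤ)}) := Ring.HasFiniteQuotients.finiteQuotient h0
  -- the ramification index
  have hval : ∀ w : HeightOneSpectrum (𝓞 K), Ov (l : ℤ) w →
      w.valuation K (l : K) =
        WithZero.exp (-((Ideal.ramificationIdxIn (Ideal.span {(l : ℤ)}) (𝓞 K) : ℕ) : ℤ)) := by
    intro w h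
    have hPp : w.asIdeal.IsPrime := w.isPrime
    have hl' : w.asIdeal.LiesOver (pz hP).asIdeal := liesOver_of hP h
    have hl2 : w.asIdeal.LiesOver (Ideal.span {(l : ℤ)}) := liesOver_of hP h
    have h1 : Ideal.ramificationIdxIn (Ideal.span {(l : ℤ)}) (𝓞 K) =
        w.asIdeal.ramificationIdx ℤ :=
      Ideal.ramificationIdxIn_eq_ramificationIdx (Ideal.span {(l : ℤ)}) w.asIdeal Gal(K/ℚ)
    have h2 : (Ideal.span {(l : ℤ)}).ramificationIdx' w.asIdeal = w.asIdeal.ramificationIdx ℤ :=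
      Ideal.ramificationIdx'_eq_ramificationIdx (Ideal.span {(l : ℤ)}) w.asIdeal h0
    have h3 := HeightOneSpectrum.valuation_liesOver (K := ℚ) K (pz hP) w ((l : ℤ) : ℚ)
    have h4 : (pz hP).valuation ℚ ((l : ℤ) : ℚ) = WithZero.exp (-1 : ℤ) := by
      have e : (((l : ℤ)) : ℚ) = algebraMap ℤ ℚ (l : ℤ) := by simp
      rw [e, HeightOneSpectrum.valuation_of_algebraMap]
      exact HeightOneSpectrum.intValuation_singleton _ hP.2.ne_zero rfl
    have h5 : (pz hP).asIdeal.ramificationIdx' w.asIdeal =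
        Ideal.ramificationIdxIn (Ideal.span {(l : ℤ)}) (𝓞 K) := by
      rw [h1]
      exact h2
    rw [h4, h5, map_intCast] at h3
    have e2 : ((l : ℤ) : K) = (l : K) := by norm_num
    rw [e2] at h3
    rw [← h3, ← WithZero.exp_nsmul]
    congr 1
    simp
  -- it is a power of two
  obtain ⟨w₀, hw₀, hne⟩ : ∃ w : HeightOneSpectrum (𝓞 K), Ov (l : ℤ) w ∧
      w.valuation K (l : K) ≠ WithZero.exp (-1 : ℤ) := by
    by_contra hcon
    push Not at hcon
    apply hr
    intro w hw
    have := hcon w hw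
    rw [← this]
    norm_num
  have hdvd : Ideal.ramificationIdxIn (Ideal.span {(l : ℤ)}) (𝓞 K) ∣ 2 ^ n := by
    have hPp : w₀.asIdeal.IsPrime := w₀.isPrime
    have hl2 : w₀.asIdeal.LiesOver (Ideal.span {(l : ℤ)}) := liesOver_of hP hw₀
    have hcard : Nat.card (w₀.asIdeal.inertia Gal(K/ℚ)) =
        Ideal.ramificationIdxIn (Ideal.span {(l : ℤ)}) (𝓞 K) :=
      Ideal.card_inertia_eq_ramificationIdxIn (Ideal.span {(l : ℤ)}) w₀.asIdeal
    rw [← hcard, ← hn, ← IsGalois.card_aut_eq_finrank]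
    exact Subgroup.card_subgroup_dvd_card _
  obtain ⟨k, -, hk⟩ := (Nat.dvd_prime_pow Nat.prime_two).1 hdvd
  rw [hk] at hval
  have hk0 : k ≠ 0 := by
    rintro rfl
    apply hne
    rw [hval w₀ hw₀]
    simp
  obtain ⟨j, rfl⟩ := Nat.exists_eq_succ_of_ne_zero hk0
  intro v hv
  have hv' : Ov (l : ℤ) v := (ov_p v).2 hv
  obtain ⟨s, hs⟩ := v.valuation_surjective (K := K) (WithZero.exp (-((2 ^ j : ℕ) : ℤ)))
  refine ⟨s, ?_⟩
  rw [hs, hval v hv', ← WithZero.exp_nsmul]
  congr 1
  push_cast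
  simp
  ring

/-- The set of the ramified primes is finite. -/
theorem ram_fin (K : Type) [Field K] [NumberField K] [IsGalois ℚ K] : (ramPrimes K).Finite := by
  obtain ⟨γ, g, δ, hG, hdeg⟩ := Pool.Agent.N40.PQ.gen K
  refine (Set.finite_Iic δ.natAbs).subset ?_
  rintro p ⟨hp, hr⟩
  have h1 : (p : ℤ) ∣ δ := by
    by_contra h
    exact (unr_iff hp).1 (unr_of_gen hG (isPr_nat hp) h) hr
  exact Nat.le_of_dvd (Int.natAbs_pos.2 hG.ne) (Int.natCast_dvd.1 h1)

theorem ramProd_eq (K : Type) [Field K] [NumberField K] [IsGalois ℚ K] (q : ℤ × ℤ) :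
    ramProd K q = ∏ p ∈ (ram_fin K).toFinset, (1 + nz q.1 q.2 p) := by
  unfold ramProd
  rw [finprod_mem_eq_finite_toFinset_prod _ (ram_fin K)]
  rfl

end Pool.Agent.H30GR
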