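import Pool.Agent.H30GR.Up
import Pool.Agent.H30EV.Main

/-!
# The growth of the 2-Selmer group
-/

set_option autoImplicit false
set_option linter.all false

open NumberField IsDedekindDomain WeierstrassCurve Module Filter
open Pool.Agent.TH115.GD
open scoped Classical

namespace Pool.Agent.H30GR

open Pool.Agent.H30EV
open Pool.Agent.N874.PP (sW)
open Pool.Agent.N922.PQ

theorem admR_of {K : Type} [Field K] [NumberField K] {A B : ℤ} (hodd : A % 2 = 1)
    (h : Admissible K (A, B)) : AdmR K A B where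
  two := (unr_iff Nat.prime_two).2 h.two
  gd P hP hu := by
    obtain ⟨p, hp, rfl⟩ := nat_isPr hP
    rw [unr_iff hp, not_not] at hu
    exact h.good p hp hu
  sp P hP hA hB := by
    obtain ⟨p, hp, rfl⟩ := nat_isPr hP
    refine res_of_splits (h.split p hp ?_ hA hB)
    rintro rfl
    have : (2 : ℤ) ∣ A := hA
    omega

theorem no_zero {K : Type} [Field K] [NumberField K] [IsGalois ℚ K] {n : ℕ}
    (hn : finrank ℚ K = 2 ^ n) {A B : ℤ} (hA : Odd A) (hB : Odd B) (x : K) :
    x ^ 3 + (A : K) * x + (B : K) ≠ 0 := by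
  obtain ⟨w₀, hw₀⟩ := exists_over (𝓞 K)
  intro ht
  apply parts2.nr K (𝓞 K) n hn w₀ hw₀ A B hA hB (algebraMap K _ x)
  have h1 := congrArg (algebraMap K (w₀.adicCompletion K)) ht
  rw [map_zero, map_add, map_add, map_mul, map_pow, map_intCast, map_intCast] at h1
  exact h1

/-- The number of the elements of the 2-Selmer group over an admissible field. -/
structure Growth (K : Type) [Field K] [NumberField K] (q : ℤ × ℤ) : Prop where
  fin : Finite (Sel2 (curve K q))
  low : ramProd K q ≤ Nat.card (Sel2 (curve K q))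
  up : Nat.card (Sel2 (curve K q)) ≤ ramProd K q ^ (finrank ℚ K - 1)
  formula : Nat.card (Sel2 (curve K q)) =
    2 ^ finrank ℤ (Pts (curve K q) K) * Nat.card {x : Sha (curve K q) // 2 • x = 0}

theorem growth_of (hL : S_LOW) {A B : ℤ} (hG : GSelR A B) {K : Type} [Field K] [NumberField K]
    (hK : Admissible K (A, B)) : Growth K (A, B) := by
  haveI := hK.galois
  obtain ⟨n, hn⟩ := hK.degree
  have ha := hG.a4
  have hb := hG.b4
  have hpos := hG.pos
  have hd : 0 < 4 * A ^ 3 + 27 * B ^ 2 := by positivity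
  have hA : Odd A := by
    rw [Int.odd_iff]
    omega
  have hB : Odd B := by
    rw [Int.odd_iff]
    omega
  have hnz := no_zero (K := K) hn hA hB
  have hmem : ∀ l : ℕ, l ∈ (ram_fin K).toFinset ↔ l.Prime ∧ Ramified K l := fun l =>
    (ram_fin K).mem_toFinset
  have h1p : ∀ p : ℕ, p.Prime → ¬ (p : ℤ) ∣ 1 := by
    intro p hp h
    have : p ∣ 1 := by exact_mod_cast h
    exact hp.one_lt.ne' (Nat.dvd_one.1 this)
  have hsel := hG.sel K n hn (admR_of (by omega) hK) 1 ⟨Or.inl (by norm_num), fun P hP h1 => by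
      obtain ⟨p, hp, rfl⟩ := nat_isPr hP
      exact absurd h1 (h1p p hp)⟩ (ram_fin K).toFinset ∅ (fun l => by
      rw [hmem]
      constructor
      · rintro ⟨h1, h2⟩
        exact ⟨h1, fun h3 => (unr_iff h1).1 h3 h2, h1p l h1⟩
      · rintro ⟨h1, h2, -⟩
        exact ⟨h1, by rwa [unr_iff h1, not_not] at h2⟩) (fun l => by
      constructor
      · intro h
        exact absurd h (Finset.notMem_empty _)
      · rintro ⟨h1, -, h2⟩
        exact absurd h2 (h1p l h1))
  have hbd : bdN A B n (ram_fin K).toFinset ∅ = ramProd K (A, B) ^ (finrank ℚ K - 1) := by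
    unfold bdN
    rw [Finset.prod_empty, one_mul, Finset.union_empty, ramProd_eq, hn]
  rw [hbd] at hsel
  have e1 : A * 1 ^ 2 = A := by ring
  have e2 : B * 1 ^ 3 = B := by ring
  rw [e1, e2] at hsel
  obtain ⟨h1, h2⟩ := sel_fin (q := (A, B)) hsel
  refine ⟨h1, ?_, h2, ?_⟩
  · obtain ⟨m, z, hz, hd', hm⟩ := hL A B hd K hnz (ram_fin K).toFinset (fun l hl => by
      obtain ⟨h3, h4⟩ := (hmem l).1 hl
      have hl2 : l ≠ 2 := by
        rintro rfl
        exact hK.two h4
      exact ⟨h3, hl2, hK.good l h3 h4, evR_of hn h3 (by rwa [unr_iff h3, not_not])⟩)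
    rw [ramProd_eq]
    exact hm.trans (sel_low z hz hd')
  · rw [card_sel_rank (q := (A, B)) hd.ne' hnz, mul_comm]

theorem cube3 : ∀ b : ZMod 3, (-b) ^ 3 + b = 0 := by decide

/-- The field is admissible. -/
theorem adm_one {K₀ : Type} [Field K₀] [NumberField K₀] [IsGalois ℚ K₀] {n : ℕ}
    (hn : finrank ℚ K₀ = 2 ^ n) {A B : ℤ} (hA : A % 2 = 1) (h : Adm K₀ A B)
    (h3 : (3 : ℤ) ∈ irr A B) : Admissible K₀ (A, B) where
  galois := inferInstance
  degree := ⟨n, hn⟩
  two := (unr_iff Nat.prime_two).1 h.two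
  good p hp hr := by
    have hirr : (p : ℤ) ∈ irr A B := by
      by_contra hc
      exact (unr_iff hp).1 (h.ur p (isPr_nat hp) hc) hr
    have hp2 : p ≠ 2 := by
      rintro rfl
      exact (unr_iff hp).1 h.two hr
    intro hdvd
    have hdvd' : (p : ℤ) ∣ 4 * A ^ 3 + 27 * B ^ 2 := hdvd
    haveI : Fact p.Prime := ⟨hp⟩
    -- a double zero
    have h0 : (4 : ZMod p) * (A : ZMod p) ^ 3 + 27 * (B : ZMod p) ^ 2 = 0 := by
      have := (ZMod.intCast_zmod_eq_zero_iff_dvd _ p).2 hdvd'
      push_cast at this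
      exact this
    have h2 : (2 : ZMod p) ≠ 0 := by
      intro h
      have h4 : ((2 : ℕ) : ZMod p) = 0 := by exact_mod_cast h
      rw [ZMod.natCast_eq_zero_iff] at h4
      rcases (Nat.dvd_prime Nat.prime_two).1 h4 with h5 | h5
      · exact hp.ne_one h5
      · exact hp2 h5
    have hz : ∃ x : ZMod p, x ^ 3 + (A : ZMod p) * x + (B : ZMod p) = 0 := by
      by_cases hA0 : (A : ZMod p) = 0
      · by_cases h3p : (3 : ZMod p) = 0
        · have h3' : ((3 : ℕ) : ZMod p) = 0 := by exact_mod_cast h3p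
          rw [ZMod.natCast_eq_zero_iff, Nat.prime_dvd_prime_iff_eq hp Nat.prime_three] at h3'
          subst h3'
          exfalso
          -- `x ^ 3 = x` modulo three
          apply hirr.2 (-B)
          rw [← ZMod.intCast_zmod_eq_zero_iff_dvd]
          push_cast
          rw [hA0, zero_mul, add_zero]
          exact cube3 _
        · have hB0 : (B : ZMod p) = 0 := by
            rw [hA0] at h0
            have h5 : (3 : ZMod p) ^ 3 * (B : ZMod p) ^ 2 = 0 := by linear_combination h0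
            rcases mul_eq_zero.1 h5 with h6 | h6
            · exact absurd (pow_eq_zero_iff (by norm_num) |>.1 h6) h3p
            · exact pow_eq_zero_iff (by norm_num) |>.1 h6
          exact ⟨0, by rw [hA0, hB0]; ring⟩
      · refine ⟨-(3 * B) / (2 * A), ?_⟩
        field_simp
        linear_combination (-(B : ZMod p)) * h0
    obtain ⟨x, hx⟩ := hz
    obtain ⟨z, rfl⟩ := ZMod.intCast_surjective x
    apply hirr.2 z
    rw [← ZMod.intCast_zmod_eq_zero_iff_dvd]
    push_cast
    exact hx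
  split p hp hp2 hA hB := by
    refine splits_of hp (h.ur p (isPr_nat hp) fun h1 => ?_) (h.sp p (isPr_nat hp) hA hB)
    exact h1.2 0 (by simpa using hB)

/-- **The main theorem.** -/
theorem main_growth (hL : S_LOW) (K₀ : Type) [Field K₀] [NumberField K₀] [IsGalois ℚ K₀] {n : ℕ}
    (hn : Module.finrank ℚ K₀ = 2 ^ n) (h2 : ¬ Ramified K₀ 2) :
    ∃ c : ℝ, 0 < c ∧ ∀ᶠ X : ℕ in atTop, 0 < (Curves X).ncard ∧
      c * ((Curves X).ncard : ℝ) ≤ ({q ∈ Curves X | Admissible K₀ q ∧
        ∀ (K : Type) [Field K] [NumberField K], Admissible K q → Growth K q}.ncard : ℝ) := by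
  have hur : Unr K₀ 2 := (unr_iff Nat.prime_two).2 h2
  obtain ⟨c, hc, H₀, h⟩ := propR K₀ hur {3} (by
    intro P hP
    rw [Finset.mem_singleton] at hP
    rw [hP]
    exact isPr_nat Nat.prime_three)
  refine ⟨c, hc, ?_⟩
  filter_upwards [eventually_ge_atTop H₀, eventually_ge_atTop 27] with X hX hX'
  refine ⟨curves_pos hX', ?_⟩
  obtain ⟨-, h3⟩ := h X hX
  rw [← curves_eq] at h3
  refine h3.trans ?_
  have hsub : {p : ℤ × ℤ | Crv X p.1 p.2 ∧ GoodR K₀ {3} p} ⊆
      {q ∈ Curves X | Admissible K₀ q ∧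
        ∀ (K : Type) [Field K] [NumberField K], Admissible K q → Growth K q} := by
    rintro ⟨A, B⟩ ⟨hq, hg⟩
    have ha : A % 4 = 3 := hg.sel.a4
    exact ⟨(crv_iff X _).1 hq, adm_one hn (by omega) hg.adm
      (hg.ir 3 (Finset.mem_singleton_self _)), fun K _ _ hK => growth_of hL hg.sel hK⟩
  exact_mod_cast Set.ncard_le_ncard hsub ((curves_fin X).subset fun q hq => hq.1)

end Pool.Agent.H30GR
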