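import Pool.Agent.N803.PM.QS
import Pool.Agent.N692.PM.Tow

/-!
# Descent of square classes along Galois 2-extensions, with counting
-/

set_option autoImplicit false
set_option linter.all false

open Module
open scoped Classical

namespace Pool.Agent.H30GR

open Pool.Agent.N803.PM
open Pool.Agent.N692.PMTOW

/-- Descent along a quadratic extension: an element whose norms to `M` and to `L` are squares comes
from an element of `L` with square norm, up to squares. -/
theorem qs_desc (K L M Ω : Type) [Field K] [Field L] [Field M] [Field Ω] [Algebra K L]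
    [Algebra K M] [Algebra L Ω] [Algebra M Ω] [Algebra K Ω] [IsScalarTower K L Ω]
    [IsScalarTower K M Ω] (h2 : (2 : K) ≠ 0) (hM : finrank K M = 2) (hL : finrank K L = 3)
    (hΩ : finrank M Ω = 3) {x : Ω} (hx : x ≠ 0) (hNx : IsSquare (Algebra.norm M x))
    (hLx : IsSquare (Algebra.norm L x)) :
    ∃ w : L, w ≠ 0 ∧ IsSquare (Algebra.norm K w) ∧ ∃ y : Ω, y ≠ 0 ∧
      algebraMap L Ω w = x * y ^ 2 := by
  obtain ⟨m, β, hβ, hβn⟩ := exists_sqrt K M h2 hM
  have hβ0 : β ≠ 0 := by
    rintro rfl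
    exact hβn 0 (map_zero _)
  have hm0 : m ≠ 0 := by
    rintro rfl
    rw [map_zero] at hβ
    exact hβ0 (pow_eq_zero_iff two_ne_zero |>.1 hβ)
  haveI : FiniteDimensional K L := FiniteDimensional.of_finrank_pos (by omega)
  haveI : FiniteDimensional K M := FiniteDimensional.of_finrank_pos (by omega)
  haveI : FiniteDimensional M Ω := FiniteDimensional.of_finrank_pos (by omega)
  haveI : FiniteDimensional K Ω := FiniteDimensional.trans K M Ω
  haveI : FiniteDimensional L Ω := FiniteDimensional.right K L Ω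
  have hLΩ : finrank L Ω = 2 := by
    have h1 := finrank_mul_finrank K M Ω
    have h3 := finrank_mul_finrank K L Ω
    rw [hM, hΩ] at h1
    rw [hL] at h3
    omega
  have hωn := not_mem_cubic K L M Ω hL m β hβ hβn
  have hω2 : (algebraMap M Ω β) ^ 2 = algebraMap L Ω (algebraMap K L m) := by
    rw [← map_pow, hβ, ← IsScalarTower.algebraMap_apply K M Ω,
      ← IsScalarTower.algebraMap_apply K L Ω]
  have h2L : (2 : L) ≠ 0 := by
    intro h
    apply h2
    apply (algebraMap K L).injective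
    rw [map_ofNat, h, map_zero]
  have h2M : (2 : M) ≠ 0 := by
    intro h
    apply h2
    apply (algebraMap K M).injective
    rw [map_ofNat, h, map_zero]
  obtain ⟨σ, hσω, hσN, hσfix⟩ := exists_conj L Ω h2L hLΩ (algebraMap K L m) (algebraMap M Ω β)
    hω2 hωn
  have hσx : σ x ≠ 0 := by simpa using hx
  have hω0 : algebraMap M Ω β ≠ 0 := by simpa using hβ0
  obtain ⟨c, hc⟩ := hNx
  have hx' : algebraMap L Ω (Algebra.norm L x) = x * σ x := hσN x
  obtain ⟨z, hz⟩ := hLx
  have hz2 : x * σ x = (algebraMap L Ω z) ^ 2 := by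
    rw [← hx', hz, map_mul, sq]
  have hz0 : algebraMap L Ω z ≠ 0 := by
    intro h0
    rw [h0] at hz2
    exact mul_ne_zero hx hσx (by simpa using hz2)
  -- Hilbert 90
  obtain ⟨d, hd0, hdσ⟩ : ∃ d : Ω, d ≠ 0 ∧ d * x = algebraMap L Ω z * σ d := by
    by_cases hg : x + algebraMap L Ω z = 0
    · refine ⟨algebraMap M Ω β, hω0, ?_⟩
      rw [hσω]
      linear_combination (algebraMap M Ω β) * hg
    · refine ⟨(x + algebraMap L Ω z) * σ x, mul_ne_zero hg hσx, ?_⟩
      have hσ2 : σ (σ x) = x := by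
        have h1 := congrArg σ hz2
        rw [map_mul, map_pow, AlgEquiv.commutes, ← hz2, mul_comm] at h1
        exact mul_right_cancel₀ hσx h1
      rw [map_mul, map_add, AlgEquiv.commutes, hσ2]
      linear_combination x * hz2
  have hwσ : σ (x * d ^ 2) = x * d ^ 2 := by
    rw [map_mul, map_pow]
    have h4 : (algebraMap L Ω z) ^ 2 ≠ 0 := pow_ne_zero 2 hz0
    apply mul_left_cancel₀ h4
    linear_combination (-(σ x) * (d * x + algebraMap L Ω z * σ d)) * hdσ + d ^ 2 * x * hz2
  obtain ⟨w, hw⟩ := hσfix _ hwσ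
  have hw0 : w ≠ 0 := by
    rintro rfl
    rw [map_zero] at hw
    exact mul_ne_zero hx (pow_ne_zero 2 hd0) hw.symm
  have hspan : ∀ t : Ω, ∃ u v : L, t = algebraMap L Ω u + algebraMap L Ω v * algebraMap M Ω β :=
    two_span L Ω hLΩ _ hωn
  have hN : (c * Algebra.norm M d) ^ 2 = algebraMap K M (Algebra.norm K w) := by
    rw [← norm_bc K L M Ω (by rw [hL, hΩ]) (by omega) β hspan w, hw, map_mul, map_pow, hc]
    ring
  obtain ⟨p, q, hpq⟩ := two_span K M hM β hβn (c * Algebra.norm M d)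
  rw [hpq] at hN
  have hcases : p = 0 ∨ q = 0 := by
    by_contra hcon
    push Not at hcon
    obtain ⟨hp, hq⟩ := hcon
    apply hβn ((Algebra.norm K w - p ^ 2 - q ^ 2 * m) / (2 * p * q))
    have hp' : algebraMap K M p ≠ 0 := by simpa using hp
    have hq' : algebraMap K M q ≠ 0 := by simpa using hq
    rw [map_div₀, map_sub, map_sub, map_mul, map_mul, map_mul, map_pow, map_pow, map_ofNat, ← hN,
      ← hβ]
    field_simp
    ring
  rcases hcases with rfl | rfl
  · -- the norm is `m q ^ 2`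
    have hn : Algebra.norm K w = q ^ 2 * m := by
      apply (algebraMap K M).injective
      rw [← hN, map_mul, map_pow, ← hβ]
      simp
      ring
    have hmL : algebraMap K L m ≠ 0 := by simpa using hm0
    refine ⟨algebraMap K L m * w, mul_ne_zero hmL hw0, ?_, d * algebraMap M Ω β,
      mul_ne_zero hd0 hω0, ?_⟩
    · rw [map_mul, Algebra.norm_algebraMap, hL, hn]
      exact ⟨m ^ 2 * q, by ring⟩
    · rw [map_mul, ← hω2, hw]
      ring
  · have hn : Algebra.norm K w = p * p := by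
      apply (algebraMap K M).injective
      rw [← hN, map_mul]
      simp
      ring
    exact ⟨w, hw0, ⟨p, hn⟩, d, hd0, hw⟩

/-- The elements `x` of `L` with property `C` and square norm to `K` are in at most `N` classes
modulo squares. -/
def Cov (K L : Type) [Field K] [Field L] [Algebra K L] (C : L → Prop) (N : ℕ) : Prop :=
  ∃ R : Finset L, R.card ≤ N ∧ ∀ x : L, x ≠ 0 → C x → IsSquare (Algebra.norm K x) →
    ∃ r ∈ R, r ≠ 0 ∧ IsSquare (x * r)

/-- The representatives can be chosen among the elements. -/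
theorem Cov.rep {K L : Type} [Field K] [Field L] [Algebra K L] {C : L → Prop} {N : ℕ}
    (h : Cov K L C N) : ∃ R : Finset L, R.card ≤ N ∧ (∀ r ∈ R, r ≠ 0 ∧ C r ∧
      IsSquare (Algebra.norm K r)) ∧ ∀ x : L, x ≠ 0 → C x → IsSquare (Algebra.norm K x) →
      ∃ r ∈ R, IsSquare (x * r) := by
  obtain ⟨R, hR, hc⟩ := h
  -- choose an element in each class
  let P : L → L → Prop := fun r x => x ≠ 0 ∧ C x ∧ IsSquare (Algebra.norm K x) ∧ r ≠ 0 ∧
    IsSquare (x * r)
  let R1 := R.filter fun r => ∃ x, P r x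
  let g : L → L := fun r => if h : ∃ x, P r x then h.choose else 0
  have hg : ∀ r ∈ R1, P r (g r) := by
    intro r hr
    have h1 := (Finset.mem_filter.1 hr).2
    simp only [g, dif_pos h1]
    exact h1.choose_spec
  refine ⟨R1.image g, (Finset.card_image_le.trans (Finset.card_filter_le _ _)).trans hR, ?_, ?_⟩
  · intro r hr
    obtain ⟨s, hs, rfl⟩ := Finset.mem_image.1 hr
    have := hg s hs
    exact ⟨this.1, this.2.1, this.2.2.1⟩
  · intro x hx hCx hN
    obtain ⟨r, hr, hr0, hs⟩ := hc x hx hCx hN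
    have hr1 : r ∈ R1 := Finset.mem_filter.2 ⟨hr, x, hx, hCx, hN, hr0, hs⟩
    refine ⟨g r, Finset.mem_image_of_mem _ hr1, ?_⟩
    obtain ⟨-, -, -, -, ⟨t, ht⟩⟩ := hg r hr1
    obtain ⟨s, hs⟩ := hs
    refine ⟨s * t / r, ?_⟩
    field_simp
    linear_combination (g r * r) * hs + s * s * ht

/-- A quadratic step. -/
theorem qs_cov (K L M Ω : Type) [Field K] [Field L] [Field M] [Field Ω] [Algebra K L]
    [Algebra K M] [Algebra L Ω] [Algebra M Ω] [Algebra K Ω] [IsScalarTower K L Ω]
    [IsScalarTower K M Ω] (h2 : (2 : K) ≠ 0) (hM : finrank K M = 2) (hL : finrank K L = 3)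
    (hΩ : finrank M Ω = 3) (C : Ω → Prop) (hC1 : ∀ x : Ω, x ≠ 0 → C (x ^ 2))
    (hC2 : ∀ x y : Ω, x ≠ 0 → y ≠ 0 → C x → C y → C (x * y))
    (hC3 : ∀ (σ : Ω ≃ₐ[L] Ω) (x : Ω), C x → C (σ x)) {N : ℕ}
    (hC4 : Cov K L (fun x => C (algebraMap L Ω x)) N) : Cov M Ω C (N ^ 2) := by
  obtain ⟨R, hR, hRr, hc⟩ := hC4.rep
  haveI : FiniteDimensional K L := FiniteDimensional.of_finrank_pos (by omega)
  haveI : FiniteDimensional K M := FiniteDimensional.of_finrank_pos (by omega)
  haveI : FiniteDimensional M Ω := FiniteDimensional.of_finrank_pos (by omega)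
  haveI : FiniteDimensional K Ω := FiniteDimensional.trans K M Ω
  haveI : FiniteDimensional L Ω := FiniteDimensional.right K L Ω
  have hLΩ : finrank L Ω = 2 := by
    have h1 := finrank_mul_finrank K M Ω
    have h3 := finrank_mul_finrank K L Ω
    rw [hM, hΩ] at h1
    rw [hL] at h3
    omega
  obtain ⟨m, β, hβ, hβn⟩ := exists_sqrt K M h2 hM
  have hωn := not_mem_cubic K L M Ω hL m β hβ hβn
  have hω2 : (algebraMap M Ω β) ^ 2 = algebraMap L Ω (algebraMap K L m) := by
    rw [← map_pow, hβ, ← IsScalarTower.algebraMap_apply K M Ω,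
      ← IsScalarTower.algebraMap_apply K L Ω]
  have h2L : (2 : L) ≠ 0 := by
    intro h
    apply h2
    apply (algebraMap K L).injective
    rw [map_ofNat, h, map_zero]
  obtain ⟨σ, -, hσN, -⟩ := exists_conj L Ω h2L hLΩ (algebraMap K L m) (algebraMap M Ω β)
    hω2 hωn
  -- the norm of an element with the property
  have hnorm : ∀ x : Ω, x ≠ 0 → C x → IsSquare (Algebra.norm M x) → Algebra.norm L x ≠ 0 ∧
      C (algebraMap L Ω (Algebra.norm L x)) ∧ IsSquare (Algebra.norm K (Algebra.norm L x)) := by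
    intro x hx hCx ⟨c, hc⟩
    have hσx : σ x ≠ 0 := by simpa using hx
    refine ⟨fun h0 => ?_, ?_, ?_⟩
    · have := hσN x
      rw [h0, map_zero] at this
      exact mul_ne_zero hx hσx this.symm
    · rw [hσN]
      exact hC2 _ _ hx hσx hCx (hC3 σ x hCx)
    · rw [Algebra.norm_norm (R := K) (S := L) (a := x), ← Algebra.norm_norm (R := K) (S := M) (a := x),
        hc, map_mul]
      exact ⟨_, rfl⟩
  -- choose an element with given norm
  let P : L → Ω → Prop := fun r x => x ≠ 0 ∧ C x ∧ IsSquare (Algebra.norm M x) ∧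
    IsSquare (Algebra.norm L x * r)
  let g : L → Ω := fun r => if h : ∃ x, P r x then h.choose else 0
  have hg : ∀ r, (∃ x, P r x) → P r (g r) := by
    intro r hr
    simp only [g, dif_pos hr]
    exact hr.choose_spec
  refine ⟨(R ×ˢ R).image fun p => g p.1 * algebraMap L Ω p.2, ?_, ?_⟩
  · refine Finset.card_image_le.trans ?_
    rw [Finset.card_product, sq]
    exact Nat.mul_le_mul hR hR
  · intro x hx hCx hNx
    obtain ⟨n0, n1, n2⟩ := hnorm x hx hCx hNx
    obtain ⟨r, hr, hs⟩ := hc _ n0 n1 n2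
    obtain ⟨g0, g1, g2, g3⟩ := hg r ⟨x, hx, hCx, hNx, hs⟩
    have hu0 : x * g r ≠ 0 := mul_ne_zero hx g0
    have hr0 := (hRr r hr).1
    have hLu : IsSquare (Algebra.norm L (x * g r)) := by
      obtain ⟨s, hs⟩ := hs
      obtain ⟨t, ht⟩ := g3
      refine ⟨s * t / r, ?_⟩
      rw [map_mul]
      field_simp
      linear_combination (Algebra.norm L (g r) * r) * hs + s * s * ht
    have hMu : IsSquare (Algebra.norm M (x * g r)) := by
      rw [map_mul]
      exact hNx.mul g2
    obtain ⟨w, hw0, hwN, y, hy0, hwy⟩ := qs_desc K L M Ω h2 hM hL hΩ hu0 hMu hLu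
    have hCw : C (algebraMap L Ω w) := by
      rw [hwy]
      exact hC2 _ _ hu0 (pow_ne_zero 2 hy0) (hC2 _ _ hx g0 hCx g1) (hC1 y hy0)
    obtain ⟨r', hr', t, ht⟩ := hc w hw0 hCw hwN
    refine ⟨g r * algebraMap L Ω r', Finset.mem_image.2 ⟨(r, r'), Finset.mk_mem_product hr hr', rfl⟩,
      mul_ne_zero g0 (by simpa using (hRr r' hr').1), algebraMap L Ω t / y, ?_⟩
    have h5 := congrArg (algebraMap L Ω) ht
    rw [map_mul, map_mul, hwy] at h5
    field_simp
    linear_combination h5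

section fields

variable {K L M Ω : Type} [Field K] [Field L] [Field M] [Field Ω] [Algebra K L] [Algebra K M]
  [Algebra L Ω] [Algebra M Ω] [Algebra K Ω] [IsScalarTower K L Ω] [IsScalarTower K M Ω]

/-- the quadratic step in a tower -/
theorem step_cov {K₁ : Type} [Field K₁] [Algebra K K₁] [Algebra K₁ M] [Algebra K₁ Ω]
    [IsScalarTower K K₁ M] [IsScalarTower K₁ M Ω] [IsScalarTower K K₁ Ω] [Normal L Ω]
    [FiniteDimensional K Ω] (h2 : (2 : K) ≠ 0) (hK : finrank K K₁ = 2) (hL : finrank K L = 3)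
    (C : Ω → Prop) (hC1 : ∀ x : Ω, x ≠ 0 → C (x ^ 2))
    (hC2 : ∀ x y : Ω, x ≠ 0 → y ≠ 0 → C x → C y → C (x * y))
    (hC3 : ∀ (σ : Ω ≃ₐ[L] Ω) (x : Ω), C x → C (σ x)) {N : ℕ}
    (hC4 : Cov K L (fun x => C (algebraMap L Ω x)) N) :
    ∃ (L₁ : IntermediateField K Ω) (i : Algebra K₁ L₁) (_ : IsScalarTower K₁ L₁ Ω),
      finrank K₁ L₁ = 3 ∧ (∀ l : L, algebraMap L Ω l ∈ L₁) ∧
      Cov K₁ L₁ (fun x => C (algebraMap L₁ Ω x)) (N ^ 2) := by
  have f1 : FiniteDimensional K K₁ := .of_finrank_pos (by rw [hK]; norm_num)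
  set L₁ : IntermediateField K Ω := im K L Ω ⊔ im K K₁ Ω with hL₁
  have m1 : ∀ l : L, algebraMap L Ω l ∈ L₁ := fun l =>
    (le_sup_left : im K L Ω ≤ L₁) (mem_im l)
  have m2 : ∀ l : K₁, algebraMap K₁ Ω l ∈ L₁ := fun l =>
    (le_sup_right : im K K₁ Ω ≤ L₁) (mem_im l)
  have d1 : 3 ∣ finrank K L₁ := by
    rw [← hL, ← finrank_im (K := K) (L := L) (Ω := Ω)]
    exact IntermediateField.finrank_dvd_of_le_right le_sup_left
  have d2 : 2 ∣ finrank K L₁ := by
    rw [← hK, ← finrank_im (K := K) (L := K₁) (Ω := Ω)]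
    exact IntermediateField.finrank_dvd_of_le_right le_sup_right
  have d3 : finrank K L₁ ≤ 3 * 2 := by
    have h3 := IntermediateField.finrank_sup_le (im K L Ω) (im K K₁ Ω)
    rw [finrank_im, finrank_im, hL, hK] at h3
    exact h3
  have d4 : 0 < finrank K L₁ := finrank_pos
  have d5 : finrank K L₁ = 6 := by omega
  clear_value L₁
  letI i1 : Algebra L L₁ := ((algebraMap L Ω).codRestrict L₁ m1).toAlgebra
  letI i2 : Algebra K₁ L₁ := ((algebraMap K₁ Ω).codRestrict L₁ m2).toAlgebra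
  haveI t1 : IsScalarTower L L₁ Ω := IsScalarTower.of_algebraMap_eq fun _ => rfl
  haveI t2 : IsScalarTower K₁ L₁ Ω := IsScalarTower.of_algebraMap_eq fun _ => rfl
  haveI t3 : IsScalarTower K L L₁ := IsScalarTower.of_algebraMap_eq fun x =>
    Subtype.ext (IsScalarTower.algebraMap_apply K L Ω x)
  haveI t4 : IsScalarTower K K₁ L₁ := IsScalarTower.of_algebraMap_eq fun x =>
    Subtype.ext (IsScalarTower.algebraMap_apply K K₁ Ω x)
  have d6 : finrank K₁ L₁ = 3 := by
    have h3 := finrank_mul_finrank K K₁ L₁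
    rw [hK, d5] at h3
    omega
  refine ⟨L₁, i2, t2, d6, m1, ?_⟩
  refine qs_cov K L K₁ L₁ h2 hK hL d6 (fun x => C (algebraMap L₁ Ω x)) ?_ ?_ ?_ ?_
  · intro x hx
    have := hC1 (algebraMap L₁ Ω x) (by simpa using hx)
    rw [← map_pow] at this
    exact this
  · intro x y hx hy h3 h4
    have := hC2 (algebraMap L₁ Ω x) (algebraMap L₁ Ω y) (by simpa using hx) (by simpa using hy)
      h3 h4
    rw [← map_mul] at this
    exact this
  · intro σ x h3
    have h4 := hC3 (σ.liftNormal Ω) _ h3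
    rw [AlgEquiv.liftNormal_commutes] at h4
    exact h4
  · obtain ⟨R, hR, hc⟩ := hC4
    refine ⟨R, hR, fun x hx h3 h4 => hc x hx ?_ h4⟩
    have h5 : C (algebraMap L₁ Ω (algebraMap L L₁ x)) := h3
    rw [← IsScalarTower.algebraMap_apply L L₁ Ω] at h5
    exact h5

end fields

/-- **Descent with counting along a Galois 2-extension.** -/
theorem tow_cov : ∀ (n : ℕ) (K L M Ω : Type) [Field K] [Field L] [Field M] [Field Ω]
    [Algebra K L] [Algebra K M] [Algebra L Ω] [Algebra M Ω] [Algebra K Ω] [IsScalarTower K L Ω]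
    [IsScalarTower K M Ω] [IsGalois K M], (2 : K) ≠ 0 → Module.finrank K M = 2 ^ n →
    Module.finrank K L = 3 → Module.finrank M Ω = 3 →
    ∀ C : Ω → Prop, (∀ x : Ω, x ≠ 0 → C (x ^ 2)) →
    (∀ x y : Ω, x ≠ 0 → y ≠ 0 → C x → C y → C (x * y)) →
    (∀ (σ : Ω ≃ₐ[L] Ω) (x : Ω), C x → C (σ x)) → ∀ N : ℕ,
    Cov K L (fun x => C (algebraMap L Ω x)) N → Cov M Ω C (N ^ (2 ^ n)) := by
  intro n
  induction n with
  | zero =>
    intro K L M Ω _ _ _ _ _ _ _ _ _ _ _ _ h2 hM hL hΩ C hC1 hC2 hC3 N hC4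
    have f1 : FiniteDimensional K M := .of_finrank_pos (by rw [hM]; positivity)
    have f2 : FiniteDimensional M Ω := .of_finrank_pos (by rw [hΩ]; norm_num)
    have f3 : FiniteDimensional K Ω := FiniteDimensional.trans K M Ω
    have f4 : FiniteDimensional K L := .of_finrank_pos (by rw [hL]; norm_num)
    have f5 : FiniteDimensional L Ω := FiniteDimensional.right K L Ω
    have h1 : finrank K Ω = 3 := by
      rw [← finrank_mul_finrank K M Ω, hM, hΩ]
      norm_num
    have h3 : finrank L Ω = 1 := by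
      have h4 := finrank_mul_finrank K L Ω
      rw [hL, h1] at h4
      omega
    have h5 : Function.Surjective (algebraMap L Ω) := by
      intro z
      have h6 : z ∈ (⊥ : Subalgebra L Ω) := by
        rw [Subalgebra.bot_eq_top_of_finrank_eq_one h3]
        exact Algebra.mem_top
      exact Algebra.mem_bot.1 h6
    obtain ⟨R, hR, hc⟩ := hC4
    refine ⟨R.image (algebraMap L Ω), ?_, ?_⟩
    · rw [pow_zero, pow_one]
      exact Finset.card_image_le.trans hR
    intro x hx hCx hn
    obtain ⟨y, rfl⟩ := h5 x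
    have hy : y ≠ 0 := fun h0 => hx (by rw [h0, map_zero])
    have h6 : IsSquare (Algebra.norm K y) := by
      have h7 : Algebra.norm K (algebraMap L Ω y) = Algebra.norm K y := by
        rw [← Algebra.norm_norm (S := L), Algebra.norm_algebraMap, h3, pow_one]
      have h8 : Algebra.norm K (Algebra.norm M (algebraMap L Ω y))
          = Algebra.norm K (algebraMap L Ω y) := Algebra.norm_norm
      rw [← h7, ← h8]
      exact hn.map _
    obtain ⟨r, hr, hr0, hs⟩ := hc y hy hCx h6
    refine ⟨algebraMap L Ω r, Finset.mem_image_of_mem _ hr, by simpa using hr0, ?_⟩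
    rw [← map_mul]
    exact hs.map _
  | succ n ih =>
    intro K L M Ω _ _ _ _ _ _ _ _ _ _ _ _ h2 hM hL hΩ C hC1 hC2 hC3 N hC4
    have f1 : FiniteDimensional K M := .of_finrank_pos (by rw [hM]; positivity)
    have f2 : FiniteDimensional M Ω := .of_finrank_pos (by rw [hΩ]; norm_num)
    have f3 : FiniteDimensional K Ω := FiniteDimensional.trans K M Ω
    have f4 : FiniteDimensional K L := .of_finrank_pos (by rw [hL]; norm_num)
    have f5 : FiniteDimensional L Ω := FiniteDimensional.right K L Ω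
    have hcard : Nat.card (M ≃ₐ[K] M) = 2 ^ (n + 1) := by
      rw [IsGalois.card_aut_eq_finrank, hM]
    obtain ⟨H, hH⟩ := Sylow.exists_subgroup_card_pow_prime (G := M ≃ₐ[K] M) 2 (n := n)
      (by rw [hcard]; exact pow_dvd_pow 2 (Nat.le_succ n))
    set K₁ := IntermediateField.fixedField H with hK₁
    have d1 : finrank K₁ M = 2 ^ n := by
      rw [IntermediateField.finrank_fixedField_eq_card, hH]
    clear_value K₁
    have d2 : finrank K K₁ = 2 := by
      have h4 := finrank_mul_finrank K K₁ M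
      rw [hM, d1, pow_succ, mul_comm] at h4
      exact Nat.eq_of_mul_eq_mul_left (by positivity) h4
    have hN : Normal L Ω := normal_of_top (sup_top hM hL hΩ)
    obtain ⟨L₁, i1, t1, d3, m1, hs⟩ := step_cov (K₁ := K₁) (M := M) h2 d2 hL C hC1 hC2 hC3 hC4
    have h2' : (2 : K₁) ≠ 0 := by
      have := (map_ne_zero (algebraMap K K₁)).2 h2
      rwa [map_ofNat] at this
    have h9 := ih K₁ L₁ M Ω h2' d1 d3 hΩ C hC1 hC2 (by
      intro σ x hx
      let τ : Ω ≃ₐ[L] Ω := AlgEquiv.ofRingEquiv (f := σ.toRingEquiv)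
        (fun l => σ.commutes ⟨algebraMap L Ω l, m1 l⟩)
      exact hC3 τ x hx) (N ^ 2) hs
    rwa [← pow_mul, ← pow_succ'] at h9

end Pool.Agent.H30GR
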