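import Pool.Agent.H30GR.Stm
import Pool.Agent.H30GR.Qs
import Pool.Agent.H30EV.Fin

/-!
# The relaxed 2-Selmer group over `ℚ`: the bound by the zeros of the cubic polynomial
-/

set_option autoImplicit false
set_option linter.all false

open Polynomial IsDedekindDomain NumberField Module
open scoped Classical IntermediateField

namespace Pool.Agent.H30GR

open Pool.Agent.N922.PQ
open Pool.Agent.H30EV
open Pool.Agent.N874.PP (Tup chA chB gq tau Two Ev Sq1 U0)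
open Pool.Agent.N667.PQ (parity exists_theta ov_iff crd_iff isInt)
open Pool.Agent.N862.PP (cn)

theorem ev_mul_iff {L O : Type} [Field L] [CommRing O] [IsDedekindDomain O] [Algebra O L]
    [IsFractionRing O L] (𝔓 : HeightOneSpectrum O) {x y : L} (hx : x ≠ 0) (hy : y ≠ 0)
    (h : Ev 𝔓 x ↔ Ev 𝔓 y) : Ev 𝔓 (x * y) := by
  by_cases h1 : Ev 𝔓 x
  · exact ev_mul h1 (h.1 h1)
  · have h2 : ¬ Ev 𝔓 y := fun h3 => h1 (h.2 h3)
    -- both valuations are odd
    have key : ∀ z : L, z ≠ 0 → ¬ Ev 𝔓 z → ∃ k : ℤ, 𝔓.valuation L z =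
        WithZero.exp (2 * k + 1) := by
      intro z hz hn
      have hz' : 𝔓.valuation L z ≠ 0 := (Valuation.ne_zero_iff _).2 hz
      rcases Int.even_or_odd (WithZero.log (𝔓.valuation L z)) with ⟨k, hk⟩ | ⟨k, hk⟩
      · exfalso
        apply hn
        obtain ⟨u, hu⟩ := 𝔓.valuation_surjective (K := L) (WithZero.exp k)
        refine ⟨u, ?_⟩
        rw [hu, ← WithZero.exp_log hz', hk, ← WithZero.exp_nsmul]
        congr 1
        simp
        ring
      · exact ⟨k, by rw [← WithZero.exp_log hz', hk]⟩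
    obtain ⟨k, hk⟩ := key x hx h1
    obtain ⟨m, hm⟩ := key y hy h2
    obtain ⟨u, hu⟩ := 𝔓.valuation_surjective (K := L) (WithZero.exp (k + m + 1))
    refine ⟨u, ?_⟩
    rw [hu, map_mul, hk, hm, ← WithZero.exp_add, ← WithZero.exp_nsmul]
    congr 1
    simp
    ring

section prime

variable {L : Type} [Field L] [NumberField L] {a b : ℤ} {θ : L}

/-- The primes over `p`: all but one of them, at most `log₂ (1 + r)`, `r` the number of the zeros. -/
theorem prime_data (hI : S_INT) (h : IsCub a b θ) (hsq : Squarefree (dsc a b)) {p : ℕ}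
    (hp : p.Prime) : ∃ D : Finset (HeightOneSpectrum (𝓞 L)), 2 ^ D.card ≤ 1 + nz a b p ∧
      ∀ x : L, x ≠ 0 → IsSquare (Algebra.norm ℚ x) → (∀ 𝔓 ∈ D, Ev 𝔓 x) →
        ∀ 𝔓 : HeightOneSpectrum (𝓞 L), Ov (p : ℤ) 𝔓 → Ev 𝔓 x := by
  have hpZ : Prime (p : ℤ) := Nat.prime_iff_prime_int.1 hp
  haveI : Fact p.Prime := ⟨hp⟩
  have hFD : FiniteDimensional ℚ L := inferInstance
  obtain ⟨I, hIdef⟩ : ∃ I : Ideal ℤ, I = Ideal.span {(p : ℤ)} := ⟨_, rfl⟩
  have hImax : I.IsMaximal := by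
    rw [hIdef]
    exact PrincipalIdealRing.isMaximal_of_irreducible hpZ.irreducible
  have hI0 : I ≠ ⊥ := by
    rw [hIdef, Ne, Ideal.span_singleton_eq_bot]
    exact hpZ.ne_zero
  obtain ⟨t, ht, htr⟩ := exists_theta (O := 𝓞 L) h
  have hsum := Ideal.sum_ramification_inertia (𝓞 L) ℚ L hI0
  rw [h.rank] at hsum
  obtain ⟨F, hF⟩ : ∃ F, F = IsDedekindDomain.primesOverFinset I (𝓞 L) := ⟨_, rfl⟩
  rw [← hF] at hsum
  have hmem : ∀ Q ∈ F, Q.IsPrime ∧ Q.LiesOver I := fun Q hQ =>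
    (IsDedekindDomain.mem_primesOverFinset_iff hI0 _).mp (by rw [← hF]; exact hQ)
  have he1 : ∀ Q ∈ F, 1 ≤ I.ramificationIdx' Q := fun Q hQ => by
    haveI := (hmem Q hQ).1
    haveI := (hmem Q hQ).2
    exact Nat.pos_iff_ne_zero.mpr (Ideal.IsDedekindDomain.ramificationIdx'_ne_zero_of_liesOver _ hI0)
  have hf1 : ∀ Q ∈ F, 1 ≤ I.inertiaDeg' Q := fun Q hQ => by
    haveI := (hmem Q hQ).1
    haveI := (hmem Q hQ).2
    exact Nat.pos_iff_ne_zero.mpr (Ideal.inertiaDeg'_ne_zero I Q)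
  have hne : ∀ Q ∈ F, Q ≠ ⊥ := fun Q hQ => by
    haveI := (hmem Q hQ).2
    exact Ideal.ne_bot_of_liesOver_of_ne_bot hI0 Q
  have hovI : ∀ Q ∈ F, algebraMap ℤ (𝓞 L) (p : ℤ) ∈ Q := fun Q hQ => by
    have h1 := (hmem Q hQ).2.over
    have h2 : (p : ℤ) ∈ Q.under ℤ := by
      rw [← h1, hIdef]
      exact Ideal.mem_span_singleton_self _
    exact h2
  -- a prime of odd degree
  obtain ⟨Q0, hQ0, hodd⟩ : ∃ Q ∈ F, Odd (I.inertiaDeg' Q) := by
    by_contra hcon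
    push Not at hcon
    have h1 : Even (∑ Q ∈ F, I.ramificationIdx' Q * I.inertiaDeg' Q) :=
      Finset.even_sum _ fun Q hQ => (Nat.not_odd_iff_even.1 (hcon Q hQ)).mul_left _
    rw [hsum] at h1
    revert h1
    decide
  -- the number of the primes of degree one
  let F1 := F.filter fun Q => I.inertiaDeg' Q = 1
  have hcount : 2 * F.card ≤ 3 + F1.card := by
    have h1 : ∑ Q ∈ F, (2 - (if I.inertiaDeg' Q = 1 then 1 else 0)) ≤ 3 := by
      rw [← hsum]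
      refine Finset.sum_le_sum fun Q hQ => ?_
      have h2 := he1 Q hQ
      have h3 := hf1 Q hQ
      have h4 : I.inertiaDeg' Q ≤ I.ramificationIdx' Q * I.inertiaDeg' Q :=
        Nat.le_mul_of_pos_left _ h2
      split_ifs with h5 <;> omega
    have h2 : ∑ Q ∈ F, (2 - (if I.inertiaDeg' Q = 1 then 1 else 0)) +
        ∑ Q ∈ F, (if I.inertiaDeg' Q = 1 then 1 else 0) = 2 * F.card := by
      rw [← Finset.sum_add_distrib, Finset.card_eq_sum_ones, Finset.mul_sum]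
      refine Finset.sum_congr rfl fun Q _ => ?_
      split_ifs <;> rfl
    have h3 : ∑ Q ∈ F, (if I.inertiaDeg' Q = 1 then 1 else 0) = F1.card := by
      rw [Finset.card_filter]
    omega
  have hroot : ∀ Q ∈ F1, ∃ c : ℤ, t - algebraMap ℤ (𝓞 L) c ∈ Q := by
    intro Q hQ
    obtain ⟨hQF, hQ1⟩ := Finset.mem_filter.1 hQ
    have hQp := (hmem Q hQF).1
    haveI := (hmem Q hQF).2
    haveI : Q.LiesOver (Ideal.span {(p : ℤ)}) := by rw [← hIdef]; infer_instance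
    have hN := Ideal.absNorm_eq_pow_inertiaDeg' Q hp
    rw [← hIdef, hQ1, pow_one] at hN
    have hcard : Nat.card (𝓞 L ⧸ Q) = p := hN
    haveI : Finite (𝓞 L ⧸ Q) := Nat.finite_of_card_ne_zero (by rw [hcard]; exact hp.ne_zero)
    let w : HeightOneSpectrum (𝓞 L) := ⟨Q, hQp, hne Q hQF⟩
    have hov : Ov (p : ℤ) w := by
      have := hovI Q hQF
      exact this
    have hle : I ≤ Q.comap (algebraMap ℤ (𝓞 L)) := by
      rw [hIdef, Ideal.span_singleton_le_iff_mem]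
      exact hovI Q hQF
    let ι : (ℤ ⧸ I) →+* (𝓞 L ⧸ Q) := Ideal.quotientMap Q (algebraMap ℤ (𝓞 L)) hle
    have hinj : Function.Injective ι := by
      refine Ideal.quotientMap_injective' ?_
      intro x hx
      rw [Ideal.mem_comap] at hx
      have h1 : algebraMap ℤ (𝓞 L) x ∈ w.asIdeal := hx
      rw [ov_iff hpZ hov] at h1
      rw [hIdef, Ideal.mem_span_singleton]
      exact h1
    have hcI : Nat.card (ℤ ⧸ I) = p := by
      rw [hIdef, Nat.card_congr (Int.quotientSpanEquivZMod (p : ℤ)).toEquiv, Nat.card_zmod,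
        Int.natAbs_natCast]
    haveI : Finite (ℤ ⧸ I) := Nat.finite_of_card_ne_zero (by rw [hcI]; exact hp.ne_zero)
    have hbij : Function.Bijective ι :=
      (Nat.bijective_iff_injective_and_card ι).2 ⟨hinj, by rw [hcard, hcI]⟩
    obtain ⟨y, hy⟩ := hbij.2 (Ideal.Quotient.mk Q t)
    obtain ⟨c, rfl⟩ := Ideal.Quotient.mk_surjective y
    refine ⟨c, ?_⟩
    rw [← Ideal.Quotient.eq]
    rw [← hy]
    rfl
  have hF1 : F1.card ≤ nz a b p := by
    choose! c hc using hroot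
    have hz : ∀ Q ∈ F1, ((c Q : ZMod p)) ^ 3 + (a : ZMod p) * (c Q : ZMod p) + (b : ZMod p) = 0 := by
      intro Q hQ
      obtain ⟨hQF, hQ1⟩ := Finset.mem_filter.1 hQ
      let w : HeightOneSpectrum (𝓞 L) := ⟨Q, (hmem Q hQF).1, hne Q hQF⟩
      have hov : Ov (p : ℤ) w := by
        have := hovI Q hQF
        exact this
      have h1 : algebraMap ℤ (𝓞 L) ((c Q) ^ 3 + a * (c Q) + b) ∈ w.asIdeal := by
        have e : algebraMap ℤ (𝓞 L) ((c Q) ^ 3 + a * (c Q) + b) =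
            -((t - algebraMap ℤ (𝓞 L) (c Q)) * (t ^ 2 + t * algebraMap ℤ (𝓞 L) (c Q) +
              algebraMap ℤ (𝓞 L) (c Q) ^ 2 + algebraMap ℤ (𝓞 L) a)) := by
          rw [map_add, map_add, map_mul, map_pow]
          linear_combination htr
        rw [e]
        exact neg_mem (w.asIdeal.mul_mem_right _ (hc Q hQ))
      rw [ov_iff hpZ hov] at h1
      have h2 := (ZMod.intCast_zmod_eq_zero_iff_dvd _ p).2 h1
      push_cast at h2
      exact h2
    let g : F1 → {x : ZMod p // x ^ 3 + (a : ZMod p) * x + (b : ZMod p) = 0} :=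
      fun Q => ⟨(c Q.1 : ZMod p), hz Q.1 Q.2⟩
    have hg : Function.Injective g := by
      rintro ⟨Q, hQ⟩ ⟨Q', hQ'⟩ hQQ
      have h1 : ((c Q : ℤ) : ZMod p) = (c Q' : ZMod p) := congrArg Subtype.val hQQ
      have h2 : (p : ℤ) ∣ c Q' - c Q := by
        rw [← ZMod.intCast_zmod_eq_zero_iff_dvd]
        push_cast
        rw [h1, sub_self]
      have key : ∀ Q'' ∈ F1, ∀ d : ℤ, (p : ℤ) ∣ d - c Q'' → ∀ x : 𝓞 L, ∀ v : Fin 3 → ℤ,
          Crd θ v (algebraMap (𝓞 L) L x) →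
          (x ∈ Q'' ↔ (p : ℤ) ∣ v 0 + v 1 * d + v 2 * d ^ 2) := by
        intro Q'' hQ'' d hd x v hv
        obtain ⟨hQF, hQ1⟩ := Finset.mem_filter.1 hQ''
        let w : HeightOneSpectrum (𝓞 L) := ⟨Q'', (hmem Q'' hQF).1, hne Q'' hQF⟩
        have hov : Ov (p : ℤ) w := by
          have := hovI Q'' hQF
          exact this
        rw [← ov_iff hpZ hov]
        have hd' : t - algebraMap ℤ (𝓞 L) d ∈ Q'' := by
          obtain ⟨e, he⟩ := hd
          have e1 : t - algebraMap ℤ (𝓞 L) d = (t - algebraMap ℤ (𝓞 L) (c Q'')) -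
              algebraMap ℤ (𝓞 L) (p : ℤ) * algebraMap ℤ (𝓞 L) e := by
            have e2 : d = c Q'' + (p : ℤ) * e := by linear_combination he
            rw [e2, map_add, map_mul]
            ring
          rw [e1]
          exact sub_mem (hc Q'' hQ'') (Q''.mul_mem_right _ (hovI Q'' hQF))
        have e1 : x = algebraMap ℤ (𝓞 L) (v 0 + v 1 * d + v 2 * d ^ 2) +
            (t - algebraMap ℤ (𝓞 L) d) * (algebraMap ℤ (𝓞 L) (v 1) +
              algebraMap ℤ (𝓞 L) (v 2) * (t + algebraMap ℤ (𝓞 L) d)) := by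
          apply IsFractionRing.injective (𝓞 L) L
          rw [crd_iff] at hv
          simp only [map_add, map_mul, map_pow, map_sub, ht, hv,
            ← IsScalarTower.algebraMap_apply ℤ (𝓞 L) L]
          ring
        have hm : (t - algebraMap ℤ (𝓞 L) d) * (algebraMap ℤ (𝓞 L) (v 1) +
              algebraMap ℤ (𝓞 L) (v 2) * (t + algebraMap ℤ (𝓞 L) d)) ∈ Q'' :=
          Q''.mul_mem_right _ hd'
        constructor
        · intro hx
          have h3 := sub_mem hx hm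
          have e3 : x - (t - algebraMap ℤ (𝓞 L) d) * (algebraMap ℤ (𝓞 L) (v 1) +
              algebraMap ℤ (𝓞 L) (v 2) * (t + algebraMap ℤ (𝓞 L) d)) =
              algebraMap ℤ (𝓞 L) (v 0 + v 1 * d + v 2 * d ^ 2) := by
            linear_combination e1
          rw [e3] at h3
          exact h3
        · intro hx
          rw [e1]
          exact add_mem hx hm
      apply Subtype.ext
      show Q = Q'
      ext x
      obtain ⟨v, hv⟩ := (hI L a b θ h hsq _).mp (isInt (L := L) x)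
      rw [key Q hQ (c Q') h2 x v hv, key Q' hQ' (c Q') (by simp) x v hv]
    have h1 := Nat.card_le_card_of_injective g hg
    have h2 : Nat.card F1 = F1.card := by
      rw [Nat.card_eq_fintype_card, Fintype.card_coe]
    rw [h2] at h1
    exact h1
  -- the set `D`
  haveI hQ0p := (hmem Q0 hQ0).1
  haveI hQ0l := (hmem Q0 hQ0).2
  let w0 : HeightOneSpectrum (𝓞 L) := ⟨Q0, hQ0p, hne Q0 hQ0⟩
  have hov0 : Ov (p : ℤ) w0 := hovI Q0 hQ0
  let D : Finset (HeightOneSpectrum (𝓞 L)) := (F.erase Q0).attach.image fun Q =>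
    ⟨Q.1, (hmem Q.1 (Finset.mem_of_mem_erase Q.2)).1, hne Q.1 (Finset.mem_of_mem_erase Q.2)⟩
  have hDcard : D.card ≤ F.card - 1 := by
    refine Finset.card_image_le.trans ?_
    rw [Finset.card_attach, Finset.card_erase_of_mem hQ0]
  refine ⟨D, ?_, fun x hx hN hD 𝔓 h𝔓 => ?_⟩
  · have h1 : 0 < F.card := Finset.card_pos.2 ⟨Q0, hQ0⟩
    have h2 : F1.card ≤ F.card := Finset.card_filter_le _ _
    have h3 : D.card ≤ 2 := by omega
    have h4 : D.card = 2 → 3 ≤ nz a b p := by intro h5; omega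
    have h5 : D.card = 1 → 1 ≤ nz a b p := by intro h5; omega
    interval_cases h6 : D.card
    · simp
    · have := h5 rfl
      omega
    · have := h4 rfl
      omega
  · have hcn : Odd (cn ℤ (Ideal.span {(p : ℤ)}) w0.asIdeal) := by
      have hw : w0.asIdeal = Q0 := rfl
      haveI : w0.asIdeal.IsMaximal := w0.isMaximal
      haveI : w0.asIdeal.LiesOver I := hQ0l
      unfold cn
      rw [Ideal.relNorm_eq_pow_of_isMaximal w0.asIdeal I, ← Ideal.inertiaDeg'_eq_inertiaDeg I, hw,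
        ← hIdef]
      have hirr : Irreducible I :=
        (Ideal.prime_of_isPrime hI0 hImax.isPrime).irreducible
      rw [UniqueFactorizationMonoid.normalizedFactors_pow, Multiset.count_nsmul,
        UniqueFactorizationMonoid.normalizedFactors_irreducible hirr, normalize_eq,
        Multiset.count_singleton_self]
      simpa using hodd
    have hall : ∀ 𝔓 : HeightOneSpectrum (𝓞 L), Ov (p : ℤ) 𝔓 → 𝔓 ≠ w0 → Ev 𝔓 x := by
      intro 𝔓 h𝔓 hne0
      apply hD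
      have hmF : 𝔓.asIdeal ∈ F := by
        rw [hF, IsDedekindDomain.mem_primesOverFinset_iff hI0]
        refine ⟨𝔓.isPrime, ?_⟩
        have := liesOver_of (M := L) (isPr_nat hp) h𝔓
        rw [hIdef]
        exact this
      have hmE : 𝔓.asIdeal ∈ F.erase Q0 :=
        Finset.mem_erase.2 ⟨fun h0 => hne0 (HeightOneSpectrum.ext h0), hmF⟩
      exact Finset.mem_image.2 ⟨⟨𝔓.asIdeal, hmE⟩, Finset.mem_attach _ _, HeightOneSpectrum.ext rfl⟩
    by_cases h0 : 𝔓 = w0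
    · rw [h0]
      exact parity h hpZ w0 hov0 hcn hx hN fun 𝔓' h1 h2 => Or.inl (hall 𝔓' h1 h2)
    · exact hall 𝔓 h𝔓 h0

end prime

/-- The integers in a finite set of natural numbers. -/
def zs (R : Finset ℕ) : Set ℤ := {P | ∃ l ∈ R, P = (l : ℤ)}

section base

variable {L : Type} [Field L] [NumberField L] {a b : ℤ} {θ : L} {X : ℕ} {S T J : Finset ℤ}
  {s A B : ℤ → ℤ}

/-- The conditions at the base. -/
def C0 (a b : ℤ) (J : Finset ℤ) (R : Finset ℕ) (θ x : L) : Prop :=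
  Cs (𝓞 L) J (irr a b ∪ zs R) θ x ∧ Loc2 a b θ x

/-- The triviality of the Selmer group at the base. -/
def HSel (a b : ℤ) (J : Finset ℤ) (θ : L) : Prop :=
  ∀ α : L, α ≠ 0 → IsSquare (Algebra.norm ℚ α) → Loc2 a b θ α →
      (∀ 𝔓 : HeightOneSpectrum (𝓞 L), (∀ Q ∈ J, ¬ Ov Q 𝔓) → Ev 𝔓 α) →
      (∀ Q ∈ J, ∀ 𝔓 : HeightOneSpectrum (𝓞 L), Ov Q 𝔓 → 𝔓.valuation L θ = 1 →
        U0 𝔓 ((Q : L) * θ) α) →
      (∀ Q ∈ J, ∀ 𝔓 : HeightOneSpectrum (𝓞 L), Ov Q 𝔓 → 𝔓.valuation L θ < 1 → Ev 𝔓 α) →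
      IsSquare α

/-- Products. -/
theorem c0_mul (H : Parts2) (hc : IsCub a b θ) (hS : GoodS S s) (hT : GoodT T A B)
    (hF : Fam X S s T A B a b) (hJ : J ⊆ S) {R : Finset ℕ} {x y : L} (hx : x ≠ 0) (hy : y ≠ 0)
    (h : C0 a b J R θ x) (h' : C0 a b J R θ y) : C0 a b J R θ (x * y) := by
  refine ⟨cs_mul H.p.cls (fun Q hQ => ⟨(hS Q (hJ hQ)).1.2,
    not_dvd_two (hS Q (hJ hQ)).2.1 (hS Q (hJ hQ)).1.1 (hS Q (hJ hQ)).1.2⟩)
    (fun Q hQ 𝔓 h1 h2 => ?_) hx hy h.1 h'.1, loc2_mul H.p.plm hc (fam_nt hT hF hT.1) h.2 h'.2⟩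
  obtain ⟨𝔓₁, 𝔮, h3, h4, h5, h7, h8, h9⟩ := H.p.exq L (𝓞 L) a b θ hc hF.sq Q (hS Q (hJ hQ)).1.2
    (hF.rb Q (hJ hQ)) (fam_ns hS hF (hJ hQ))
  rcases h9 𝔓 h1 with h | h
  · rw [h] at h2
    exact absurd h2 h5.ne
  · rw [h]
    exact h8

/-- An element with the relaxed conditions and even valuations over `R` is a square. -/
theorem c0_sq (H : Parts2) (hc : IsCub a b θ) (hF : Fam X S s T A B a b)
    (hsel : HSel a b J θ) {R : Finset ℕ} {x : L} (hx : x ≠ 0)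
    (hN : IsSquare (Algebra.norm ℚ x)) (h : C0 a b J R θ x)
    (hev : ∀ l ∈ R, ∀ 𝔓 : HeightOneSpectrum (𝓞 L), Ov (l : ℤ) 𝔓 → Ev 𝔓 x) : IsSquare x := by
  refine hsel x hx hN h.2 (fun 𝔓 h𝔓 => ?_) h.1.u0 h.1.eq
  by_cases h1 : ∃ P ∈ irr a b, Ov P 𝔓
  · obtain ⟨P, hP, hPv⟩ := h1
    exact H.p.p3 L (𝓞 L) a b θ hc hF.sq P hP.1.2 hP.2 x hx hN 𝔓 hPv
  by_cases h2 : ∃ l ∈ R, Ov (l : ℤ) 𝔓
  · obtain ⟨l, hl, hlv⟩ := h2
    exact hev l hl 𝔓 hlv
  refine h.1.ev 𝔓 (fun P hP hPv => ?_) h𝔓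
  rcases hP with hP | ⟨l, hl, rfl⟩
  · exact h1 ⟨P, hP, hPv⟩
  · exact h2 ⟨l, hl, hPv⟩

/-- The relaxed Selmer group at the base. -/
theorem base_cov (H : Parts2) (hI : S_INT) (hc : IsCub a b θ) (hS : GoodS S s)
    (hT : GoodT T A B) (hF : Fam X S s T A B a b) (hJ : J ⊆ S) (hsel : HSel a b J θ)
    {R : Finset ℕ} (hR : ∀ l ∈ R, l.Prime) :
    Cov ℚ L (C0 a b J R θ) (∏ l ∈ R, (1 + nz a b l)) := by
  choose! D hD1 hD2 using fun l (hl : l ∈ R) => prime_data (L := L) hI hc hF.sq (hR l hl)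
  let E := R.biUnion D
  have hE : 2 ^ E.card ≤ ∏ l ∈ R, (1 + nz a b l) := by
    calc 2 ^ E.card ≤ 2 ^ (∑ l ∈ R, (D l).card) :=
          Nat.pow_le_pow_right (by norm_num) Finset.card_biUnion_le
      _ = ∏ l ∈ R, 2 ^ (D l).card := (Finset.prod_pow_eq_pow_sum _ _ _).symm
      _ ≤ ∏ l ∈ R, (1 + nz a b l) := Finset.prod_le_prod' fun l hl => hD1 l hl
  let P : Finset (HeightOneSpectrum (𝓞 L)) → L → Prop := fun t x =>
    x ≠ 0 ∧ C0 a b J R θ x ∧ IsSquare (Algebra.norm ℚ x) ∧ (E.filter fun 𝔓 => ¬ Ev 𝔓 x) = t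
  let g : Finset (HeightOneSpectrum (𝓞 L)) → L := fun t =>
    if h : ∃ x, P t x then h.choose else 0
  refine ⟨E.powerset.image g, ?_, fun x hx hCx hN => ?_⟩
  · refine (Finset.card_image_le.trans ?_).trans hE
    rw [Finset.card_powerset]
  · obtain ⟨t, ht⟩ : ∃ t, t = E.filter fun 𝔓 => ¬ Ev 𝔓 x := ⟨_, rfl⟩
    have hex : ∃ x, P t x := ⟨x, hx, hCx, hN, ht.symm⟩
    have hg : P t (g t) := by
      simp only [g, dif_pos hex]
      exact hex.choose_spec
    obtain ⟨g0, g1, g2, g3⟩ := hg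
    refine ⟨g t, Finset.mem_image_of_mem _ (Finset.mem_powerset.2 ?_), g0, ?_⟩
    · rw [ht]
      exact Finset.filter_subset _ _
    have hNxy : IsSquare (Algebra.norm ℚ (x * g t)) := by
      rw [map_mul]
      exact hN.mul g2
    refine c0_sq H hc hF hsel (mul_ne_zero hx g0) hNxy
      (c0_mul H hc hS hT hF hJ hx g0 hCx g1) fun l hl 𝔓 h𝔓 => ?_
    refine hD2 l hl (x * g t) (mul_ne_zero hx g0) hNxy (fun 𝔓' h𝔓' => ?_) 𝔓 h𝔓
    refine ev_mul_iff 𝔓' hx g0 ?_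
    have hmE : 𝔓' ∈ E := Finset.mem_biUnion.2 ⟨l, hl, h𝔓'⟩
    have h1 : (𝔓' ∈ E.filter fun 𝔓 => ¬ Ev 𝔓 x) ↔ (𝔓' ∈ E.filter fun 𝔓 => ¬ Ev 𝔓 (g t)) := by
      rw [g3, ht]
    rw [Finset.mem_filter, Finset.mem_filter] at h1
    tauto

end base

end Pool.Agent.H30GR
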