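import Pool.Agent.H30EV.Defs

/-!
# Definitions: the 2-Selmer group and the Tate-Shafarevich group, admissible fields and twists

The notions which are defined in `Pool.Agent.H30EV.Defs` (curves, height, ramified and split primes,
cocycles) are used.
-/

set_option autoImplicit false
set_option linter.all false

open NumberField IsDedekindDomain

namespace Pool.Agent.H30GR

open Pool.Agent.H30EV

/-! ### The groups -/

section points

variable {F : Type} [Field F] (W : WeierstrassCurve F)

theorem mapPts_add {L L' : Type} [Field L] [Algebra F L] [Field L'] [Algebra F L']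
    (φ : L →ₐ[F] L') (P Q : Pts W L) : mapPts W φ (P + Q) = mapPts W φ P + mapPts W φ Q := by
  classical
  exact map_add (WeierstrassCurve.Affine.Point.map (W' := W.toAffine) φ) P Q

theorem mapPts_zero {L L' : Type} [Field L] [Algebra F L] [Field L'] [Algebra F L']
    (φ : L →ₐ[F] L') : mapPts W φ (0 : Pts W L) = 0 := by
  classical
  exact map_zero (WeierstrassCurve.Affine.Point.map (W' := W.toAffine) φ)

theorem mapPts_neg {L L' : Type} [Field L] [Algebra F L] [Field L'] [Algebra F L']
    (φ : L →ₐ[F] L') (P : Pts W L) : mapPts W φ (-P) = -mapPts W φ P := by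
  classical
  exact map_neg (WeierstrassCurve.Affine.Point.map (W' := W.toAffine) φ) P

/-- The coboundary `Q ↦ (σ ↦ σ Q - Q)`. -/
noncomputable def cobHom : Pts W (SeparableClosure F) →+ Coch W where
  toFun Q := cob Q
  map_zero' := by
    funext σ
    show mapPts W σ.toAlgHom 0 - 0 = 0
    rw [mapPts_zero, sub_zero]
  map_add' P Q := by
    funext σ
    show mapPts W σ.toAlgHom (P + Q) - (P + Q) = (mapPts W σ.toAlgHom P - P) +
      (mapPts W σ.toAlgHom Q - Q)
    rw [mapPts_add]
    abel

variable {W}

theorem loc_add {L : Type} [Field L] [Algebra F L] {f g : Coch W}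
    (hf : LocallyTrivial W L f) (hg : LocallyTrivial W L g) : LocallyTrivial W L (f + g) := by
  intro ι
  obtain ⟨P, hP⟩ := hf ι
  obtain ⟨Q, hQ⟩ := hg ι
  refine ⟨P + Q, fun τ σ h => ?_⟩
  show mapPts W ι (f σ + g σ) = _
  rw [mapPts_add, mapPts_add, hP τ σ h, hQ τ σ h]
  abel

theorem loc_neg {L : Type} [Field L] [Algebra F L] {f : Coch W}
    (hf : LocallyTrivial W L f) : LocallyTrivial W L (-f) := by
  intro ι
  obtain ⟨P, hP⟩ := hf ι
  refine ⟨-P, fun τ σ h => ?_⟩
  show mapPts W ι (-(f σ)) = _
  rw [mapPts_neg, mapPts_neg, hP τ σ h]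
  abel

theorem loc_zero {L : Type} [Field L] [Algebra F L] :
    LocallyTrivial W L (0 : Coch W) := by
  intro ι
  refine ⟨0, fun τ σ h => ?_⟩
  show mapPts W ι 0 = _
  rw [mapPts_zero, mapPts_zero, sub_zero]

end points

section sha

variable {F : Type} [Field F] [NumberField F] (W : WeierstrassCurve F)

/-- The continuous cocycles of the absolute Galois group of `F` with values in `W` whose restrictions
to the absolute Galois groups of all completions of `F` are coboundaries. -/
def shaCocycles : AddSubgroup (Coch W) where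
  carrier := {f | ShaCocycle W f}
  add_mem' {f g} hf hg := by
    refine ⟨hf.continuous.add hg.continuous, fun σ τ => ?_, fun v => loc_add (hf.finite v) (hg.finite v),
      fun ρ => ?_⟩
    · show f (σ * τ) + g (σ * τ) = f σ + g σ + mapPts W σ.toAlgHom (f τ + g τ)
      rw [hf.cocycle, hg.cocycle, mapPts_add]
      abel
    · letI := ρ.toAlgebra
      exact loc_add (hf.real ρ) (hg.real ρ)
  zero_mem' := by
    refine ⟨IsLocallyConstant.const _, fun σ τ => ?_, fun v => loc_zero, fun ρ => ?_⟩
    · show (0 : Pts W (SeparableClosure F)) = 0 + mapPts W σ.toAlgHom 0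
      rw [mapPts_zero, add_zero]
    · letI := ρ.toAlgebra
      exact loc_zero
  neg_mem' {f} hf := by
    refine ⟨hf.continuous.neg, fun σ τ => ?_, fun v => loc_neg (hf.finite v), fun ρ => ?_⟩
    · show -(f (σ * τ)) = -(f σ) + mapPts W σ.toAlgHom (-(f τ))
      rw [hf.cocycle, mapPts_neg]
      abel
    · letI := ρ.toAlgebra
      exact loc_neg (hf.real ρ)

/-- The coboundaries. -/
noncomputable def coboundaries : AddSubgroup (Coch W) := (cobHom W).range

/-- **The Tate-Shafarevich group** `Ш(W/F)`, the kernel of `H¹(F, W) → ∏ H¹(F_v, W)`. -/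
def Sha : Type := shaCocycles W ⧸ (coboundaries W).addSubgroupOf (shaCocycles W)

noncomputable instance : AddCommGroup (Sha W) :=
  (inferInstance : AddCommGroup (shaCocycles W ⧸ (coboundaries W).addSubgroupOf (shaCocycles W)))

/-- The cocycles of the 2-Selmer group: those with values in the points of order two. -/
def selmerCocycles : AddSubgroup (Coch W) where
  carrier := {f | ShaCocycle W f ∧ 2 • f = 0}
  add_mem' {f g} hf hg := ⟨(shaCocycles W).add_mem hf.1 hg.1, by
    rw [nsmul_add, hf.2, hg.2, add_zero]⟩
  zero_mem' := ⟨(shaCocycles W).zero_mem, nsmul_zero 2⟩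
  neg_mem' {f} hf := ⟨(shaCocycles W).neg_mem hf.1, by
    rw [smul_neg, hf.2, neg_zero]⟩

/-- The coboundaries of the points of order two. -/
noncomputable def coboundariesTwo : AddSubgroup (Coch W) :=
  ((nsmulAddMonoidHom 2 : Pts W (SeparableClosure F) →+ Pts W (SeparableClosure F)).ker).map
    (cobHom W)

/-- **The 2-Selmer group** `Sel_2(W/F)`, the kernel of `H¹(F, W[2]) → ∏ H¹(F_v, W)`. -/
def Sel2 : Type := selmerCocycles W ⧸ (coboundariesTwo W).addSubgroupOf (selmerCocycles W)

noncomputable instance : AddCommGroup (Sel2 W) :=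
  (inferInstance : AddCommGroup (selmerCocycles W ⧸
    (coboundariesTwo W).addSubgroupOf (selmerCocycles W)))

end sha

/-! ### Reduction modulo the ramified primes -/

/-- The order of `E(𝔽_p)[2]` for `E : y ^ 2 = x ^ 3 + A x + B`, `q = (A, B)`, and a prime
`p ≠ 2` with `p ∤ 4 A ^ 3 + 27 B ^ 2`: one plus the number of the zeros of `x ^ 3 + A x + B`
modulo `p`. -/
noncomputable def redTwo (q : ℤ × ℤ) (p : ℕ) : ℕ :=
  1 + Nat.card {x : ZMod p // x ^ 3 + (q.1 : ZMod p) * x + (q.2 : ZMod p) = 0}

/-- The set of the prime numbers which are ramified in `K`. -/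
def ramPrimes (K : Type) [Field K] [NumberField K] : Set ℕ := {p | p.Prime ∧ Ramified K p}

/-- The product of the orders of `E(𝔽_p)[2]` over the primes `p` which are ramified in `K`. -/
noncomputable def ramProd (K : Type) [Field K] [NumberField K] (q : ℤ × ℤ) : ℕ :=
  ∏ᶠ p ∈ ramPrimes K, redTwo q p

/-- The field `K` is admissible for the curve `q = (A, B)`: it is a Galois extension of `ℚ` of degree
a power of two; `2` is unramified in `K`; the primes which are ramified in `K` do not divide
`4 A ^ 3 + 27 B ^ 2` (so the curve has good reduction there); and the odd primes which divide `A` and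
`B` split completely in `K`. -/
structure Admissible (K : Type) [Field K] [NumberField K] (q : ℤ × ℤ) : Prop where
  galois : IsGalois ℚ K
  degree : ∃ n : ℕ, Module.finrank ℚ K = 2 ^ n
  two : ¬ Ramified K 2
  good : ∀ p : ℕ, p.Prime → Ramified K p → ¬ (p : ℤ) ∣ 4 * q.1 ^ 3 + 27 * q.2 ^ 2
  split : ∀ p : ℕ, p.Prime → p ≠ 2 → (p : ℤ) ∣ q.1 → (p : ℤ) ∣ q.2 → SplitsCompletely K p

end Pool.Agent.H30GR
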