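import Pool.Agent.R425.G.Ur

/-!
# The zeros of the cubic polynomial modulo a prime number and the places of the cubic field
-/

set_option autoImplicit false
set_option linter.all false

open NumberField IsDedekindDomain WithZero WeierstrassCurve WeierstrassCurve.Affine
open scoped NNReal Classical

namespace Pool.Agent.H30GR

open Pool.Agent
open Pool.Agent.TH115.GD
open Pool.Agent.Y702.G (sh base pts)
open Pool.Agent.R425.G

section glob

variable {W : WeierstrassCurve ℤ} {A : Type} [Field A] [NumberField A] {θ : A}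

/-- The number of the zeros of the cubic polynomial of the short model modulo `l`. -/
noncomputable def nr (W : WeierstrassCurve ℤ) (l : ℕ) : ℕ :=
  Nat.card {x : ZMod l // x ^ 3 + (W.b₂ : ZMod l) * x ^ 2 + 8 * (W.b₄ : ZMod l) * x +
    16 * (W.b₆ : ZMod l) = 0}

/-- the number of the places over a good prime -/
theorem nr_le (h : CF (sh W) A θ) (hW : W.Δ ≠ 0) {l : ℕ} (hl : l.Prime)
    (hlD : ¬ (l : ℤ) ∣ 2 * W.Δ) :
    1 ≤ (Tq A l).ncard ∧ 1 + nr W l ≤ 2 ^ ((Tq A l).ncard - 1) := by
  have htwo := fun n => tq_two h hW hl hlD (n := n)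
  obtain ⟨p, rfl⟩ := exists_ng hl
  obtain ⟨w, hσ, hL, -⟩ := exists_ld p
  haveI := gal_p p
  have hV := iv_sh W hW
  obtain ⟨a, b, c, hC⟩ := Y355.G.V_roots hV.a1 hV.a3 hV.Δ (AlgebraicClosure (p.adicCompletion ℚ))
  obtain ⟨wp1, wp0⟩ := w_alg w hL
  have hot := orb_le_tq h w hC hL (hV.int h.root)
  haveI := rt_finite hC
  haveI : Finite (Orb (sh W) (p.adicCompletion ℚ) (AlgebraicClosure (p.adicCompletion ℚ))) :=
    Quotient.finite _
  haveI : Fintype (Orb (sh W) (p.adicCompletion ℚ) (AlgebraicClosure (p.adicCompletion ℚ))) :=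
    Fintype.ofFinite _
  haveI : Fintype (Rt (sh W) (AlgebraicClosure (p.adicCompletion ℚ))) := Fintype.ofFinite _
  have hone : 1 ≤ (Tq A (ng p)).ncard := by
    refine le_trans ?_ hot
    haveI : Nonempty (Orb (sh W) (p.adicCompletion ℚ) (AlgebraicClosure (p.adicCompletion ℚ))) :=
      ⟨Quotient.mk _ ⟨a, hC.root_a⟩⟩
    exact Nat.card_pos
  refine ⟨hone, ?_⟩
  -- the discriminant is a unit
  have hlZ : Prime ((ng p : ℕ) : ℤ) := Nat.prime_iff_prime_int.1 hl
  have hun : w (256 * (W.Δ : (AlgebraicClosure (p.adicCompletion ℚ)))) = 1 := by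
    have h1 := hL.unit_of (n := 256 * W.Δ) (fun h3 => by
      apply hlD
      have e8 : (256 * W.Δ : ℤ) = 2 ^ 8 * W.Δ := by norm_num
      rw [e8] at h3
      rcases hlZ.dvd_or_dvd h3 with h4 | h4
      · exact (hlZ.dvd_of_dvd_pow h4).mul_right _
      · exact h4.mul_left _)
    rw [Valuation.comap_apply, map_intCast] at h1
    push_cast at h1
    exact h1
  obtain ⟨d12, d13, d23⟩ := w_sub_one w hC hun
  -- the zeros modulo the prime number give fixed roots
  have hroot : ∀ n : ℤ, ((ng p : ℕ) : ℤ) ∣ n ^ 3 + W.b₂ * n ^ 2 + 8 * W.b₄ * n + 16 * W.b₆ →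
      ∃ e : Rt (sh W) (AlgebraicClosure (p.adicCompletion ℚ)),
        w ((n : (AlgebraicClosure (p.adicCompletion ℚ))) - e.1) < 1 ∧
        ∀ σ : (AlgebraicClosure (p.adicCompletion ℚ)) ≃ₐ[p.adicCompletion ℚ]
          (AlgebraicClosure (p.adicCompletion ℚ)), mv σ e = e := by
    intro n hn
    have hprod : w (((n : (AlgebraicClosure (p.adicCompletion ℚ))) - a) * ((n : (AlgebraicClosure (p.adicCompletion ℚ))) - b) * ((n : (AlgebraicClosure (p.adicCompletion ℚ))) - c)) < 1 := by
      have h1 : cub (sh W) (n : (AlgebraicClosure (p.adicCompletion ℚ))) = ((n : (AlgebraicClosure (p.adicCompletion ℚ))) - a) * ((n : (AlgebraicClosure (p.adicCompletion ℚ))) - b) * ((n : (AlgebraicClosure (p.adicCompletion ℚ))) - c) := hC.cub_eq _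
      rw [← h1, cub_sh]
      obtain ⟨k, hk⟩ := hn
      have h2 : (n : (AlgebraicClosure (p.adicCompletion ℚ))) ^ 3 + (W.b₂ : (AlgebraicClosure (p.adicCompletion ℚ))) * (n : (AlgebraicClosure (p.adicCompletion ℚ))) ^ 2 + 8 * (W.b₄ : (AlgebraicClosure (p.adicCompletion ℚ))) * (n : (AlgebraicClosure (p.adicCompletion ℚ))) +
          16 * (W.b₆ : (AlgebraicClosure (p.adicCompletion ℚ))) = ((ng p : ℕ) : (AlgebraicClosure (p.adicCompletion ℚ))) * (k : (AlgebraicClosure (p.adicCompletion ℚ))) := by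
        have := congrArg (fun z : ℤ => (z : (AlgebraicClosure (p.adicCompletion ℚ)))) hk
        push_cast at this
        exact this
      rw [h2, map_mul]
      exact mul_lt_one_of_lt_of_le wp1 (u_int w k)
    -- some root is close
    obtain ⟨e, hen, hdiff⟩ : ∃ e : Rt (sh W) (AlgebraicClosure (p.adicCompletion ℚ)), w ((n : (AlgebraicClosure (p.adicCompletion ℚ))) - e.1) < 1 ∧
        ∀ e' : Rt (sh W) (AlgebraicClosure (p.adicCompletion ℚ)), e' ≠ e → w (e'.1 - e.1) = 1 := by
      have d21 : w (b - a) = 1 := by rw [Valuation.map_sub_swap]; exact d12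
      have d31 : w (c - a) = 1 := by rw [Valuation.map_sub_swap]; exact d13
      have d32 : w (c - b) = 1 := by rw [Valuation.map_sub_swap]; exact d23
      by_cases h1 : w ((n : (AlgebraicClosure (p.adicCompletion ℚ))) - a) < 1
      · refine ⟨⟨a, hC.root_a⟩, h1, fun e' he' => ?_⟩
        rcases rt_list hC e' with rfl | rfl | rfl
        · exact absurd rfl he'
        · exact d21
        · exact d31
      by_cases h2 : w ((n : (AlgebraicClosure (p.adicCompletion ℚ))) - b) < 1
      · refine ⟨⟨b, hC.root_b⟩, h2, fun e' he' => ?_⟩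
        rcases rt_list hC e' with rfl | rfl | rfl
        · exact d12
        · exact absurd rfl he'
        · exact d32
      by_cases h3 : w ((n : (AlgebraicClosure (p.adicCompletion ℚ))) - c) < 1
      · refine ⟨⟨c, hC.root_c⟩, h3, fun e' he' => ?_⟩
        rcases rt_list hC e' with rfl | rfl | rfl
        · exact d13
        · exact d23
        · exact absurd rfl he'
      · exfalso
        rw [not_lt] at h1 h2 h3
        rw [map_mul, map_mul] at hprod
        exact absurd hprod (not_lt.2 (one_le_mul (one_le_mul h1 h2) h3))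
    refine ⟨e, hen, fun σ => ?_⟩
    by_contra hne
    have h1 := hdiff _ hne
    have h2 : w ((n : (AlgebraicClosure (p.adicCompletion ℚ))) - (mv σ e).1) < 1 := by
      have e1 : (n : (AlgebraicClosure (p.adicCompletion ℚ))) - (mv σ e).1 = σ ((n : (AlgebraicClosure (p.adicCompletion ℚ))) - e.1) := by
        rw [map_sub, map_intCast]
        rfl
      rw [e1, hσ]
      exact hen
    have h3 : w ((mv σ e).1 - e.1) < 1 := by
      have e1 : (mv σ e).1 - e.1 = ((n : (AlgebraicClosure (p.adicCompletion ℚ))) - e.1) - ((n : (AlgebraicClosure (p.adicCompletion ℚ))) - (mv σ e).1) := by ring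
      rw [e1]
      exact (Valuation.map_sub _ _ _).trans_lt (max_lt hen h2)
    exact absurd h1 h3.ne
  -- the injection
  haveI : Fact (ng p).Prime := ⟨hl⟩
  set X := {x : ZMod (ng p) // x ^ 3 + (W.b₂ : ZMod (ng p)) * x ^ 2 + 8 * (W.b₄ : ZMod (ng p)) * x +
    16 * (W.b₆ : ZMod (ng p)) = 0} with hX
  haveI : Finite X := inferInstance
  have hdvd : ∀ x : X, ((ng p : ℕ) : ℤ) ∣ ((x.1.val : ℕ) : ℤ) ^ 3 +
      W.b₂ * ((x.1.val : ℕ) : ℤ) ^ 2 + 8 * W.b₄ * ((x.1.val : ℕ) : ℤ) + 16 * W.b₆ := by
    intro x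
    rw [← ZMod.intCast_zmod_eq_zero_iff_dvd]
    push_cast
    rw [ZMod.natCast_zmod_val]
    exact x.2
  have hf := fun x : X => hroot _ (hdvd x)
  choose f hf1 hf2 using hf
  have hinj : Function.Injective f := by
    intro x y hxy
    have h1 := hf1 x
    have h2 := hf1 y
    rw [← hxy] at h2
    have h3 : w ((((((x.1.val : ℕ) : ℤ) - ((y.1.val : ℕ) : ℤ)) : ℤ) :
        (AlgebraicClosure (p.adicCompletion ℚ)))) < 1 := by
      have e1 : (((((x.1.val : ℕ) : ℤ) - ((y.1.val : ℕ) : ℤ)) : ℤ) :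
          (AlgebraicClosure (p.adicCompletion ℚ))) =
          ((((x.1.val : ℕ) : ℤ) : (AlgebraicClosure (p.adicCompletion ℚ))) - (f x).1) -
          ((((y.1.val : ℕ) : ℤ) : (AlgebraicClosure (p.adicCompletion ℚ))) - (f x).1) := by
        push_cast
        ring
      rw [e1]
      exact (Valuation.map_sub _ _ _).trans_lt (max_lt h1 h2)
    have h4 : ((ng p : ℕ) : ℤ) ∣ ((x.1.val : ℕ) : ℤ) - ((y.1.val : ℕ) : ℤ) := by
      by_contra hcon
      have h5 := hL.unit_of hcon
      rw [Valuation.comap_apply, map_intCast] at h5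
      exact absurd h5 h3.ne
    rw [← ZMod.intCast_zmod_eq_zero_iff_dvd] at h4
    push_cast at h4
    rw [ZMod.natCast_zmod_val, ZMod.natCast_zmod_val] at h4
    exact Subtype.ext (sub_eq_zero.1 h4)
  have hR3 : Fintype.card (Rt (sh W) (AlgebraicClosure (p.adicCompletion ℚ))) = 3 := by
    rw [← Finset.card_univ, rt_univ hC]
    rw [Finset.card_eq_three]
    exact ⟨_, _, _, fun h1 => hC.ab (congrArg Subtype.val h1),
      fun h1 => hC.ac (congrArg Subtype.val h1), fun h1 => hC.bc (congrArg Subtype.val h1), rfl⟩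
  have hX3 : Nat.card X ≤ 3 := by
    have h1 := Nat.card_le_card_of_injective f hinj
    rwa [Nat.card_eq_fintype_card (α := Rt (sh W) (AlgebraicClosure (p.adicCompletion ℚ))),
      hR3] at h1
  show 1 + Nat.card X ≤ _
  rcases Nat.lt_or_ge 1 (Nat.card X) with hlt | hle
  · haveI : Nontrivial X := Finite.one_lt_card_iff_nontrivial.1 hlt
    obtain ⟨x, y, hxy⟩ := exists_pair_ne X
    have hne : f x ≠ f y := fun h1 => hxy (hinj h1)
    obtain ⟨e3, he3⟩ : ∃ e3 : Rt (sh W) (AlgebraicClosure (p.adicCompletion ℚ)),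
        e3 ∉ ({f x, f y} : Finset (Rt (sh W) (AlgebraicClosure (p.adicCompletion ℚ)))) := by
      by_contra hcon
      push Not at hcon
      have h1 : (Finset.univ : Finset (Rt (sh W) (AlgebraicClosure (p.adicCompletion ℚ)))) ⊆
        {f x, f y} := fun e _ => hcon e
      have h2 := Finset.card_le_card h1
      rw [Finset.card_univ, hR3] at h2
      have h3 : ({f x, f y} : Finset (Rt (sh W) (AlgebraicClosure (p.adicCompletion ℚ)))).card ≤ 2 :=
        Finset.card_le_two
      omega
    have h3 : e3 ≠ f x ∧ e3 ≠ f y := by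
      constructor
      · rintro rfl
        exact he3 (by simp)
      · rintro rfl
        exact he3 (by simp)
    have hfx : ∀ (z : X) (e : Rt (sh W) (AlgebraicClosure (p.adicCompletion ℚ))), e ≠ f z →
        (Quotient.mk _ (f z) : Orb (sh W) (p.adicCompletion ℚ)
          (AlgebraicClosure (p.adicCompletion ℚ))) ≠ Quotient.mk _ e := by
      intro z e hez h1
      obtain ⟨σ, hσe⟩ := Quotient.exact h1
      exact hez (hσe.symm.trans (hf2 z σ))
    have h4 : 2 < Nat.card (Orb (sh W) (p.adicCompletion ℚ)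
        (AlgebraicClosure (p.adicCompletion ℚ))) := by
      rw [Nat.card_eq_fintype_card]
      refine Fintype.two_lt_card_iff.2 ⟨Quotient.mk _ (f x), Quotient.mk _ (f y),
        Quotient.mk _ e3, hfx x _ hne.symm, hfx x _ h3.1, hfx y _ h3.2⟩
    have h5 : 2 ^ 2 ≤ 2 ^ ((Tq A (ng p)).ncard - 1) :=
      Nat.pow_le_pow_right (by norm_num) (by omega)
    omega
  · rcases Nat.eq_zero_or_pos (Nat.card X) with h0 | hpos
    · rw [h0]
      exact Nat.one_le_two_pow
    · have hne : Nonempty X := (Nat.card_pos_iff.1 hpos).1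
      obtain ⟨x⟩ := hne
      have h2 := htwo _ (hdvd x)
      have h5 : 2 ^ 1 ≤ 2 ^ ((Tq A (ng p)).ncard - 1) :=
        Nat.pow_le_pow_right (by norm_num) (by omega)
      omega

end glob

end Pool.Agent.H30GR
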