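import Pool.Agent.R425.G.Cl2

/-!
# The local condition at the places of good reduction
-/

set_option autoImplicit false
set_option linter.all false

open NumberField IsDedekindDomain WithZero WeierstrassCurve WeierstrassCurve.Affine
open scoped NNReal Classical

namespace Pool.Agent.H30GR

open Pool.Agent
open Pool.Agent.TH115.GD
open Pool.Agent.Y710.CV (Cond cond1 cond2)
open Pool.Agent.Y702.G (sh base pts)
open Pool.Agent.R425 (lz exists_data Ev)
open Pool.Agent.R425.G

section good2

variable {W : WeierstrassCurve ℤ} {A : Type} [Field A] [NumberField A] {θ : A}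

theorem cond_good' (h : CF (sh W) A θ) (hW : W.Δ ≠ 0) (R : Finset ℕ) (hR : ∀ l ∈ R, l.Prime)
    {z : A} (hz0 : z ≠ 0) {r : ℚ} (hr : Algebra.norm ℚ z = r ^ 2)
    (hz : ∀ u : HeightOneSpectrum (𝓞 A),
      (((2 * W.Δ) * ((∏ l ∈ R, l : ℕ) : ℤ) : ℤ) : 𝓞 A) ∉ u.asIdeal → u.valuation A z = 1)
    {K : Type} [Field K] [NumberField K] (hram : ∀ l ∈ R, Ev K l) (v : HeightOneSpectrum (𝓞 K))
    (hv : ((2 * W.Δ : ℤ) : 𝓞 K) ∉ v.asIdeal) :
    Cond (v.adicCompletion K) (AlgebraicClosure (v.adicCompletion K)) (sh W) θ z := by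
  haveI : CharZero (v.adicCompletion K) := algebraRat.charZero _
  haveI : IsGalois (v.adicCompletion K) (AlgebraicClosure (v.adicCompletion K)) := inferInstance
  haveI : CharZero (AlgebraicClosure (v.adicCompletion K)) := algebraRat.charZero _
  obtain ⟨w, hw1, hw2, hw3, hw4, hw5⟩ := exists_data v
  obtain ⟨q, hq, hqv⟩ := exists_prime_mem v
  have hV := iv_sh W hW
  have hqZ : Prime (q : ℤ) := Nat.prime_iff_prime_int.1 hq
  have hint : ∀ m : ℤ, w ((m : ℤ) : AlgebraicClosure (v.adicCompletion K)) < 1 ↔
      ((m : ℤ) : 𝓞 K) ∈ v.asIdeal := by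
    intro m
    rw [← hw4]
    simp only [map_intCast]
  have hone : ∀ m : ℤ, ((m : ℤ) : 𝓞 K) ∉ v.asIdeal →
      w ((m : ℤ) : AlgebraicClosure (v.adicCompletion K)) = 1 := by
    intro m hm
    apply le_antisymm (u_int w m)
    by_contra hcon
    rw [not_le] at hcon
    exact hm ((hint m).1 hcon)
  have hqw : w ((q : ℕ) : AlgebraicClosure (v.adicCompletion K)) < 1 := by
    have := (hint (q : ℤ)).2 (by exact_mod_cast hqv)
    exact_mod_cast this
  have hqD : ¬ (q : ℤ) ∣ 2 * W.Δ := by
    rintro ⟨k, hk⟩
    apply hv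
    rw [hk]
    push_cast
    exact v.asIdeal.mul_mem_right _ (by exact_mod_cast hqv)
  have h2 : w (2 : AlgebraicClosure (v.adicCompletion K)) = 1 := by
    have := hone 2 (fun hm => hv (by
      push_cast
      exact v.asIdeal.mul_mem_right _ (by exact_mod_cast hm)))
    exact_mod_cast this
  have hΔw : w (256 * ((W.Δ : ℤ) : AlgebraicClosure (v.adicCompletion K))) = 1 := by
    have h3 := hone W.Δ (fun hm => hv (by
      push_cast
      exact v.asIdeal.mul_mem_left _ (by exact_mod_cast hm)))
    have e : (256 : AlgebraicClosure (v.adicCompletion K)) = 2 ^ 8 := by norm_num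
    rw [map_mul, e, map_pow, h2, h3, one_pow, one_mul]
  -- the valuations
  have hev : ∀ φ : A →+* AlgebraicClosure (v.adicCompletion K),
      ∃ s : v.adicCompletion K, s ≠ 0 ∧ w (φ z) = w (algebraMap (v.adicCompletion K)
        (AlgebraicClosure (v.adicCompletion K)) s) ^ 2 := by
    intro φ
    have hmem := q_mem_plc w φ hq.ne_zero hqw
    by_cases hql : q ∈ R
    · have hu := unr_A h hW hq hqD (u := plc w φ
        hq.ne_zero hqw) hmem
      obtain ⟨k, hk⟩ := plc_unr w φ hq.ne_zero hqw
        hu hz0
      obtain ⟨s', hs'⟩ := hram q hql v hqv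
      have hq0 : (q : K) ≠ 0 := by exact_mod_cast hq.ne_zero
      have hs0 : s' ≠ 0 := by
        rintro rfl
        rw [map_zero, zero_pow two_ne_zero] at hs'
        exact hq0 ((Valuation.zero_iff _).1 hs'.symm)
      have hqs : w ((q : ℕ) : AlgebraicClosure (v.adicCompletion K)) = w (algebraMap _
          (AlgebraicClosure (v.adicCompletion K)) (algebraMap K (v.adicCompletion K) s')) ^ 2 := by
        have g1 : ((q : ℕ) : AlgebraicClosure (v.adicCompletion K)) =
            algebraMap (v.adicCompletion K) _ ((q : ℕ) : v.adicCompletion K) := by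
          rw [map_natCast]
        have g2 : w (algebraMap _ (AlgebraicClosure (v.adicCompletion K))
            (algebraMap K (v.adicCompletion K) s')) ^ 2 =
            w (algebraMap _ (AlgebraicClosure (v.adicCompletion K))
              ((algebraMap K (v.adicCompletion K) s') ^ 2)) := by rw [map_pow, map_pow]
        have g3 : Valued.v ((q : ℕ) : v.adicCompletion K) =
            Valued.v ((algebraMap K (v.adicCompletion K) s') ^ 2) := by
          have g4 : ((q : ℕ) : v.adicCompletion K) = algebraMap K (v.adicCompletion K) (q : K) := by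
            rw [map_natCast]
          rw [g4, map_pow]
          have g5 : ∀ x : K, Valued.v (algebraMap K (v.adicCompletion K) x) = v.valuation K x :=
            fun x => HeightOneSpectrum.valuedAdicCompletion_eq_valuation' v x
          rw [g5, g5, hs']
        rw [g1, g2]
        exact le_antisymm ((hw2 _ _).2 g3.le) ((hw2 _ _).2 g3.ge)
      refine ⟨(algebraMap K (v.adicCompletion K) s') ^ k,
        zpow_ne_zero _ ((_root_.map_ne_zero _).2 hs0), ?_⟩
      have hk' : w (φ z) = w ((q : ℕ) : AlgebraicClosure (v.adicCompletion K)) ^ k := hk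
      rw [hk', hqs, map_zpow₀, map_zpow₀, ← zpow_natCast, ← zpow_natCast, ← zpow_mul, ← zpow_mul,
        mul_comm]
    · have hval : (plc w φ hq.ne_zero
          hqw).valuation A z = 1 := by
        apply hz
        intro hcon
        have h5 := not_both hq hmem hcon
        rcases hqZ.dvd_or_dvd h5 with h6 | h6
        · exact hqD h6
        · have h7 : q ∣ ∏ l ∈ R, l := by exact_mod_cast h6
          obtain ⟨l, hl, h9⟩ := (Prime.dvd_finset_prod_iff hq.prime _).1 h7
          rw [(Nat.prime_dvd_prime_iff_eq hq (hR l hl)).1 h9] at hql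
          exact hql hl
      have h8 := plc_one w φ hq.ne_zero hqw hval
      exact ⟨1, one_ne_zero, by
        rw [map_one, map_one, one_pow]
        exact h8⟩
  haveI : v.asIdeal.IsMaximal := v.isMaximal
  haveI : Finite (𝓞 K ⧸ v.asIdeal) := Ring.HasFiniteQuotients.finiteQuotient v.ne_bot
  let j : 𝓞 K →+* (v.adicCompletion K) :=
    (algebraMap K (v.adicCompletion K)).comp (algebraMap (𝓞 K) K)
  exact cond_conv _ _ _ _ _ _ (cond_lz h hW v.asIdeal j w hw1 hw3 hw4 hw5 h2 hΔw hr hev)

end good2

end Pool.Agent.H30GR
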