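import Pool.Agent.H30GR.Low1
import Pool.Agent.H30GR.Low2
import Pool.Agent.H30GR.Low3
import Pool.Agent.R425.G.Cl4

/-!
# Many classes which are locally trivial and different over `K`
-/

set_option autoImplicit false
set_option linter.all false

open NumberField IsDedekindDomain WithZero WeierstrassCurve WeierstrassCurve.Affine
open scoped NNReal Classical

namespace Pool.Agent.H30GR

open Pool.Agent
open Pool.Agent.TH115.GD
open Pool.Agent.Y710.CV (Cond cond1 cond2 sC_at neg_two)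
open Pool.Agent.Y702.G (sh base pts)
open Pool.Agent.R425 (Ev exists_cls sq_of_triv)
open Pool.Agent.R425.G

section sum

variable {Ω : Type} [Field Ω] [Algebra ℚ Ω] {V : WeierstrassCurve ℚ} {a b c : Ω}
  [IsGalois ℚ Ω] [IsAlgClosed Ω]

/-- the product of two Kummer generators, if the difference of the classes is trivial -/
theorem sq_of_diff (hC : IsC (V.baseChange Ω).toAffine a b c) {ζ ζ' : Ω → Ω}
    {g g' : (Ω ≃ₐ[ℚ] Ω) → Pt V Ω} {t t' : Ω → Ω} {r r' : ℚ} (hr0 : r ≠ 0) (hr0' : r' ≠ 0)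
    (h2 : ∀ σ, g σ + g σ = 0) (h2' : ∀ σ, g' σ + g' σ = 0)
    (ht : ∀ e, cub V e = 0 → t e ≠ 0 ∧ t e ^ 2 = ζ e)
    (ht' : ∀ e, cub V e = 0 → t' e ≠ 0 ∧ t' e ^ 2 = ζ' e)
    (htr : t a * t b * t c = algebraMap ℚ Ω r) (htr' : t' a * t' b * t' c = algebraMap ℚ Ω r')
    (hg : ∀ σ e, cub V e = 0 → σ (t (σ⁻¹ e)) = sC e (g σ) * t e)
    (hg' : ∀ σ e, cub V e = 0 → σ (t' (σ⁻¹ e)) = sC e (g' σ) * t' e)
    (H : Subgroup (Ω ≃ₐ[ℚ] Ω)) [H.Normal] (htrans : ∀ e, cub V e = 0 → ∃ σ ∈ H, σ a = e)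
    {T : Pt V Ω} (hT : T + T = 0) (hgT : ∀ σ ∈ H, g σ - g' σ = act V (ak σ) T - T) :
    ∃ s : Ω → Ω, (∀ e, cub V e = 0 → s e ^ 2 = ζ e * ζ' e) ∧
      ∀ (σ : Ω ≃ₐ[ℚ] Ω) (e : Ω), cub V e = 0 → σ (s e) = s (σ e) := by
  refine sq_of_triv hC (ζ := fun e => ζ e * ζ' e) (g := fun σ => g σ + g' σ)
    (t := fun e => t e * t' e) (r := r * r') (mul_ne_zero hr0 hr0') ?_ ?_ ?_ ?_ H htrans hT ?_
  · intro σ
    show (g σ + g' σ) + (g σ + g' σ) = 0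
    rw [add_add_add_comm, h2, h2', add_zero]
  · intro e he
    refine ⟨mul_ne_zero (ht e he).1 (ht' e he).1, ?_⟩
    show (t e * t' e) ^ 2 = ζ e * ζ' e
    rw [mul_pow, (ht e he).2, (ht' e he).2]
  · show (t a * t' a) * (t b * t' b) * (t c * t' c) = _
    rw [map_mul, ← htr, ← htr']
    ring
  · intro σ e he
    show σ (t (σ⁻¹ e) * t' (σ⁻¹ e)) = sC e (g σ + g' σ) * (t e * t' e)
    rw [map_mul, hg σ e he, hg' σ e he, sC_at hC he (h2 σ) (h2' σ)]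
    ring
  · intro σ hσ
    show g σ + g' σ = _
    rw [← hgT σ hσ, sub_eq_add_neg, neg_two (h2' σ)]

end sum

/-- `K` is normal. -/
theorem presK (K Ω : Type) [Field K] [NumberField K] [IsGalois ℚ K] [Field Ω] [Algebra K Ω]
    [Algebra ℚ Ω] [IsScalarTower ℚ K Ω] : Preserves ℚ K Ω := fun τ x =>
  ⟨τ.restrictNormal K x, (AlgEquiv.restrictNormal_commutes τ K x).symm⟩

/-- Classes over `ℚ`, locally trivial over `K`, different over `K`. -/
theorem exists_classes (K : Type) [Field K] [NumberField K] [IsGalois ℚ K] {W : WeierstrassCurve ℤ}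
    (hW : W.Δ < 0) (hnr : ∀ x : K, cub (sh W) x ≠ 0) (R : Finset ℕ)
    (hR : ∀ l ∈ R, l.Prime ∧ ¬ (l : ℤ) ∣ 2 * W.Δ ∧ Ev K l)
    (Ω : Type) [Field Ω] [Algebra K Ω] [Algebra ℚ Ω] [IsScalarTower ℚ K Ω] [IsGalois ℚ Ω]
    [IsGalois K Ω] [IsAlgClosed Ω] :
    ∃ (n : ℕ) (g : Fin n → (Ω ≃ₐ[ℚ] Ω) → Pt (sh W) Ω), ∏ l ∈ R, (1 + nr W l) ≤ n ∧
      (∀ i, IsLocallyConstant (g i) ∧
        (∀ σ τ, g i (σ * τ) = g i σ + act (sh W) (ak σ) (g i τ)) ∧ (∀ σ, g i σ + g i σ = 0) ∧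
        (∀ (v : HeightOneSpectrum (𝓞 K)) (L Ω' : Type) [Field L] [Field Ω'] [Algebra L Ω']
          [Algebra ℚ L] [Algebra ℚ Ω'] [IsScalarTower ℚ L Ω'] [IsSepClosed Ω'] [IsGalois L Ω'],
          (v.adicCompletion K →+* L) → LocTriv (F := ℚ) (Ω := Ω) (sh W) L Ω' (g i)) ∧
        (∀ (L Ω' : Type) [Field L] [Field Ω'] [Algebra L Ω']
          [Algebra ℚ L] [Algebra ℚ Ω'] [IsScalarTower ℚ L Ω'] [IsSepClosed Ω'] [IsGalois L Ω'],
          (ℝ →+* L) → LocTriv (F := ℚ) (Ω := Ω) (sh W) L Ω' (g i))) ∧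
      ∀ i j, (∃ T : Pt (sh W) Ω, T + T = 0 ∧ ∀ σ : Ω ≃ₐ[K] Ω,
        g i (σ.restrictScalars ℚ) - g j (σ.restrictScalars ℚ) = act (sh W) (rs ℚ σ) T - T) →
        i = j := by
  haveI : CharZero Ω := algebraRat.charZero _
  have hV := iv_sh W hW.ne
  have hnrQ : ∀ x : ℚ, cub (sh W) x ≠ 0 := by
    intro x hx
    apply hnr (algebraMap ℚ K x)
    have h := cub_map (sh W) (incl ℚ ℚ K) x
    rw [hx, map_zero] at h
    exact h
  obtain ⟨A, hA1, hA2, θ, hcf⟩ := exists_cf hV hnrQ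
  have hD0 : 2 * W.Δ ≠ 0 := mul_ne_zero two_ne_zero hW.ne
  have hD : 2 * W.Δ * ((∏ l ∈ R, l : ℕ) : ℤ) ≠ 0 := by
    refine mul_ne_zero hD0 ?_
    exact_mod_cast (Finset.prod_ne_zero_iff.2 fun l hl => (hR l hl).1.ne_zero)
  obtain ⟨n, z, hn, hz, hzd⟩ := exists_zs hcf hV hD0 R (fun l hl => ⟨(hR l hl).1, (hR l hl).2.1⟩)
    (fun l hl => (nr_le hcf hW.ne (hR l hl).1 (hR l hl).2.1).1) hD
  choose r hr0 hr using fun i => (hz i).1
  have hzv := fun i => (hz i).2.1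
  have hzc := fun i => (hz i).2.2
  obtain ⟨a, b, c, hC⟩ := Y355.G.V_roots hV.a1 hV.a3 hV.Δ Ω
  -- the local conditions
  have hcondF : ∀ (i : Fin n) (v : HeightOneSpectrum (𝓞 K)),
      Cond (v.adicCompletion K) (AlgebraicClosure (v.adicCompletion K)) (sh W) θ (z i : A) := by
    intro i v
    by_cases hv : ((2 * W.Δ : ℤ) : 𝓞 K) ∈ v.asIdeal
    · obtain ⟨q, hq, hqv⟩ := exists_prime_mem v
      obtain ⟨p, rfl⟩ := exists_ng hq
      exact cond_place v p hV hcf hqv (hzc i p (not_both hq hqv hv))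
    · exact cond_good' hcf hW.ne R (fun l hl => (hR l hl).1) (z i).ne_zero (hr i) (hzv i)
        (fun l hl => (hR l hl).2.2) v hv
  have hcondI : ∀ i : Fin n, Cond ℝ (AlgebraicClosure ℝ) (sh W) θ (z i : A) :=
    fun i => cond_real hcf hW (hr0 i) (hr i) (RingEquiv.refl ℝ)
  have hnorm : ∀ i, zf hcf (z i : A) a * zf hcf (z i : A) b * zf hcf (z i : A) c =
      algebraMap ℚ Ω (r i) ^ 2 := by
    intro i
    have h1 := norm_em hcf hC (z i : A)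
    rw [← zf_root hcf (z i : A) ⟨a, hC.root_a⟩, ← zf_root hcf (z i : A) ⟨b, hC.root_b⟩,
      ← zf_root hcf (z i : A) ⟨c, hC.root_c⟩, hr i, map_pow] at h1
    exact h1.symm
  have hζ0 : ∀ i, ∀ e : Ω, cub (sh W) e = 0 → zf hcf (z i : A) e ≠ 0 := by
    intro i e he h0
    have h1 := zf_root hcf (z i : A) (⟨e, he⟩ : Rt (sh W) Ω)
    rw [h0] at h1
    exact (z i).ne_zero ((em hcf _).injective ((map_zero _).trans h1).symm)
  have hcls := fun i => exists_cls hC (fun e => zf hcf (z i : A) e)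
    (fun σ e he => zf_equi hcf (z i : A) σ he) (hζ0 i) (r := r i) (hnorm i)
  choose g tt hg1 hg2 hg3 hg4 hg5 hg6 using hcls
  set ia := em hcf (⟨a, hC.root_a⟩ : Rt (sh W) Ω) with hia
  have hθ : (ia : A →+* Ω) θ = a := em_root hcf _
  have hk : ∀ i, ∀ τ : Ω ≃ₐ[ℚ] Ω, τ a = a → τ (tt i a) = sC a (g i τ) * tt i a := by
    intro i τ hτ
    have h := hg6 i τ a hC.root_a
    have h3 : τ⁻¹ a = a := by
      apply τ.injective
      rw [← AlgEquiv.mul_apply, mul_inv_cancel]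
      exact hτ.symm
    rwa [h3] at h
  have hta : ∀ i, tt i a ^ 2 = (ia : A →+* Ω) (z i : A) := fun i =>
    (hg4 i a hC.root_a).2.trans (zf_root hcf (z i : A) ⟨a, hC.root_a⟩)
  have hcore : ∀ (i : Fin n) (L Ω' : Type) [Field L] [Field Ω'] [Algebra L Ω']
      [Algebra ℚ L] [Algebra ℚ Ω'] [IsScalarTower ℚ L Ω'] [IsSepClosed Ω'] [IsGalois L Ω'],
      Cond L Ω' (sh W) θ (z i : A) → LocTriv (F := ℚ) (Ω := Ω) (sh W) L Ω' (g i) := by
    intro i L Ω' _ _ _ _ _ _ _ _ hcond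
    exact Pool.Agent.Y710.CV.core' (sh W) (ia : A →+* Ω) (θ := θ)
      (b := b) (c := c) (by rw [hθ]; exact hC) hnrQ (hg2 i) (hg3 i)
      (t := tt i a) (hg4 i a hC.root_a).1 (hta i)
      (by rw [hθ]; exact hk i) hcond
  refine ⟨n, g, ?_, fun i => ⟨hg1 i, hg2 i, hg3 i, ?_, ?_⟩, ?_⟩
  · refine le_trans ?_ hn
    rw [← Finset.prod_pow_eq_pow_sum]
    exact Finset.prod_le_prod' fun l hl => (nr_le hcf hW.ne (hR l hl).1 (hR l hl).2.1).2
  · intro v L Ω' _ _ _ _ _ _ _ _ j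
    haveI : CharZero (v.adicCompletion K) := algebraRat.charZero _
    haveI : IsGalois (v.adicCompletion K) (AlgebraicClosure (v.adicCompletion K)) := inferInstance
    obtain ⟨a', b', c', hC'⟩ := Y355.G.V_roots hV.a1 hV.a3 hV.Δ
      (AlgebraicClosure (v.adicCompletion K))
    exact hcore i L Ω' (cond_base hcf hC' j (cond_conv _ _ _ _ _ _ (hcondF i v)))
  · intro L Ω' _ _ _ _ _ _ _ _ j
    haveI : IsGalois ℝ (AlgebraicClosure ℝ) := inferInstance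
    obtain ⟨a', b', c', hC'⟩ := Y355.G.V_roots hV.a1 hV.a3 hV.Δ (AlgebraicClosure ℝ)
    exact hcore i L Ω' (cond_base hcf hC' j (hcondI i))
  · rintro i j ⟨T, hT, hT2⟩
    -- the subgroup
    set H : Subgroup (Ω ≃ₐ[ℚ] Ω) :=
      (AlgEquiv.restrictScalarsHom ℚ : (Ω ≃ₐ[K] Ω) →* _).range with hH
    haveI : H.Normal := by
      refine ⟨fun σ hσ τ => ?_⟩
      obtain ⟨σ0, rfl⟩ := hσ
      obtain ⟨σ', hσ'⟩ := exists_conj (presK K Ω) τ⁻¹ σ0
      refine ⟨σ', AlgEquiv.ext fun x => ?_⟩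
      show σ' x = τ (σ0 (τ⁻¹ x))
      have h := hσ' x
      rw [← h, ← AlgEquiv.mul_apply, mul_inv_cancel]
      rfl
    have htrans : ∀ e, cub (sh W) e = 0 → ∃ σ ∈ H, σ a = e := by
      intro e he
      obtain ⟨σ, hσ⟩ := trans_roots hC hnr e (hC.root he)
      exact ⟨σ.restrictScalars ℚ, ⟨σ, rfl⟩, hσ⟩
    obtain ⟨t', ht1, ht2⟩ := sq_of_diff hC (hr0 i) (hr0 j) (hg3 i) (hg3 j) (hg4 i) (hg4 j)
      (hg5 i) (hg5 j) (hg6 i) (hg6 j) H htrans hT (by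
        rintro σ ⟨σ0, rfl⟩
        exact hT2 σ0)
    obtain ⟨s, hs⟩ := mem_of_stab hcf (⟨a, hC.root_a⟩ : Rt (sh W) Ω)
      (x := t' a) (fun σ hσ => by
        have hσ' : σ a = a := hσ
        rw [ht2 σ a hC.root_a, hσ'])
    apply hzd
    have key : em hcf (⟨a, hC.root_a⟩ : Rt (sh W) Ω) ((z i : A) * (z j : A)) =
        em hcf (⟨a, hC.root_a⟩ : Rt (sh W) Ω) (s ^ 2) := by
      rw [map_pow, hs, map_mul]
      have e1 := zf_root hcf (z i : A) (⟨a, hC.root_a⟩ : Rt (sh W) Ω)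
      have e2 := zf_root hcf (z j : A) (⟨a, hC.root_a⟩ : Rt (sh W) Ω)
      rw [← e1, ← e2]
      exact (ht1 a hC.root_a).symm
    exact ⟨s, (em hcf (⟨a, hC.root_a⟩ : Rt (sh W) Ω)).toRingHom.injective key⟩

end Pool.Agent.H30GR
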