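import Pool.Agent.H30GR.Qs
import Pool.Agent.H30EV.Good

/-!
# Norms and even valuations in quadratic extensions; descent with counting, strict version
-/

set_option autoImplicit false
set_option linter.all false

open Polynomial IsDedekindDomain NumberField Module
open scoped Classical IntermediateField Pointwise

namespace Pool.Agent.H30GR

open Pool.Agent.N922.PQ
open Pool.Agent.H30EV
open Pool.Agent.N692.PMTOW
open Pool.Agent.N874.PP (Ev)

/-- The valuations of `x` at the primes over the numbers in `R` are even. -/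
def EvA (F : Type) [Field F] [NumberField F] (R : Finset ℕ) (x : F) : Prop :=
  ∀ l ∈ R, ∀ 𝔓 : HeightOneSpectrum (𝓞 F), Ov (l : ℤ) 𝔓 → Ev 𝔓 x

theorem evA_sq {F : Type} [Field F] [NumberField F] {R : Finset ℕ} (x : F) : EvA F R (x ^ 2) :=
  fun _ _ 𝔓 _ => ev_sq 𝔓 x

theorem evA_mul {F : Type} [Field F] [NumberField F] {R : Finset ℕ} {x y : F} (hx : EvA F R x)
    (hy : EvA F R y) : EvA F R (x * y) :=
  fun l hl 𝔓 h𝔓 => ev_mul (hx l hl 𝔓 h𝔓) (hy l hl 𝔓 h𝔓)

/-- Norms in extensions of degree at most two. -/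
theorem evA_norm {L Ω : Type} [Field L] [NumberField L] [Field Ω] [NumberField Ω] [Algebra L Ω]
    [IsGalois L Ω] (h2 : finrank L Ω ≤ 2) {R : Finset ℕ} {x : Ω} (hx : x ≠ 0) (h : EvA Ω R x) :
    EvA L R (Algebra.norm L x) := by
  intro l hl 𝔓 h𝔓
  haveI : FiniteDimensional L Ω := Module.Finite.of_restrictScalars_finite ℚ L Ω
  obtain ⟨𝔓', h1⟩ := exists_above (Ω := Ω) 𝔓
  have h𝔓' : Ov (l : ℤ) 𝔓' := by
    rw [← h1] at h𝔓
    exact (ov_under _ 𝔓').1 h𝔓
  have hnorm : algebraMap L Ω (Algebra.norm L x) = ∏ σ : Ω ≃ₐ[L] Ω, σ x :=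
    Algebra.norm_eq_prod_automorphisms L x
  have hcard : Fintype.card (Ω ≃ₐ[L] Ω) ≤ 2 := by
    rw [← Nat.card_eq_fintype_card, IsGalois.card_aut_eq_finrank]
    exact h2
  have hsig : ∀ σ : Ω ≃ₐ[L] Ω, ∀ y : Ω, EvA Ω R y → Ev 𝔓' (σ y) := by
    intro σ y hy
    obtain ⟨𝔓₂, hv, hO⟩ := parts2.p.sig Ω (𝓞 Ω) (σ : Ω ≃+* Ω) 𝔓'
    obtain ⟨z, hz⟩ := hy l hl 𝔓₂ ((hO _).2 h𝔓')
    have hv' : ∀ y : Ω, 𝔓₂.valuation Ω y = 𝔓'.valuation Ω (σ y) := hv
    exact ⟨σ z, by rw [← hv', ← hv', hz]⟩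
  by_cases hI : ∀ σ : Ω ≃ₐ[L] Ω, (∀ y : 𝓞 Ω, σ • y - y ∈ 𝔓'.asIdeal) → σ = 1
  · have hv : ∀ y : L, 𝔓'.valuation Ω (algebraMap L Ω y) = 𝔓.valuation L y := by
      intro y
      rw [← h1]
      exact val_of_inertia 𝔓' hI y
    rw [← ev_down hv, hnorm]
    refine Finset.prod_induction _ (fun y => Ev 𝔓' y) (fun a b ha hb => ev_mul ha hb) ?_
      fun σ _ => hsig σ x h
    exact ⟨1, by simp⟩
  · push Not at hI
    obtain ⟨σ, hσ, hσ1⟩ := hI
    have huniv : (Finset.univ : Finset (Ω ≃ₐ[L] Ω)) = {1, σ} := by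
      symm
      apply Finset.eq_univ_of_card
      have h3 : ({1, σ} : Finset (Ω ≃ₐ[L] Ω)).card = 2 := by
        rw [Finset.card_pair (Ne.symm hσ1)]
      have h4 := Finset.card_le_univ ({1, σ} : Finset (Ω ≃ₐ[L] Ω))
      omega
    have hnorm2 : ∀ y : Ω, algebraMap L Ω (Algebra.norm L y) = y * σ y := by
      intro y
      rw [Algebra.norm_eq_prod_automorphisms L y, huniv, Finset.prod_pair (Ne.symm hσ1)]
      rfl
    have hvσ : ∀ y : Ω, 𝔓'.valuation Ω (σ y) = 𝔓'.valuation Ω y := by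
      obtain ⟨𝔓₂, hv, hO⟩ := parts2.p.sig Ω (𝓞 Ω) (σ : Ω ≃+* Ω) 𝔓'
      have hv' : ∀ y : Ω, 𝔓₂.valuation Ω y = 𝔓'.valuation Ω (σ y) := hv
      have e : 𝔓₂ = 𝔓' := by
        apply HeightOneSpectrum.ext
        ext y
        rw [← 𝔓₂.valuation_lt_one_iff_mem (K := Ω), ← 𝔓'.valuation_lt_one_iff_mem (K := Ω), hv']
        have e1 : σ (algebraMap (𝓞 Ω) Ω y) = algebraMap (𝓞 Ω) Ω (σ • y) := rfl
        rw [e1, 𝔓'.valuation_lt_one_iff_mem, 𝔓'.valuation_lt_one_iff_mem]
        constructor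
        · intro h5
          have h6 := sub_mem h5 (hσ y)
          rwa [sub_sub_cancel] at h6
        · intro h5
          have h6 := add_mem (hσ y) h5
          rwa [sub_add_cancel] at h6
      intro y
      rw [← hv', e]
    -- the ramification index
    haveI : 𝔓'.asIdeal.LiesOver 𝔓.asIdeal := by
      rw [← h1]
      exact ⟨rfl⟩
    have hval := HeightOneSpectrum.valuation_liesOver (K := L) Ω 𝔓 𝔓'
    obtain ⟨e, he⟩ : ∃ e, e = 𝔓.asIdeal.ramificationIdx' 𝔓'.asIdeal := ⟨_, rfl⟩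
    rw [← he] at hval
    have hkey : ∀ y : Ω, 𝔓.valuation L (Algebra.norm L y) ^ e = 𝔓'.valuation Ω y ^ 2 := by
      intro y
      rw [hval, hnorm2, map_mul, hvσ, sq]
    have he2 : e = 1 ∨ e = 2 := by
      obtain ⟨π, hπ⟩ := 𝔓'.valuation_surjective (K := Ω) (WithZero.exp (-1))
      have h5 := hkey π
      rw [hπ] at h5
      have hne : 𝔓.valuation L (Algebra.norm L π) ≠ 0 := by
        intro h0
        have h6 : 𝔓'.valuation Ω (algebraMap L Ω (Algebra.norm L π)) = 0 := by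
          rw [(Valuation.zero_iff _).1 h0, map_zero, map_zero]
        rw [hnorm2, map_mul, hvσ, hπ] at h6
        exact (mul_ne_zero WithZero.exp_ne_zero WithZero.exp_ne_zero) h6
      rw [← WithZero.exp_log hne, ← WithZero.exp_nsmul, ← WithZero.exp_nsmul,
        WithZero.exp_inj] at h5
      simp only [nsmul_eq_mul] at h5
      have h7 : (e : ℤ) ∣ 2 := by
        refine ⟨-WithZero.log (𝔓.valuation L (Algebra.norm L π)), ?_⟩
        push_cast at h5
        linear_combination h5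
      have h8 : e ∣ 2 := by exact_mod_cast h7
      exact (Nat.dvd_prime Nat.prime_two).1 h8
    have hx1 := hkey x
    rcases he2 with he2 | he2
    · rw [he2, pow_one] at hx1
      obtain ⟨z, hz⟩ := 𝔓.valuation_surjective (K := L) (𝔓'.valuation Ω x)
      exact ⟨z, by rw [hz, hx1]⟩
    · rw [he2] at hx1
      have hx2 : 𝔓.valuation L (Algebra.norm L x) = 𝔓'.valuation Ω x :=
        (pow_left_inj₀ zero_le' zero_le' two_ne_zero).1 hx1
      obtain ⟨s, hs⟩ := h l hl 𝔓' h𝔓'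
      obtain ⟨z, hz⟩ := 𝔓.valuation_surjective (K := L) (𝔓'.valuation Ω s)
      exact ⟨z, by rw [hz, hx2, hs]⟩


/-- A quadratic step, strict version. -/
theorem qs_cov2 (K L M Ω : Type) [Field K] [Field L] [Field M] [Field Ω] [Algebra K L]
    [Algebra K M] [Algebra L Ω] [Algebra M Ω] [Algebra K Ω] [IsScalarTower K L Ω]
    [IsScalarTower K M Ω] [NumberField L] [NumberField Ω] (h2 : (2 : K) ≠ 0)
    (hM : finrank K M = 2) (hL : finrank K L = 3)
    (hΩ : finrank M Ω = 3) (C : Ω → Prop) (hC1 : ∀ x : Ω, x ≠ 0 → C (x ^ 2))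
    (hC2 : ∀ x y : Ω, x ≠ 0 → y ≠ 0 → C x → C y → C (x * y))
    (hC3 : ∀ (σ : Ω ≃ₐ[L] Ω) (x : Ω), C x → C (σ x)) {R : Finset ℕ} {N N' : ℕ}
    (hC4 : Cov K L (fun x => C (algebraMap L Ω x)) N)
    (hC5 : Cov K L (fun x => C (algebraMap L Ω x) ∧ EvA L R x) N') :
    Cov M Ω (fun x => C x ∧ EvA Ω R x) (N' * N) := by
  obtain ⟨Z, hZ, hZr, hc⟩ := hC4.rep
  obtain ⟨Z', hZ', hZr', hc'⟩ := hC5.rep
  haveI : FiniteDimensional K L := FiniteDimensional.of_finrank_pos (by omega)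
  haveI : FiniteDimensional K M := FiniteDimensional.of_finrank_pos (by omega)
  haveI : FiniteDimensional M Ω := FiniteDimensional.of_finrank_pos (by omega)
  haveI : FiniteDimensional K Ω := FiniteDimensional.trans K M Ω
  haveI : FiniteDimensional L Ω := FiniteDimensional.right K L Ω
  have hLΩ : finrank L Ω = 2 := by
    have h1 := finrank_mul_finrank K M Ω
    have h3 := finrank_mul_finrank K L Ω
    rw [hM, hΩ] at h1
    rw [hL] at h3
    omega
  haveI : Algebra.IsQuadraticExtension L Ω := ⟨hLΩ⟩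
  haveI : IsGalois L Ω := inferInstance
  obtain ⟨m, β, hβ, hβn⟩ := Pool.Agent.N803.PM.exists_sqrt K M h2 hM
  have hωn := Pool.Agent.N803.PM.not_mem_cubic K L M Ω hL m β hβ hβn
  have hω2 : (algebraMap M Ω β) ^ 2 = algebraMap L Ω (algebraMap K L m) := by
    rw [← map_pow, hβ, ← IsScalarTower.algebraMap_apply K M Ω,
      ← IsScalarTower.algebraMap_apply K L Ω]
  have h2L : (2 : L) ≠ 0 := by
    intro h
    apply h2
    apply (algebraMap K L).injective
    rw [map_ofNat, h, map_zero]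
  obtain ⟨σ, -, hσN, -⟩ := Pool.Agent.N803.PM.exists_conj L Ω h2L hLΩ (algebraMap K L m)
    (algebraMap M Ω β) hω2 hωn
  -- the norm of an element with the property
  have hnorm : ∀ x : Ω, x ≠ 0 → C x → EvA Ω R x → IsSquare (Algebra.norm M x) →
      Algebra.norm L x ≠ 0 ∧
      (C (algebraMap L Ω (Algebra.norm L x)) ∧ EvA L R (Algebra.norm L x)) ∧
      IsSquare (Algebra.norm K (Algebra.norm L x)) := by
    intro x hx hCx hEx ⟨c, hc⟩
    have hσx : σ x ≠ 0 := by simpa using hx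
    refine ⟨fun h0 => ?_, ⟨?_, ?_⟩, ?_⟩
    · have := hσN x
      rw [h0, map_zero] at this
      exact mul_ne_zero hx hσx this.symm
    · rw [hσN]
      exact hC2 _ _ hx hσx hCx (hC3 σ x hCx)
    · exact evA_norm (by omega) hx hEx
    · rw [Algebra.norm_norm (R := K) (S := L) (a := x), ← Algebra.norm_norm (R := K) (S := M) (a := x),
        hc, map_mul]
      exact ⟨_, rfl⟩
  -- choose an element with given norm
  let P : L → Ω → Prop := fun r x => x ≠ 0 ∧ C x ∧ IsSquare (Algebra.norm M x) ∧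
    IsSquare (Algebra.norm L x * r)
  let g : L → Ω := fun r => if h : ∃ x, P r x then h.choose else 0
  have hg : ∀ r, (∃ x, P r x) → P r (g r) := by
    intro r hr
    simp only [g, dif_pos hr]
    exact hr.choose_spec
  refine ⟨(Z' ×ˢ Z).image fun p => g p.1 * algebraMap L Ω p.2, ?_, ?_⟩
  · refine Finset.card_image_le.trans ?_
    rw [Finset.card_product]
    exact Nat.mul_le_mul hZ' hZ
  · rintro x hx ⟨hCx, hEx⟩ hNx
    obtain ⟨n0, n1, n2⟩ := hnorm x hx hCx hEx hNx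
    obtain ⟨r, hr, hs⟩ := hc' _ n0 n1 n2
    obtain ⟨g0, g1, g2, g3⟩ := hg r ⟨x, hx, hCx, hNx, hs⟩
    have hu0 : x * g r ≠ 0 := mul_ne_zero hx g0
    have hr0 := (hZr' r hr).1
    have hLu : IsSquare (Algebra.norm L (x * g r)) := by
      obtain ⟨s, hs⟩ := hs
      obtain ⟨t, ht⟩ := g3
      refine ⟨s * t / r, ?_⟩
      rw [map_mul]
      field_simp
      linear_combination (Algebra.norm L (g r) * r) * hs + s * s * ht
    have hMu : IsSquare (Algebra.norm M (x * g r)) := by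
      rw [map_mul]
      exact hNx.mul g2
    obtain ⟨w, hw0, hwN, y, hy0, hwy⟩ := qs_desc K L M Ω h2 hM hL hΩ hu0 hMu hLu
    have hCw : C (algebraMap L Ω w) := by
      rw [hwy]
      exact hC2 _ _ hu0 (pow_ne_zero 2 hy0) (hC2 _ _ hx g0 hCx g1) (hC1 y hy0)
    obtain ⟨r', hr', t, ht⟩ := hc w hw0 hCw hwN
    refine ⟨g r * algebraMap L Ω r', Finset.mem_image.2 ⟨(r, r'), Finset.mk_mem_product hr hr', rfl⟩,
      mul_ne_zero g0 (by simpa using (hZr r' hr').1), algebraMap L Ω t / y, ?_⟩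
    have h5 := congrArg (algebraMap L Ω) ht
    rw [map_mul, map_mul, hwy] at h5
    field_simp
    linear_combination h5

section fields

variable {K L M Ω : Type} [Field K] [Field L] [Field M] [Field Ω] [Algebra K L] [Algebra K M]
  [Algebra L Ω] [Algebra M Ω] [Algebra K Ω] [IsScalarTower K L Ω] [IsScalarTower K M Ω]
  [NumberField L] [NumberField Ω]

/-- the quadratic step in a tower -/
theorem step_cov2 {K₁ : Type} [Field K₁] [Algebra K K₁] [Algebra K₁ M] [Algebra K₁ Ω]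
    [IsScalarTower K K₁ M] [IsScalarTower K₁ M Ω] [IsScalarTower K K₁ Ω] [Normal L Ω]
    [FiniteDimensional K Ω] (h2 : (2 : K) ≠ 0) (hK : finrank K K₁ = 2) (hL : finrank K L = 3)
    (C : Ω → Prop) (hC1 : ∀ x : Ω, x ≠ 0 → C (x ^ 2))
    (hC2 : ∀ x y : Ω, x ≠ 0 → y ≠ 0 → C x → C y → C (x * y))
    (hC3 : ∀ (σ : Ω ≃ₐ[L] Ω) (x : Ω), C x → C (σ x)) {R : Finset ℕ} {N N' : ℕ}
    (hC4 : Cov K L (fun x => C (algebraMap L Ω x)) N)
    (hC5 : Cov K L (fun x => C (algebraMap L Ω x) ∧ EvA L R x) N') :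
    ∃ (L₁ : IntermediateField K Ω) (i : Algebra K₁ L₁) (_ : IsScalarTower K₁ L₁ Ω)
      (_ : NumberField L₁),
      finrank K₁ L₁ = 3 ∧ (∀ l : L, algebraMap L Ω l ∈ L₁) ∧
      Cov K₁ L₁ (fun x => C (algebraMap L₁ Ω x)) (N ^ 2) ∧
      Cov K₁ L₁ (fun x => C (algebraMap L₁ Ω x) ∧ EvA L₁ R x) (N' * N) := by
  have f1 : FiniteDimensional K K₁ := .of_finrank_pos (by rw [hK]; norm_num)
  set L₁ : IntermediateField K Ω := im K L Ω ⊔ im K K₁ Ω with hL₁
  have m1 : ∀ l : L, algebraMap L Ω l ∈ L₁ := fun l =>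
    (le_sup_left : im K L Ω ≤ L₁) (mem_im l)
  have m2 : ∀ l : K₁, algebraMap K₁ Ω l ∈ L₁ := fun l =>
    (le_sup_right : im K K₁ Ω ≤ L₁) (mem_im l)
  have d1 : 3 ∣ finrank K L₁ := by
    rw [← hL, ← finrank_im (K := K) (L := L) (Ω := Ω)]
    exact IntermediateField.finrank_dvd_of_le_right le_sup_left
  have d2 : 2 ∣ finrank K L₁ := by
    rw [← hK, ← finrank_im (K := K) (L := K₁) (Ω := Ω)]
    exact IntermediateField.finrank_dvd_of_le_right le_sup_right
  have d3 : finrank K L₁ ≤ 3 * 2 := by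
    have h3 := IntermediateField.finrank_sup_le (im K L Ω) (im K K₁ Ω)
    rw [finrank_im, finrank_im, hL, hK] at h3
    exact h3
  have d4 : 0 < finrank K L₁ := finrank_pos
  have d5 : finrank K L₁ = 6 := by omega
  clear_value L₁
  have nf : NumberField L₁ := by
    haveI : CharZero L₁ := charZero_of_injective_algebraMap
      (algebraMap L₁ Ω).injective |> fun h => by
        exact ⟨fun a b hab => by
          have := congrArg (algebraMap L₁ Ω) hab
          simpa using this⟩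
    haveI : FiniteDimensional ℚ L₁ := by
      exact FiniteDimensional.of_injective
        ((algebraMap L₁ Ω : L₁ →+* Ω).toRatAlgHom.toLinearMap) (algebraMap L₁ Ω).injective
    exact ⟨⟩
  letI i1 : Algebra L L₁ := ((algebraMap L Ω).codRestrict L₁ m1).toAlgebra
  letI i2 : Algebra K₁ L₁ := ((algebraMap K₁ Ω).codRestrict L₁ m2).toAlgebra
  haveI t1 : IsScalarTower L L₁ Ω := IsScalarTower.of_algebraMap_eq fun _ => rfl
  haveI t2 : IsScalarTower K₁ L₁ Ω := IsScalarTower.of_algebraMap_eq fun _ => rfl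
  haveI t3 : IsScalarTower K L L₁ := IsScalarTower.of_algebraMap_eq fun x =>
    Subtype.ext (IsScalarTower.algebraMap_apply K L Ω x)
  haveI t4 : IsScalarTower K K₁ L₁ := IsScalarTower.of_algebraMap_eq fun x =>
    Subtype.ext (IsScalarTower.algebraMap_apply K K₁ Ω x)
  have d6 : finrank K₁ L₁ = 3 := by
    have h3 := finrank_mul_finrank K K₁ L₁
    rw [hK, d5] at h3
    omega
  have e1 : ∀ x : L₁, x ≠ 0 → C (algebraMap L₁ Ω (x ^ 2)) := by
    intro x hx
    have := hC1 (algebraMap L₁ Ω x) (by simpa using hx)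
    rw [← map_pow] at this
    exact this
  have e2 : ∀ x y : L₁, x ≠ 0 → y ≠ 0 → C (algebraMap L₁ Ω x) → C (algebraMap L₁ Ω y) →
      C (algebraMap L₁ Ω (x * y)) := by
    intro x y hx hy h3 h4
    have := hC2 (algebraMap L₁ Ω x) (algebraMap L₁ Ω y) (by simpa using hx) (by simpa using hy)
      h3 h4
    rw [← map_mul] at this
    exact this
  have e3 : ∀ (σ : L₁ ≃ₐ[L] L₁) (x : L₁), C (algebraMap L₁ Ω x) → C (algebraMap L₁ Ω (σ x)) := by
    intro σ x h3
    have h4 := hC3 (σ.liftNormal Ω) _ h3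
    rw [AlgEquiv.liftNormal_commutes] at h4
    exact h4
  have e5 : ∀ x : L, C (algebraMap L₁ Ω (algebraMap L L₁ x)) ↔ C (algebraMap L Ω x) := by
    intro x
    rw [← IsScalarTower.algebraMap_apply L L₁ Ω]
  have e4 : Cov K L (fun x => C (algebraMap L₁ Ω (algebraMap L L₁ x))) N := by
    obtain ⟨Z, hZ, hc⟩ := hC4
    exact ⟨Z, hZ, fun x hx h3 h4 => hc x hx ((e5 x).1 h3) h4⟩
  have e6 : Cov K L (fun x => C (algebraMap L₁ Ω (algebraMap L L₁ x)) ∧ EvA L R x) N' := by
    obtain ⟨Z, hZ, hc⟩ := hC5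
    exact ⟨Z, hZ, fun x hx h3 h4 => hc x hx ⟨(e5 x).1 h3.1, h3.2⟩ h4⟩
  exact ⟨L₁, i2, t2, nf, d6, m1,
    qs_cov K L K₁ L₁ h2 hK hL d6 (fun x => C (algebraMap L₁ Ω x)) e1 e2 e3 e4,
    qs_cov2 K L K₁ L₁ h2 hK hL d6 (fun x => C (algebraMap L₁ Ω x)) e1 e2 e3 e4 e6⟩

end fields

/-- **Descent with counting along a Galois 2-extension, strict version.** -/
theorem tow_cov2 (R : Finset ℕ) : ∀ (n : ℕ) (K L M Ω : Type) [Field K] [Field L] [Field M]
    [Field Ω] [Algebra K L] [Algebra K M] [Algebra L Ω] [Algebra M Ω] [Algebra K Ω]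
    [IsScalarTower K L Ω] [IsScalarTower K M Ω] [IsGalois K M] [NumberField L] [NumberField Ω],
    (2 : K) ≠ 0 → Module.finrank K M = 2 ^ n →
    Module.finrank K L = 3 → Module.finrank M Ω = 3 →
    ∀ C : Ω → Prop, (∀ x : Ω, x ≠ 0 → C (x ^ 2)) →
    (∀ x y : Ω, x ≠ 0 → y ≠ 0 → C x → C y → C (x * y)) →
    (∀ (σ : Ω ≃ₐ[L] Ω) (x : Ω), C x → C (σ x)) → ∀ N N' : ℕ,
    Cov K L (fun x => C (algebraMap L Ω x)) N →
    Cov K L (fun x => C (algebraMap L Ω x) ∧ EvA L R x) N' →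
    Cov M Ω (fun x => C x ∧ EvA Ω R x) (N' * N ^ (2 ^ n - 1)) := by
  intro n
  induction n with
  | zero =>
    intro K L M Ω _ _ _ _ _ _ _ _ _ _ _ _ _ _ h2 hM hL hΩ C hC1 hC2 hC3 N N' hC4 hC5
    have f1 : FiniteDimensional K M := .of_finrank_pos (by rw [hM]; positivity)
    have f2 : FiniteDimensional M Ω := .of_finrank_pos (by rw [hΩ]; norm_num)
    have f3 : FiniteDimensional K Ω := FiniteDimensional.trans K M Ω
    have f4 : FiniteDimensional K L := .of_finrank_pos (by rw [hL]; norm_num)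
    have f5 : FiniteDimensional L Ω := FiniteDimensional.right K L Ω
    have h1 : finrank K Ω = 3 := by
      rw [← finrank_mul_finrank K M Ω, hM, hΩ]
      norm_num
    have h3 : finrank L Ω = 1 := by
      have h4 := finrank_mul_finrank K L Ω
      rw [hL, h1] at h4
      omega
    have h5 : Function.Surjective (algebraMap L Ω) := by
      intro z
      have h6 : z ∈ (⊥ : Subalgebra L Ω) := by
        rw [Subalgebra.bot_eq_top_of_finrank_eq_one h3]
        exact Algebra.mem_top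
      exact Algebra.mem_bot.1 h6
    have hgal : IsGalois L Ω := by
      have h6 : Function.Bijective (algebraMap L Ω) := ⟨(algebraMap L Ω).injective, h5⟩
      haveI : Algebra.IsSeparable L Ω := inferInstance
      haveI : Normal L Ω := ⟨fun x => by
        obtain ⟨y, rfl⟩ := h5 x
        rw [minpoly.eq_X_sub_C, Polynomial.map_sub, Polynomial.map_X, Polynomial.map_C]
        exact Polynomial.Splits.X_sub_C _⟩
      exact {}
    obtain ⟨Z, hZ, hc⟩ := hC5
    refine ⟨Z.image (algebraMap L Ω), ?_, ?_⟩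
    · rw [pow_zero, Nat.sub_self, pow_zero, mul_one]
      exact Finset.card_image_le.trans hZ
    rintro x hx ⟨hCx, hEx⟩ hn
    obtain ⟨y, rfl⟩ := h5 x
    have hy : y ≠ 0 := fun h0 => hx (by rw [h0, map_zero])
    have hEy : EvA L R y := by
      have := evA_norm (L := L) (Ω := Ω) (by omega) hx hEx
      rwa [Algebra.norm_algebraMap, h3, pow_one] at this
    have h6 : IsSquare (Algebra.norm K y) := by
      have h7 : Algebra.norm K (algebraMap L Ω y) = Algebra.norm K y := by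
        rw [← Algebra.norm_norm (S := L), Algebra.norm_algebraMap, h3, pow_one]
      have h8 : Algebra.norm K (Algebra.norm M (algebraMap L Ω y))
          = Algebra.norm K (algebraMap L Ω y) := Algebra.norm_norm
      rw [← h7, ← h8]
      exact hn.map _
    obtain ⟨r, hr, hr0, hs⟩ := hc y hy ⟨hCx, hEy⟩ h6
    refine ⟨algebraMap L Ω r, Finset.mem_image_of_mem _ hr, by simpa using hr0, ?_⟩
    rw [← map_mul]
    exact hs.map _
  | succ n ih =>
    intro K L M Ω _ _ _ _ _ _ _ _ _ _ _ _ _ _ h2 hM hL hΩ C hC1 hC2 hC3 N N' hC4 hC5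
    have f1 : FiniteDimensional K M := .of_finrank_pos (by rw [hM]; positivity)
    have f2 : FiniteDimensional M Ω := .of_finrank_pos (by rw [hΩ]; norm_num)
    have f3 : FiniteDimensional K Ω := FiniteDimensional.trans K M Ω
    have f4 : FiniteDimensional K L := .of_finrank_pos (by rw [hL]; norm_num)
    have f5 : FiniteDimensional L Ω := FiniteDimensional.right K L Ω
    have hcard : Nat.card (M ≃ₐ[K] M) = 2 ^ (n + 1) := by
      rw [IsGalois.card_aut_eq_finrank, hM]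
    obtain ⟨H, hH⟩ := Sylow.exists_subgroup_card_pow_prime (G := M ≃ₐ[K] M) 2 (n := n)
      (by rw [hcard]; exact pow_dvd_pow 2 (Nat.le_succ n))
    set K₁ := IntermediateField.fixedField H with hK₁
    have d1 : finrank K₁ M = 2 ^ n := by
      rw [IntermediateField.finrank_fixedField_eq_card, hH]
    clear_value K₁
    have d2 : finrank K K₁ = 2 := by
      have h4 := finrank_mul_finrank K K₁ M
      rw [hM, d1, pow_succ, mul_comm] at h4
      exact Nat.eq_of_mul_eq_mul_left (by positivity) h4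
    have hN : Normal L Ω := normal_of_top (sup_top hM hL hΩ)
    obtain ⟨L₁, i1, t1, nf, d3, m1, hs, hs2⟩ := step_cov2 (K₁ := K₁) (M := M) h2 d2 hL C hC1 hC2
      hC3 hC4 hC5
    have h2' : (2 : K₁) ≠ 0 := by
      have := (map_ne_zero (algebraMap K K₁)).2 h2
      rwa [map_ofNat] at this
    have h9 := ih K₁ L₁ M Ω h2' d1 d3 hΩ C hC1 hC2 (by
      intro σ x hx
      let τ : Ω ≃ₐ[L] Ω := AlgEquiv.ofRingEquiv (f := σ.toRingEquiv)
        (fun l => σ.commutes ⟨algebraMap L Ω l, m1 l⟩)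
      exact hC3 τ x hx) (N ^ 2) (N' * N) hs hs2
    have e : N' * N * (N ^ 2) ^ (2 ^ n - 1) = N' * N ^ (2 ^ (n + 1) - 1) := by
      rw [← pow_mul, mul_assoc, ← pow_succ']
      congr 2
      have : 1 ≤ 2 ^ n := Nat.one_le_two_pow
      rw [pow_succ]
      omega
    rwa [e] at h9

end Pool.Agent.H30GR
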