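import Mathlib

/-!
# Abstract groups: the Kummer sequence, the rank and the quotient modulo two
-/

set_option autoImplicit false
set_option linter.all false

namespace Pool.Agent.H30GR

section

variable {G : Type} [AddCommGroup G]

/-- The reduction modulo two of a free group. -/
theorem free_mod_two {V : Type} [AddCommGroup V] [Module.Finite ℤ V] [Module.Free ℤ V] :
    ∃ ρ : V →+ (Fin (Module.finrank ℤ V) → ZMod 2), Function.Surjective ρ ∧
      ∀ x, ρ x = 0 → ∃ y, 2 • y = x := by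
  obtain ⟨e⟩ : Nonempty (V ≃ₗ[ℤ] (Fin (Module.finrank ℤ V) → ℤ)) :=
    ⟨(Module.finBasis ℤ V).equivFun⟩
  refine ⟨(AddMonoidHom.compLeft (Int.castAddHom (ZMod 2)) _).comp e.toAddEquiv.toAddMonoidHom,
    ?_, ?_⟩
  · intro y
    choose z hz using fun i => ZMod.intCast_surjective (y i)
    refine ⟨e.symm z, funext fun i => ?_⟩
    show (((e (e.symm z)) i : ℤ) : ZMod 2) = y i
    rw [LinearEquiv.apply_symm_apply, hz]
  · intro x hx
    have h1 : ∀ i, ∃ c : ℤ, e x i = 2 * c := by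
      intro i
      have h3 : ((e x i : ℤ) : ZMod 2) = 0 := congrFun hx i
      rw [ZMod.intCast_zmod_eq_zero_iff_dvd] at h3
      exact_mod_cast h3
    choose c hc using h1
    refine ⟨e.symm c, ?_⟩
    apply e.injective
    rw [map_nsmul, LinearEquiv.apply_symm_apply]
    funext i
    rw [hc]
    simp

/-- A finitely generated abelian group without elements of order two. -/
theorem card_mod_two (hfg : AddGroup.FG G) (h2 : ∀ x : G, 2 • x = 0 → x = 0) :
    Nat.card (G ⧸ (nsmulAddMonoidHom 2 : G →+ G).range) = 2 ^ Module.finrank ℤ G := by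
  haveI : Module.Finite ℤ G := Module.Finite.iff_addGroup_fg.2 hfg
  obtain ⟨T, hT⟩ : ∃ T, T = Submodule.torsion ℤ G := ⟨_, rfl⟩
  haveI : IsNoetherian ℤ G := inferInstance
  haveI : Module.Finite ℤ T := inferInstance
  -- the torsion is finite
  have hTtor : Module.IsTorsion ℤ T := by
    rw [hT]
    exact Submodule.torsion_isTorsion
  haveI hTfin : Finite T := Module.finite_of_fg_torsion T hTtor
  have hT2 : ∀ t ∈ T, ∃ u ∈ T, 2 • u = t := by
    have hinj : Function.Injective (nsmulAddMonoidHom 2 : T →+ T) := by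
      rw [injective_iff_map_eq_zero]
      intro a ha
      apply Subtype.ext
      apply h2
      have := congrArg Subtype.val ha
      simpa using this
    have hsurj := Finite.surjective_of_injective hinj
    intro t ht
    obtain ⟨u, hu⟩ := hsurj ⟨t, ht⟩
    refine ⟨u, u.2, ?_⟩
    have := congrArg Subtype.val hu
    simpa using this
  haveI : Module.Finite ℤ (G ⧸ T) := inferInstance
  haveI : Module.IsTorsionFree ℤ (G ⧸ T) := by
    rw [hT]
    infer_instance
  haveI : Module.Free ℤ (G ⧸ T) := Module.free_of_finite_type_torsion_free'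
  have hrank : Module.finrank ℤ (G ⧸ T) = Module.finrank ℤ G := by
    exact finrank_quotient_eq_of_le_torsion hT.le
  obtain ⟨ρ, hρ1, hρ2⟩ := free_mod_two (V := G ⧸ T)
  obtain ⟨ρ', hρ'⟩ : ∃ ρ' : G →+ (Fin (Module.finrank ℤ (G ⧸ T)) → ZMod 2),
      ρ' = ρ.comp T.mkQ.toAddMonoidHom := ⟨_, rfl⟩
  have hsurj : Function.Surjective ρ' := by
    rw [hρ']
    exact hρ1.comp T.mkQ_surjective
  have hker : (nsmulAddMonoidHom 2 : G →+ G).range = ρ'.ker := by
    ext x
    constructor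
    · rintro ⟨y, rfl⟩
      show ρ' (2 • y) = 0
      rw [map_nsmul]
      funext i
      show 2 • (ρ' y i) = 0
      rw [nsmul_eq_mul]
      have : ((2 : ℕ) : ZMod 2) = 0 := by decide
      rw [this, zero_mul]
    · intro hx
      have h1 : ρ (T.mkQ x) = 0 := by
        have : ρ' x = 0 := hx
        rw [hρ'] at this
        exact this
      obtain ⟨y, hy⟩ := hρ2 _ h1
      obtain ⟨y, rfl⟩ := T.mkQ_surjective y
      have h5 : x - 2 • y ∈ T := by
        rw [← Submodule.Quotient.mk_eq_zero, Submodule.Quotient.mk_sub, sub_eq_zero]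
        exact hy.symm
      obtain ⟨u, -, hu⟩ := hT2 _ h5
      refine ⟨y + u, ?_⟩
      show 2 • (y + u) = x
      rw [nsmul_add, hu]
      abel
  rw [hker, Nat.card_congr (QuotientAddGroup.quotientKerEquivOfSurjective ρ' hsurj).toEquiv,
    Nat.card_fun, Nat.card_zmod, Nat.card_eq_fintype_card, Fintype.card_fin, hrank]

end

/-- The Kummer sequence in terms of cocycles. -/
theorem card_abs {A C : Type} [AddCommGroup A] [AddCommGroup C] (δ : A →+ C)
    (Z S : AddSubgroup C) (hS : ∀ f, f ∈ S ↔ f ∈ Z ∧ 2 • f = 0) (hδ : ∀ a, δ a ∈ Z)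
    (hA : ∀ a : A, ∃ b, 2 • b = a) :
    Nat.card (S ⧸ (((nsmulAddMonoidHom 2 : A →+ A).ker).map δ).addSubgroupOf S) =
      Nat.card {x : Z ⧸ (δ.range).addSubgroupOf Z // 2 • x = 0} *
        Nat.card (δ.ker ⧸ (nsmulAddMonoidHom 2 : δ.ker →+ δ.ker).range) := by
  obtain ⟨N, hN⟩ : ∃ N, N = (((nsmulAddMonoidHom 2 : A →+ A).ker).map δ).addSubgroupOf S :=
    ⟨_, rfl⟩
  have hSZ : S ≤ Z := fun f hf => ((hS f).1 hf).1
  obtain ⟨φ, hφ⟩ : ∃ φ : S →+ Z ⧸ (δ.range).addSubgroupOf Z,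
      φ = (QuotientAddGroup.mk' _).comp (AddSubgroup.inclusion hSZ) := ⟨_, rfl⟩
  have hφ0 : ∀ s : S, φ s = 0 ↔ ∃ a, δ a = s := by
    intro s
    rw [hφ]
    show ((AddSubgroup.inclusion hSZ s : Z) : Z ⧸ (δ.range).addSubgroupOf Z) = 0 ↔ _
    rw [QuotientAddGroup.eq_zero_iff, AddSubgroup.mem_addSubgroupOf]
    rfl
  have hNm : ∀ s : S, s ∈ N ↔ ∃ a, 2 • a = 0 ∧ δ a = s := by
    intro s
    rw [hN, AddSubgroup.mem_addSubgroupOf]
    rfl
  have hNφ : N ≤ φ.ker := by
    intro s hs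
    obtain ⟨a, -, ha⟩ := (hNm s).1 hs
    exact (hφ0 s).2 ⟨a, ha⟩
  have h1 : Nat.card (S ⧸ N) = N.relIndex φ.ker * φ.ker.index :=
    (AddSubgroup.relIndex_mul_index hNφ).symm
  have h2 : φ.ker.index = Nat.card {x : Z ⧸ (δ.range).addSubgroupOf Z // 2 • x = 0} := by
    rw [AddSubgroup.index_ker]
    refine Nat.card_congr (Equiv.subtypeEquivRight fun x => ?_)
    constructor
    · rintro ⟨s, rfl⟩
      rw [← map_nsmul]
      have : (2 : ℕ) • s = 0 := by
        apply Subtype.ext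
        exact ((hS s).1 s.2).2
      rw [this, map_zero]
    · intro hx
      obtain ⟨z, rfl⟩ := QuotientAddGroup.mk_surjective x
      have h3 : (((2 : ℕ) • z : Z) : Z ⧸ (δ.range).addSubgroupOf Z) = 0 := hx
      rw [QuotientAddGroup.eq_zero_iff, AddSubgroup.mem_addSubgroupOf] at h3
      obtain ⟨a, ha⟩ := h3
      obtain ⟨b, rfl⟩ := hA a
      have h4 : (z : C) - δ b ∈ S := by
        rw [hS]
        refine ⟨Z.sub_mem z.2 (hδ b), ?_⟩
        rw [nsmul_sub, ← map_nsmul, ha]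
        simp
      refine ⟨⟨_, h4⟩, ?_⟩
      rw [hφ]
      show ((AddSubgroup.inclusion hSZ ⟨_, h4⟩ : Z) : Z ⧸ (δ.range).addSubgroupOf Z) = _
      rw [QuotientAddGroup.eq, AddSubgroup.mem_addSubgroupOf]
      refine ⟨b, ?_⟩
      show δ b = -((z : C) - δ b) + z
      abel
  -- the kernel
  obtain ⟨D, hD⟩ : ∃ D : AddSubgroup A, ∀ a, a ∈ D ↔ 2 • δ a = 0 :=
    ⟨((nsmulAddMonoidHom 2 : C →+ C).comp δ).ker, fun a => Iff.rfl⟩
  obtain ⟨ψ, hψ⟩ : ∃ ψ : D →+ S, ∀ a, ((ψ a : S) : C) = δ a :=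
    ⟨(δ.comp D.subtype).codRestrict S fun a => (hS _).2 ⟨hδ _, (hD _).1 a.2⟩, fun a => rfl⟩
  obtain ⟨χ, hχ⟩ : ∃ χ : D →+ δ.ker, ∀ a, ((χ a : δ.ker) : A) = 2 • (a : A) :=
    ⟨((nsmulAddMonoidHom 2 : A →+ A).comp D.subtype).codRestrict δ.ker fun a => by
      show δ (2 • (a : A)) = 0
      rw [map_nsmul]
      exact (hD _).1 a.2, fun a => rfl⟩
  have hrange : φ.ker = ψ.range := by
    ext s
    constructor
    · intro hs
      obtain ⟨a, ha⟩ := (hφ0 s).1 hs
      refine ⟨⟨a, (hD a).2 ?_⟩, Subtype.ext ?_⟩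
      · rw [ha]
        exact ((hS s).1 s.2).2
      · rw [hψ]
        exact ha
    · rintro ⟨a, rfl⟩
      exact (hφ0 _).2 ⟨a, (hψ a).symm⟩
  have hsurj : Function.Surjective χ := by
    intro b
    obtain ⟨a, ha⟩ := hA b
    refine ⟨⟨a, (hD a).2 ?_⟩, Subtype.ext ?_⟩
    · rw [← map_nsmul, ha]
      exact b.2
    · rw [hχ]
      exact ha
  have hcomap : N.comap ψ = ((nsmulAddMonoidHom 2 : δ.ker →+ δ.ker).range).comap χ := by
    ext a
    rw [AddSubgroup.mem_comap, AddSubgroup.mem_comap, hNm]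
    constructor
    · rintro ⟨t, ht, hta⟩
      rw [hψ] at hta
      refine ⟨⟨(a : A) - t, ?_⟩, Subtype.ext ?_⟩
      · show δ ((a : A) - t) = 0
        rw [map_sub, hta, sub_self]
      · rw [hχ]
        show 2 • ((a : A) - t) = 2 • (a : A)
        rw [nsmul_sub, ht, sub_zero]
    · rintro ⟨b, hb⟩
      have hb' : 2 • (b : A) = 2 • (a : A) := by
        rw [← hχ, ← hb]
        rfl
      refine ⟨(a : A) - b, ?_, ?_⟩
      · rw [nsmul_sub, hb', sub_self]
      · rw [hψ, map_sub]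
        have : δ (b : A) = 0 := b.2
        rw [this, sub_zero]
  have h3 : N.relIndex φ.ker = Nat.card (δ.ker ⧸ (nsmulAddMonoidHom 2 : δ.ker →+ δ.ker).range) := by
    rw [hrange, ← AddSubgroup.index_comap, hcomap, AddSubgroup.index_comap_of_surjective _ hsurj]
    rfl
  rw [← hN, h1, h2, h3, mul_comm]

end Pool.Agent.H30GR
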