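import Pool.Agent.H30GR.TopR

/-!
# The bound for the 2-Selmer groups
-/

set_option autoImplicit false
set_option linter.all false

open Polynomial IsDedekindDomain WeierstrassCurve WeierstrassCurve.Affine NumberField
open Pool.Agent.TH115.GD
open scoped Classical IntermediateField

namespace Pool.Agent.H30GR

open Pool.Agent.N922.PQ
open Pool.Agent.H30EV
open Pool.Agent.N692.PMTOW
open Pool.Agent.N874.PP (Tup chA chB gq tau Two Ev Sq1 U0 sW IsBeta Rt sg)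
open Pool.Agent.N874.PM (PLoc Lies SelR ShaR)

/-- The 2-Selmer group has at most `N` elements: pairwise different classes are at most `N`. -/
def SelBd (R : Type) {M : Type} [Field M] [CommRing R] [IsDedekindDomain R] [Algebra R M]
    [IsFractionRing R M] (W : WeierstrassCurve M) (N : ℕ) : Prop :=
  ∀ (m : ℕ) (z : Fin m → (Sep M ≃ₐ[M] Sep M) → Pt W (Sep M)), (∀ i, IsCoc W (z i)) →
    (∀ i σ, (2 : ℕ) • z i σ = 0) →
    (∀ i, ∀ v : HeightOneSpectrum R, LocTriv W (Comp R M v) (Sep (Comp R M v)) (z i)) →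
    (∀ i j, (∃ T : Pt W (Sep M), (2 : ℕ) • T = 0 ∧
      ∀ σ, z i σ - z j σ = act W (rs M σ) T - T) → i = j) → m ≤ N

section coc

variable {M : Type} [Field M] {A B : M}

theorem coc_sub {W : WeierstrassCurve M} {f g : (Sep M ≃ₐ[M] Sep M) → Pt W (Sep M)}
    (hf : IsCoc W f) (hg : IsCoc W g) : IsCoc W (fun σ => f σ - g σ) := by
  refine ⟨?_, fun σ τ => ?_⟩
  · have h1 := hf.lc
    have h2 := hg.lc
    exact h1.comp₂ h2 (fun a b => a - b)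
  · have h1 := hf.mul σ τ
    have h2 := hg.mul σ τ
    simp only [h1, h2, map_sub]
    abel

theorem beta_sub (h6 : (6 : M) ≠ 0) (hd : 4 * A ^ 3 + 27 * B ^ 2 ≠ 0)
    (hirr : Irreducible (X ^ 3 + C A * X + C B : M[X]))
    {f g : (Sep M ≃ₐ[M] Sep M) → Pt (sW A B) (Sep M)}
    (h2f : ∀ σ, (2 : ℕ) • f σ = 0) (h2g : ∀ σ, (2 : ℕ) • g σ = 0) {β γ : Sep M → Sep M}
    (hβ : IsBeta A B f β) (hγ : IsBeta A B g γ) :
    IsBeta A B (fun σ => f σ - g σ) (fun t => β t * γ t) := by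
  obtain ⟨t₁, t₂, t₃, n1, n2, n3, r1, r2, r3, hall⟩ :=
    Pool.Agent.N187.PP.exists_roots h6 hirr
  have hgp := (Pool.Agent.N630.PP.gp3 M (Sep M) A B h6 hd t₁ t₂ t₃ r1 r2 r3 n1 n2 n3).2.1
  intro t ht
  obtain ⟨b1, b2⟩ := hβ t ht
  obtain ⟨c1, c2⟩ := hγ t ht
  refine ⟨mul_ne_zero b1 c1, fun σ => ?_⟩
  have ht' : Rt A B (σ t) := by
    have h3 := congrArg σ (show t ^ 3 + algebraMap M (Sep M) A * t + algebraMap M (Sep M) B = 0
      from ht)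
    rw [map_zero, map_add, map_add, map_mul, map_pow, σ.commutes, σ.commutes] at h3
    exact h3
  have e : f σ - g σ = f σ + g σ := by
    have h3 := h2g σ
    rw [two_nsmul] at h3
    rw [sub_eq_iff_eq_add, add_assoc, h3, add_zero]
  have h4 := hgp (f σ) (g σ) (σ t) (h2f σ) (h2g σ) ht'
  show σ (β t * γ t) = sg (f σ - g σ) (σ t) * (β (σ t) * γ (σ t))
  rw [map_mul, b2, c2, e, h4]
  ring

end coc

section abs

variable {L M Ω : Type} [Field L] [NumberField L] [Field M] [NumberField M]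
  [Field Ω] [NumberField Ω] [Algebra L Ω] [Algebra M Ω]
  [IsGalois ℚ M]

/-- The conditions over the extension. -/
def CC (M : Type) {L Ω : Type} [Field L] [NumberField L] [Field M] [NumberField M]
    [Field Ω] [NumberField Ω] [Algebra L Ω] [Algebra M Ω] (a b d : ℤ) (J : Finset ℤ)
    (R : Finset ℕ) (θ : L) (x : Ω) : Prop :=
  Cs (𝓞 Ω) J (irr a b ∪ zs R) (algebraMap L Ω θ) x ∧
    C2w M (𝓞 M) (a * d ^ 2) (b * d ^ 3) (algebraMap L Ω ((d : L) * θ)) x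

theorem zs_pr {R : Finset ℕ} (hR : ∀ l ∈ R, l.Prime) {a b : ℤ} :
    ∀ P ∈ irr a b ∪ zs R, IsPr P := by
  rintro P (hP | ⟨l, hl, rfl⟩)
  · exact hP.1
  · exact isPr_nat (hR l hl)

/-- The bound for the classes over the extension. -/
theorem cov_top (H : Parts2) (hI : S_INT) {a b d : ℤ} {θ : L} {X' : ℕ}
    {S T J : Finset ℤ} {s A B : ℤ → ℤ} (hc : IsCub a b θ) (hS : GoodS S s)
    (hF : Fam X' S s T A B a b) (hT : GoodT T A B) (hJ : J ⊆ S) (hsel : HSel a b J θ)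
    {n : ℕ} (hM : Module.finrank ℚ M = 2 ^ n) (hΩ : Module.finrank M Ω = 3)
    (htop : M⟮algebraMap L Ω θ⟯ = ⊤) (ha4 : a % 4 = 3) (hb4 : b % 4 = 3)
    (hd4 : d % 4 = 1 ∨ d % 4 = 2) (hu2 : Unr M 2) {R₁ R₂ : Finset ℕ}
    (hR : ∀ l ∈ R₁ ∪ R₂, l.Prime) (hJR : ∀ Q ∈ J, Q ∉ zs (R₁ ∪ R₂))
    (hu : ∀ P : ℤ, IsPr P → P ∉ irr a b ∪ zs (R₁ ∪ R₂) → Unr M P) (hr : ∀ Q ∈ J, Res M Q) :
    Cov M Ω (fun x => CC M a b d J (R₁ ∪ R₂) θ x ∧ EvA Ω R₁ x)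
      ((∏ l ∈ R₂, (1 + nz a b l)) * (∏ l ∈ R₁ ∪ R₂, (1 + nz a b l)) ^ (2 ^ n - 1)) := by
  have h2K : (2 : ℚ) ≠ 0 := by norm_num
  have hd0 : d ≠ 0 := by
    rintro rfl
    omega
  have htop2 : im ℚ M Ω ⊔ im ℚ L Ω = ⊤ := sup_top hM hc.rank hΩ
  have ha : Odd a := by
    rw [Int.odd_iff]
    omega
  have hb : Odd b := by
    rw [Int.odd_iff]
    omega
  obtain ⟨R, hRdef⟩ : ∃ R, R = R₁ ∪ R₂ := ⟨_, rfl⟩
  rw [← hRdef] at hR hJR hu ⊢
  have hJT : ∀ Q ∈ J, Q ∉ irr a b ∪ zs R := by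
    rintro Q hQ (h | h)
    · apply h.2 0
      have := hF.rb Q (hJ hQ)
      simpa using this
    · exact hJR Q hQ h
  have hTp : ∀ P ∈ irr a b ∪ zs R, IsPr P := zs_pr hR
  -- the twisted data
  have hc' : IsCub (a * d ^ 2) (b * d ^ 3) ((d : L) * θ) := isCub_tw hd0 hc
  have hnr0 : ∀ w : HeightOneSpectrum (𝓞 M), Ov 2 w → ∀ t : w.adicCompletion M,
      t ^ 3 + (a : w.adicCompletion M) * t + (b : w.adicCompletion M) ≠ 0 :=
    fun w hw => H.nr M (𝓞 M) n hM w hw a b ha hb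
  have hnr : ∀ w : HeightOneSpectrum (𝓞 M), Ov 2 w → ∀ t : w.adicCompletion M,
      t ^ 3 + ((a * d ^ 2 : ℤ) : w.adicCompletion M) * t +
        ((b * d ^ 3 : ℤ) : w.adicCompletion M) ≠ 0 := by
    intro w hw t
    exact no_root_tw' (hnr0 w hw) hd0 t
  have hdsc' : dsc (a * d ^ 2) (b * d ^ 3) ≠ 0 := by
    have e : dsc (a * d ^ 2) (b * d ^ 3) = d ^ 6 * dsc a b := by
      rw [dsc, dsc]
      ring
    rw [e]
    exact mul_ne_zero (pow_ne_zero _ hd0) hF.sq.ne_zero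
  have htop' : M⟮algebraMap L Ω ((d : L) * θ)⟯ = ⊤ := by
    rw [eq_top_iff, ← htop, IntermediateField.adjoin_simple_le_iff]
    have hdL : (d : Ω) ≠ 0 := by exact_mod_cast hd0
    have e : algebraMap L Ω θ = ((d : ℤ) : Ω)⁻¹ * algebraMap L Ω ((d : L) * θ) := by
      rw [map_mul, map_intCast, inv_mul_cancel_left₀ hdL]
    rw [e]
    refine mul_mem (inv_mem (intCast_mem _ d)) (IntermediateField.mem_adjoin_simple_self M _)
  obtain ⟨c1, c2, c3⟩ := H.c2w L M Ω (𝓞 M) (a * d ^ 2) (b * d ^ 3) ((d : L) * θ) hdsc' hnr hc'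
    hΩ htop'
  -- descent
  have hdown : ∀ x : L, Cs (𝓞 Ω) J (irr a b ∪ zs R) (algebraMap L Ω θ) (algebraMap L Ω x) →
      Cs (𝓞 L) J (irr a b ∪ zs R) θ x := fun x hx => cs_down (𝓞 L) (𝓞 Ω)
    (fun 𝔓 h𝔓 => by
        obtain ⟨𝔓', h1⟩ := exists_above (Ω := Ω) 𝔓
        obtain ⟨P, hP, hP𝔓⟩ := exists_below 𝔓
        refine ⟨𝔓', fun x => ?_⟩
        rw [← h1]
        refine unr_top hP htop2 (hu P hP fun h => h𝔓 P h hP𝔓) 𝔓' ?_ x
        rw [← h1] at hP𝔓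
        exact (ov_under P 𝔓').1 hP𝔓)
    (fun Q hQ 𝔓' h1 s hs => dens_top (hS Q (hJ hQ)).1 htop2
        (hu Q (hS Q (hJ hQ)).1 (hJT Q hQ)) (hr Q hQ) 𝔓' h1 s hs)
    (fun Q hQ 𝔓 h P hP hP𝔓 => hJT Q hQ (by
        have : Q = P := below_unique (hS Q (hJ hQ)).1 (hTp P hP) h hP𝔓
        rw [this]
        exact hP)) hx
  refine tow_cov2 R₁ n ℚ L M Ω h2K hM hc.rank hΩ (CC M a b d J R θ) (fun x hx => ⟨cs_sq hx, c1 x⟩)
    (fun x y hx hy h h' => ⟨cs_mul H.p.cls (fun Q hQ => ⟨(hS Q (hJ hQ)).1.2,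
        not_dvd_two (hS Q (hJ hQ)).2.1 (hS Q (hJ hQ)).1.1 (hS Q (hJ hQ)).1.2⟩)
      (fun Q hQ 𝔓 h1 h2 => odd_top' H.p.exq htop2 hc hF.sq (hS Q (hJ hQ)).1
        (hF.rb Q (hJ hQ)) (fam_ns hS hF (hJ hQ))
        (hu Q (hS Q (hJ hQ)).1 (hJT Q hQ)) 𝔓 h1 h2) hx hy h.1 h'.1, c2 x y h.2 h'.2⟩)
    (fun σ x h => ⟨cs_sig H.p.sig rfl σ h.1, c3 σ x h.2⟩) _ _ ?_ ?_
  · refine (base_cov H hI hc hS hT hF hJ hsel hR).mono fun x hx hN hC => ⟨hdown x hC.1, ?_⟩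
    exact base_two' (Ω := Ω) hc ha4 hb4 hd4 hu2 hx hN hC.2
  · have hR2 : ∀ l ∈ R₂, l.Prime := fun l hl => hR l (by
      rw [hRdef]
      exact Finset.mem_union_right _ hl)
    refine (base_cov H hI hc hS hT hF hJ hsel hR2).mono ?_
    rintro x hx hN ⟨hC, hE⟩
    have h1 := hdown x hC.1
    refine ⟨⟨fun 𝔓 hP hQ => ?_, h1.u0, h1.eq⟩,
      base_two' (Ω := Ω) hc ha4 hb4 hd4 hu2 hx hN hC.2⟩
    by_cases h3 : ∃ l ∈ R₁, Ov (l : ℤ) 𝔓
    · obtain ⟨l, hl, hl𝔓⟩ := h3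
      exact hE l hl 𝔓 hl𝔓
    · refine h1.ev 𝔓 ?_ hQ
      rintro P (hP' | ⟨l, hl, rfl⟩) hP𝔓
      · exact hP P (Or.inl hP') hP𝔓
      · rw [hRdef] at hl
        rcases Finset.mem_union.1 hl with hl | hl
        · exact h3 ⟨l, hl, hP𝔓⟩
        · exact hP (l : ℤ) (Or.inr ⟨l, hl, rfl⟩) hP𝔓

include Ω in
/-- The bound for the 2-Selmer groups of the twists over the extension. -/
theorem sel_cov (H : Parts2) (hI : S_INT) {a b d : ℤ} {θ : L} {X' : ℕ}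
    {S T J : Finset ℤ} {s A B : ℤ → ℤ} (hc : IsCub a b θ) (hS : GoodS S s)
    (hF : Fam X' S s T A B a b) (hT : GoodT T A B) (hJ : J ⊆ S) (hsel : HSel a b J θ)
    {n : ℕ} (hM : Module.finrank ℚ M = 2 ^ n) (hΩ : Module.finrank M Ω = 3)
    (htop : M⟮algebraMap L Ω θ⟯ = ⊤) (ha4 : a % 4 = 3) (hb4 : b % 4 = 3)
    (hd4 : d % 4 = 1 ∨ d % 4 = 2) (hu2 : Unr M 2) {R₁ R₂ : Finset ℕ}
    (hR : ∀ l ∈ R₁ ∪ R₂, l.Prime) (hJR : ∀ Q ∈ J, Q ∉ zs (R₁ ∪ R₂))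
    (hR₁ : ∀ l ∈ R₁, ((l : ℤ) ∉ irr a b ∧ ¬ (l : ℤ) ∣ d) ∧ ¬ (l : ℤ) ∣ dsc a b)
    (hu : ∀ P : ℤ, IsPr P → P ∉ irr a b ∪ zs (R₁ ∪ R₂) → Unr M P) (hr : ∀ Q ∈ J, Res M Q)
    (hd : ∀ P : ℤ, IsPr P → P ∣ d → P ∈ irr a b ∪ zs (R₁ ∪ R₂)) :
    SelBd (𝓞 M) (sW (((a * (d * ∏ Q ∈ J, Q) ^ 2 : ℤ)) : M)
      (((b * (d * ∏ Q ∈ J, Q) ^ 3 : ℤ)) : M))
      ((∏ l ∈ R₂, (1 + nz a b l)) * (∏ l ∈ R₁ ∪ R₂, (1 + nz a b l)) ^ (2 ^ n - 1)) := by
  have h6M : (6 : M) ≠ 0 := by norm_num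
  have hd0 : d ≠ 0 := by
    rintro rfl
    omega
  have htop2 : im ℚ M Ω ⊔ im ℚ L Ω = ⊤ := sup_top hM hc.rank hΩ
  have ha : Odd a := by
    rw [Int.odd_iff]
    omega
  have hb : Odd b := by
    rw [Int.odd_iff]
    omega
  have hcov := cov_top (Ω := Ω) H hI hc hS hF hT hJ hsel hM hΩ htop ha4 hb4 hd4 hu2 hR hJR hu hr
  have hJT : ∀ Q ∈ J, Q ∉ irr a b ∪ zs (R₁ ∪ R₂) := by
    rintro Q hQ (h | h)
    · apply h.2 0
      have := hF.rb Q (hJ hQ)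
      simpa using this
    · exact hJR Q hQ h
  have hTp : ∀ P ∈ irr a b ∪ zs (R₁ ∪ R₂), IsPr P := zs_pr hR
  have h2T : (2 : ℤ) ∈ irr a b := ⟨(hT.2.2 2 hT.1).1, fam_nt hT hF hT.1⟩
  have h3T : (3 : ℤ) ∈ irr a b := ⟨(hT.2.2 3 hT.2.1).1, fam_nt hT hF hT.2.1⟩
  have hJp : ∀ Q ∈ J, IsPr Q := fun Q hQ => (hS Q (hJ hQ)).1
  -- the twisted data
  obtain ⟨a', ha'⟩ : ∃ a' : ℤ, a' = a * d ^ 2 := ⟨_, rfl⟩
  obtain ⟨b', hb'⟩ : ∃ b' : ℤ, b' = b * d ^ 3 := ⟨_, rfl⟩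
  obtain ⟨θ', hθ'⟩ : ∃ θ' : L, θ' = (d : L) * θ := ⟨_, rfl⟩
  have hc' : IsCub a' b' θ' := by
    rw [ha', hb', hθ']
    exact isCub_tw hd0 hc
  have hnr0 : ∀ w : HeightOneSpectrum (𝓞 M), Ov 2 w → ∀ t : w.adicCompletion M,
      t ^ 3 + (a : w.adicCompletion M) * t + (b : w.adicCompletion M) ≠ 0 :=
    fun w hw => H.nr M (𝓞 M) n hM w hw a b ha hb
  have hnr : ∀ w : HeightOneSpectrum (𝓞 M), Ov 2 w → ∀ t : w.adicCompletion M,
      t ^ 3 + (a' : w.adicCompletion M) * t + (b' : w.adicCompletion M) ≠ 0 := by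
    intro w hw t
    rw [ha', hb']
    exact no_root_tw' (hnr0 w hw) hd0 t
  have hdsc' : dsc a' b' ≠ 0 := by
    have e : dsc a' b' = d ^ 6 * dsc a b := by
      rw [ha', hb', dsc, dsc]
      ring
    rw [e]
    exact mul_ne_zero (pow_ne_zero _ hd0) hF.sq.ne_zero
  have hD1 : 0 < (∏ Q ∈ J, Q) := Finset.prod_pos fun Q hQ => (hS Q (hJ hQ)).1.1
  have hD0 : (∏ Q ∈ J, Q) ≠ 0 := hD1.ne'
  have hD8 : (∏ Q ∈ J, Q) % 8 = 1 := prod_mod8 fun Q hQ => (hS Q (hJ hQ)).2.1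
  obtain ⟨D, hDdef⟩ : ∃ D : ℤ, D = ∏ Q ∈ J, Q := ⟨_, rfl⟩
  have eA : a * (d * ∏ Q ∈ J, Q) ^ 2 = a' * D ^ 2 := by
    rw [ha', hDdef]
    ring
  have eB : b * (d * ∏ Q ∈ J, Q) ^ 3 = b' * D ^ 3 := by
    rw [hb', hDdef]
    ring
  rw [← hDdef] at hD1 hD0 hD8
  rw [eA, eB]
  obtain ⟨w₀, hw₀⟩ := exists_over (𝓞 M)
  have hirrD := irr_tw' (F := M) (a := a' * D ^ 2) (b := b' * D ^ 3)
    (fun t ht => by
      apply no_root_tw' (hnr w₀ hw₀) hD0 (algebraMap M _ t)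
      have h1 := congrArg (algebraMap M (w₀.adicCompletion M)) ht
      rw [map_zero, map_add, map_add, map_mul, map_pow, map_intCast, map_intCast] at h1
      exact h1)
  have hdisc : 4 * (((a' * D ^ 2 : ℤ)) : M) ^ 3 +
      27 * (((b' * D ^ 3 : ℤ)) : M) ^ 2 ≠ 0 := by
    have e : 4 * (((a' * D ^ 2 : ℤ)) : M) ^ 3 +
      27 * (((b' * D ^ 3 : ℤ)) : M) ^ 2 =
        ((D ^ 6 * dsc a' b' : ℤ) : M) := by
      simp only [dsc, Int.cast_mul, Int.cast_add, Int.cast_pow, Int.cast_ofNat]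
      ring
    rw [e, Int.cast_ne_zero]
    exact mul_ne_zero (pow_ne_zero _ hD0) hdsc'
  have hroot : (algebraMap L Ω θ') ^ 3 + (a' : Ω) * algebraMap L Ω θ' + (b' : Ω) = 0 := by
    have h1 := congrArg (algebraMap L Ω) hc'.root
    rw [map_zero, map_add, map_add, map_mul, map_pow, map_intCast, map_intCast] at h1
    exact h1
  have htop' : M⟮algebraMap L Ω θ'⟯ = ⊤ := by
    rw [eq_top_iff, ← htop, IntermediateField.adjoin_simple_le_iff]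
    have hdL : (d : Ω) ≠ 0 := by exact_mod_cast hd0
    have e : algebraMap L Ω θ = ((d : ℤ) : Ω)⁻¹ * algebraMap L Ω θ' := by
      rw [hθ', map_mul, map_intCast, inv_mul_cancel_left₀ hdL]
    rw [e]
    refine mul_mem (inv_mem (intCast_mem _ d)) (IntermediateField.mem_adjoin_simple_self M _)
  have hmin : minpoly M (algebraMap L Ω θ') = ff M a' b' := by
    haveI : FiniteDimensional M Ω := FiniteDimensional.of_finrank_pos (by rw [hΩ]; norm_num)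
    have hint : IsIntegral M (algebraMap L Ω θ') := Algebra.IsIntegral.isIntegral _
    have hd : minpoly M (algebraMap L Ω θ') ∣ ff M a' b' := by
      apply minpoly.dvd
      simp only [ff, map_add, map_mul, map_pow, aeval_X, aeval_C, map_intCast]
      exact hroot
    have hdeg : (minpoly M (algebraMap L Ω θ')).natDegree = 3 := by
      rw [(Field.primitive_element_iff_minpoly_natDegree_eq M _).1 htop', hΩ]
    exact (Polynomial.eq_of_monic_of_dvd_of_natDegree_le (minpoly.monic hint) (ff_monic M a' b')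
      hd (by rw [hdeg, ff_deg])).symm
  have hRt : Rt (((a' * D ^ 2 : ℤ)) : M) (((b' * D ^ 3 : ℤ)) : M)
      ((D : Ω) * algebraMap L Ω θ') := by
    unfold Rt
    rw [map_intCast, map_intCast]
    simp only [Int.cast_mul, Int.cast_pow]
    linear_combination (D : Ω) ^ 3 * hroot
  have eθ : (D : Ω) * algebraMap L Ω θ' =
      (((d * ∏ Q ∈ J, Q : ℤ)) : Ω) * algebraMap L Ω θ := by
    rw [hθ', hDdef, map_mul, map_intCast, Int.cast_mul]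
    ring
  intro m z hz h2z hlz hdiff
  -- the element of a class
  have hone : ∀ f : (Sep M ≃ₐ[M] Sep M) →
      Pt (sW (((a' * D ^ 2 : ℤ)) : M) (((b' * D ^ 3 : ℤ)) : M)) (Sep M),
      IsCoc (sW (((a' * D ^ 2 : ℤ)) : M) (((b' * D ^ 3 : ℤ)) : M)) f → (∀ σ, (2 : ℕ) • f σ = 0) →
      (∀ v : HeightOneSpectrum (𝓞 M), LocTriv (sW (((a' * D ^ 2 : ℤ)) : M)
        (((b' * D ^ 3 : ℤ)) : M)) (Comp (𝓞 M) M v) (Sep (Comp (𝓞 M) M v)) f) →
      ∃ (β : Sep M → Sep M) (h : M[X]),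
        IsBeta (((a' * D ^ 2 : ℤ)) : M) (((b' * D ^ 3 : ℤ)) : M) f β ∧
        (∀ t : Sep M, Rt (((a' * D ^ 2 : ℤ)) : M) (((b' * D ^ 3 : ℤ)) : M) t →
          aeval t h = β t ^ 2) ∧
        aeval ((D : Ω) * algebraMap L Ω θ') h ≠ 0 ∧
        IsSquare (Algebra.norm M (aeval ((D : Ω) * algebraMap L Ω θ') h)) ∧
        CC M a b d J (R₁ ∪ R₂) θ (aeval ((D : Ω) * algebraMap L Ω θ') h) ∧
        EvA Ω R₁ (aeval ((D : Ω) * algebraMap L Ω θ') h) := by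
    intro f hf h2f hloc
    obtain ⟨β, hβ⟩ := H.p.gb M _ _ h6M hdisc hirrD f hf h2f
    obtain ⟨h, hh, hn⟩ := H.p.gn M _ _ h6M hdisc hirrD f hf h2f β hβ
    have hn2 := hn Ω _ hRt hΩ
    have hloc' : ∀ w : HeightOneSpectrum (𝓞 M), ¬ Ov 2 w → PLoc (w.adicCompletion M)
        (((a * (d * ∏ Q ∈ J, Q) ^ 2 : ℤ)) : M) (((b * (d * ∏ Q ∈ J, Q) ^ 3 : ℤ)) : M) h := by
      intro w hw
      rw [eA, eB]
      exact H.p.glr M (𝓞 M) _ _ h6M hdisc f hf h2f β h hβ hh w (val_two hw) (hloc w)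
    have hcs : Cs (𝓞 Ω) J (irr a b ∪ zs (R₁ ∪ R₂)) (algebraMap L Ω θ)
        (aeval ((D : Ω) * algebraMap L Ω θ') h) := by
      rw [eθ]
      exact cs_topR H.p.exq H.p.lie H.p.loc1 H.p.loc2 htop2 hc hS hF hJ hTp hJT (Or.inl h2T)
        (Or.inl h3T) hu hr hd (h := h) hloc' (by rw [← eθ]; exact hn2.1)
    have hc2 := c2w_sel (𝓞 M) H.p.glr2 H.sqd H.twg hD0 hD8 hnr hmin hdisc f hf h2f β h hβ hh hloc
    refine ⟨β, h, hβ, hh, hn2.1, hn2.2, ⟨hcs, ?_⟩, ?_⟩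
    · rw [ha', hb', hθ'] at hc2
      rw [← hθ']
      rw [← hθ'] at hc2
      exact hc2
    · intro l hl 𝔓 h𝔓
      rw [eθ]
      obtain ⟨w, hw, hO⟩ := H.p.lie M Ω (𝓞 M) (𝓞 Ω) 𝔓
      have hlp : IsPr (l : ℤ) := isPr_nat (hR l (Finset.mem_union_left _ hl))
      have hlw : Ov (l : ℤ) w := (hO _).2 h𝔓
      have hnot : ∀ {P : ℤ}, IsPr P → P ≠ (l : ℤ) → ¬ Ov P w := by
        intro P hP hPl h
        exact hPl (below_unique hP hlp h hlw)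
      have hndiv : ∀ {m : ℤ}, ¬ (l : ℤ) ∣ m → ¬ Ov m w := by
        intro m hm h
        exact one_mem_of ((hlp.2.irreducible.coprime_iff_not_dvd).2 hm) hlw h
      have h2l : (2 : ℤ) ≠ (l : ℤ) := fun h => (hR₁ l hl).1.1 (h ▸ h2T)
      have h3l : (3 : ℤ) ≠ (l : ℤ) := fun h => (hR₁ l hl).1.1 (h ▸ h3T)
      refine ev_at H.p.loc1 hc hJp hw (hnot h2T.1 h2l) (hnot h3T.1 h3l)
        (hndiv (hR₁ l hl).1.2) (fun Q hQ h => ?_) ?_ (hloc' w (hnot h2T.1 h2l))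
        (by rw [← eθ]; exact hn2.1)
      · refine hJR Q hQ ⟨l, Finset.mem_union_left _ hl, ?_⟩
        exact below_unique (hJp Q hQ) hlp h hlw
      · rw [val_eq_of _ w (hndiv (hR₁ l hl).2)]
        rw [← WithZero.exp_zero, WithZero.exp_le_exp]
        norm_num
  choose β h hβ hh hx0 hxN hxC hxE using fun i => hone (z i) (hz i) (h2z i) (hlz i)
  obtain ⟨Z, hZ, hcv⟩ := hcov
  choose r hrZ hr0 hsq using fun i => hcv _ (hx0 i) ⟨hxC i, hxE i⟩ (hxN i)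
  have hinj : Function.Injective r := by
    intro i j hij
    apply hdiff
    have hsq2 : IsSquare (aeval ((D : Ω) * algebraMap L Ω θ') (h i * h j)) := by
      obtain ⟨u, hu⟩ := hsq i
      obtain ⟨v, hv⟩ := hsq j
      rw [← hij] at hv
      have h0 := hr0 i
      refine ⟨u * v / r i, ?_⟩
      rw [map_mul]
      field_simp
      linear_combination (aeval ((D : Ω) * algebraMap L Ω θ') (h j) * r i) * hu + u * u * hv
    obtain ⟨T', hT', hT2⟩ := H.p.gt M _ _ h6M hdisc hirrD (fun σ => z i σ - z j σ)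
      (coc_sub (hz i) (hz j)) (fun σ => by rw [nsmul_sub, h2z, h2z, sub_zero])
      (fun t => β i t * β j t) (h i * h j)
      (beta_sub h6M hdisc hirrD (h2z i) (h2z j) (hβ i) (hβ j))
      (fun t ht => by rw [map_mul, hh i t ht, hh j t ht, mul_pow]) Ω _ hRt hΩ hsq2
    exact ⟨T', hT', hT2⟩
  have h1 : (Finset.univ.image r).card = m := by
    rw [Finset.card_image_of_injective _ hinj, Finset.card_univ, Fintype.card_fin]
  rw [← h1]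
  refine (Finset.card_le_card ?_).trans hZ
  intro y hy
  obtain ⟨i, -, rfl⟩ := Finset.mem_image.1 hy
  exact hrZ i

end abs

end Pool.Agent.H30GR
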