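import Pool.Agent.H30GR.Defs
import Pool.Agent.H30GR.Rank
import Pool.Agent.H30EV.Fin
import Pool.Agent.N650.PM.GFR
import Pool.Agent.Q286.EQ.MW

/-!
# The exact sequence `0 → E(F)/2 → Sel_2(E/F) → Ш(E/F)[2] → 0`
-/

set_option autoImplicit false
set_option linter.all false

open NumberField IsDedekindDomain WeierstrassCurve
open Pool.Agent.TH115.GD
open scoped Classical

namespace Pool.Agent.H30GR

open Pool.Agent.H30EV
open Pool.Agent.N874.PP (sW)

section gen

variable {F : Type} [Field F] [NumberField F] (W : WeierstrassCurve F)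

theorem loc_cob {L : Type} [Field L] [Algebra F L] (Q : Pts W (SeparableClosure F)) :
    LocallyTrivial W L (cob Q) := by
  intro ι
  refine ⟨mapPts W ι Q, fun τ σ hτ => ?_⟩
  have h5 : ι.comp σ.toAlgHom = (τ.toAlgHom.restrictScalars F).comp ι :=
    AlgHom.ext fun x => (hτ x).symm
  have h1 : mapPts W ι (mapPts W σ.toAlgHom Q) = mapPts W (ι.comp σ.toAlgHom) Q :=
    act_act W σ.toAlgHom ι Q
  have h2 : mapPts W (τ.toAlgHom.restrictScalars F) (mapPts W ι Q) =
      mapPts W ((τ.toAlgHom.restrictScalars F).comp ι) Q :=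
    act_act W ι (τ.toAlgHom.restrictScalars F) Q
  show mapPts W ι (mapPts W σ.toAlgHom Q - Q) = _
  rw [sub_eq_add_neg, mapPts_add, mapPts_neg, ← sub_eq_add_neg, h1, h2, h5]

/-- Coboundaries are locally trivial. -/
theorem cob_sha (Q : Pts W (SeparableClosure F)) : ShaCocycle W (cob Q) where
  continuous := (cob_isCoc (K := F) (F := F) (Ω := Sep F) W Q).lc
  cocycle := (cob_isCoc (K := F) (F := F) (Ω := Sep F) W Q).mul
  finite v := loc_cob W Q
  real ρ := by
    letI := ρ.toAlgebra
    exact loc_cob W Q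

theorem ker_fix (Q : Pt W (Sep F)) (h : cobHom W Q = 0) (σ : Sep F ≃ₐ[F] Sep F) :
    act W (rs F σ) Q = Q := by
  have h1 : act W (rs F σ) Q - Q = 0 := congrFun h σ
  exact sub_eq_zero.1 h1

/-- The points over `F` are the fixed points. -/
theorem ker_cob : Nonempty (Pts W F ≃+ (cobHom W).ker) := by
  have hmem : ∀ P : Pts W F, act W (incl F F (Sep F)) P ∈ (cobHom W).ker := by
    intro P
    show cob _ = 0
    funext σ
    exact sub_eq_zero.2 (rs_act_incl (K := F) (F := F) (Ω := Sep F) W σ P)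
  refine ⟨AddEquiv.ofBijective ((act W (incl F F (Sep F))).codRestrict (cobHom W).ker hmem)
    ⟨?_, ?_⟩⟩
  · intro P P' h
    exact act_inj W (incl F F (Sep F)) (congrArg Subtype.val h)
  · rintro ⟨Q, hQ⟩
    obtain ⟨P, hP⟩ := fixed_point (K := F) (F := F) W Q (fun σ => by
      exact ker_fix W Q hQ σ)
    exact ⟨P, Subtype.ext hP⟩

theorem card_ker_cob : Nat.card ((cobHom W).ker ⧸
      (nsmulAddMonoidHom 2 : (cobHom W).ker →+ (cobHom W).ker).range) =
    Nat.card (Pts W F ⧸ (nsmulAddMonoidHom 2 : Pts W F →+ Pts W F).range) := by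
  obtain ⟨e⟩ := ker_cob W
  refine (Nat.card_congr (QuotientAddGroup.congr _ _ e ?_).toEquiv).symm
  ext x
  constructor
  · rintro ⟨_, ⟨y, rfl⟩, rfl⟩
    exact ⟨e y, (map_nsmul e 2 y).symm⟩
  · rintro ⟨y, rfl⟩
    refine ⟨2 • e.symm y, ⟨e.symm y, rfl⟩, ?_⟩
    show e (2 • e.symm y) = 2 • y
    rw [map_nsmul, AddEquiv.apply_symm_apply]

end gen

section curve

variable {F : Type} [Field F] [NumberField F] {q : ℤ × ℤ}

theorem disc_F (hq : 4 * q.1 ^ 3 + 27 * q.2 ^ 2 ≠ 0) :
    4 * (q.1 : F) ^ 3 + 27 * (q.2 : F) ^ 2 ≠ 0 := by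
  exact_mod_cast hq

/-- The number of the elements of the 2-Selmer group. -/
theorem card_sel (hq : 4 * q.1 ^ 3 + 27 * q.2 ^ 2 ≠ 0) :
    Nat.card (Sel2 (curve F q)) = Nat.card {x : Sha (curve F q) // 2 • x = 0} *
      Nat.card (Pts (curve F q) F ⧸
        (nsmulAddMonoidHom 2 : Pts (curve F q) F →+ Pts (curve F q) F).range) := by
  rw [← card_ker_cob]
  refine card_abs (cobHom (curve F q)) (shaCocycles (curve F q)) (selmerCocycles (curve F q))
    (fun f => Iff.rfl) (fun Q => cob_sha _ Q) (fun Q => ?_)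
  obtain ⟨P, hP⟩ := Pool.Agent.N721.PP.half (by norm_num) (disc_F hq) Q
  exact ⟨P, (two_nsmul P).trans hP⟩

theorem pts_eq {x y : F} {h} (h0 : 2 • (WeierstrassCurve.Affine.Point.some x y h :
    ((curve F q).baseChange F).toAffine.Point) = 0) :
    x ^ 3 + (q.1 : F) * x + (q.2 : F) = 0 := by
  have h1 : (WeierstrassCurve.Affine.Point.some x y h :
    ((curve F q).baseChange F).toAffine.Point) + WeierstrassCurve.Affine.Point.some x y h = 0 := by
    rw [← two_nsmul]
    exact h0
  have hy : y = 0 := by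
    by_contra hy
    have h2 := h1
    rw [WeierstrassCurve.Affine.Point.add_self_of_Y_ne (by
      intro h3
      apply hy
      have e : ((curve F q).baseChange F).toAffine.negY x y = -y := by
        simp [WeierstrassCurve.Affine.negY, curve, WeierstrassCurve.baseChange]
      rw [e] at h3
      have h4 : (2 : F) * y = 0 := by linear_combination h3
      exact (mul_eq_zero.1 h4).resolve_left two_ne_zero)] at h2
    exact absurd h2 (by exact WeierstrassCurve.Affine.Point.some_ne_zero _)
  have h3 := h.1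
  rw [WeierstrassCurve.Affine.equation_iff] at h3
  simp only [curve, WeierstrassCurve.baseChange, WeierstrassCurve.map, WeierstrassCurve.toAffine,
    Algebra.algebraMap_self, RingHom.id_apply] at h3
  rw [hy] at h3
  linear_combination -h3

/-- The formula for the rank and the 2-torsion of the Tate-Shafarevich group. -/
theorem card_sel_rank (hq : 4 * q.1 ^ 3 + 27 * q.2 ^ 2 ≠ 0)
    (hr : ∀ x : F, x ^ 3 + (q.1 : F) * x + (q.2 : F) ≠ 0) :
    Nat.card (Sel2 (curve F q)) = Nat.card {x : Sha (curve F q) // 2 • x = 0} *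
      2 ^ Module.finrank ℤ (Pts (curve F q) F) := by
  rw [card_sel hq]
  congr 1
  refine card_mod_two ?_ ?_
  · refine Pool.Agent.Q286.EQ.mordell_weil F ((curve F q).baseChange F) ?_
    have e : ((curve F q).baseChange F).Δ = -16 * (4 * (q.1 : F) ^ 3 + 27 * (q.2 : F) ^ 2) := by
      simp only [curve, WeierstrassCurve.baseChange, WeierstrassCurve.map, WeierstrassCurve.Δ,
        WeierstrassCurve.b₂, WeierstrassCurve.b₄, WeierstrassCurve.b₆, WeierstrassCurve.b₈,
        Algebra.algebraMap_self, RingHom.id_apply]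
      ring
    rw [e]
    exact mul_ne_zero (by norm_num) (disc_F hq)
  · intro P hP
    rcases P with _ | ⟨x, y, h⟩
    · rfl
    · exact absurd (pts_eq hP) (hr x)

end curve

end Pool.Agent.H30GR
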