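import Pool.Agent.H30GR.Nm
import Pool.Agent.H30GR.Base

/-!
# Relaxed conditions over the extension
-/

set_option autoImplicit false
set_option linter.all false

open Polynomial IsDedekindDomain NumberField
open scoped Classical IntermediateField

namespace Pool.Agent.H30GR

open Pool.Agent.N922.PQ
open Pool.Agent.H30EV
open Pool.Agent.N692.PMTOW
open Pool.Agent.N874.PP (Tup chA chB gq tau Two Ev Sq1 U0)
open Pool.Agent.N874.PM (PLoc Lies SelR ShaR S_LOC1M S_LOC2M)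

section top

variable {L M Ω : Type} [Field L] [NumberField L] [Field M] [NumberField M]
  [Field Ω] [NumberField Ω] [Algebra L Ω] [Algebra M Ω] [IsGalois ℚ M]

/-- The valuations at the primes which do not divide `6 d D`, where the discriminant is a unit or a
uniformizer. -/
theorem ev_at (hLOC1M : S_LOC1M) {a b d : ℤ} {θ : L} {J : Finset ℤ} (hc : IsCub a b θ)
    (hJp : ∀ Q ∈ J, IsPr Q) {w : HeightOneSpectrum (𝓞 M)} {𝔓 : HeightOneSpectrum (𝓞 Ω)}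
    (hw : Lies (M := M) (Ω := Ω) w 𝔓) (h2w : ¬ Ov 2 w) (h3w : ¬ Ov 3 w) (hdw : ¬ Ov d w)
    (hJw : ∀ Q ∈ J, ¬ Ov Q w)
    (hdisc : WithZero.exp (-1 : ℤ) ≤ w.valuation M (((dsc a b : ℤ)) : M)) {h : M[X]}
    (hl : PLoc (w.adicCompletion M)
      (((a * (d * ∏ Q ∈ J, Q) ^ 2 : ℤ)) : M) (((b * (d * ∏ Q ∈ J, Q) ^ 3 : ℤ)) : M) h)
    (h0 : aeval (((d * ∏ Q ∈ J, Q : ℤ) : Ω) * algebraMap L Ω θ) h ≠ 0) :
    Ev 𝔓 (aeval (((d * ∏ Q ∈ J, Q : ℤ) : Ω) * algebraMap L Ω θ) h) := by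
  have hroot : (algebraMap L Ω θ) ^ 3 + algebraMap M Ω (a : M) * algebraMap L Ω θ +
      algebraMap M Ω (b : M) = 0 := by
    have h1 := congrArg (algebraMap L Ω) hc.root
    rw [map_zero, map_add, map_add, map_mul, map_pow, map_intCast, map_intCast] at h1
    rw [map_intCast, map_intCast]
    exact h1
  have hD : w.valuation M (((d * ∏ Q ∈ J, Q : ℤ)) : M) = 1 := by
    refine val_eq_of _ w fun h => ?_
    rcases ov_mul h with h | h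
    · exact hdw h
    · obtain ⟨Q, hQ, h'⟩ := ov_prod h
      exact hJw Q hQ h'
  have hdisc' : WithZero.exp (-1 : ℤ) ≤ w.valuation M (4 * (a : M) ^ 3 +
      27 * (b : M) ^ 2) := by
    have e : 4 * (a : M) ^ 3 + 27 * (b : M) ^ 2 = (((dsc a b : ℤ)) : M) := by
      simp [dsc]
    rw [e]
    exact hdisc
  have e3 : algebraMap M Ω (((d * ∏ P ∈ J, P : ℤ)) : M) = (((d * ∏ P ∈ J, P : ℤ)) : Ω) :=
    map_intCast _ _
  have hl' : PLoc (w.adicCompletion M) ((a : M) * (((d * ∏ Q ∈ J, Q : ℤ)) : M) ^ 2)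
      ((b : M) * (((d * ∏ Q ∈ J, Q : ℤ)) : M) ^ 3) h := by
    have e1 : (((a * (d * ∏ Q ∈ J, Q) ^ 2 : ℤ)) : M) =
        (a : M) * (((d * ∏ Q ∈ J, Q : ℤ)) : M) ^ 2 := by
      simp only [Int.cast_mul, Int.cast_pow]
    have e2 : (((b * (d * ∏ Q ∈ J, Q) ^ 3 : ℤ)) : M) =
        (b : M) * (((d * ∏ Q ∈ J, Q : ℤ)) : M) ^ 3 := by
      simp only [Int.cast_mul, Int.cast_pow]
    rw [← e1, ← e2]
    exact hl
  have h3 := hLOC1M M Ω (𝓞 M) (𝓞 Ω) w 𝔓 hw (a : M) (b : M)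
    (((d * ∏ P ∈ J, P : ℤ)) : M) (algebraMap L Ω θ) h hroot
    (val_six h2w h3w) (val_le a w) (val_le b w) hD hdisc' hl'
    (by rw [e3]; exact h0)
  rw [e3] at h3
  exact h3

/-- Valuations over `M` at the primes not over `T`. -/
theorem val_lowR {T : Set ℤ} (hu : ∀ P : ℤ, IsPr P → P ∉ T → Unr M P)
    (w : HeightOneSpectrum (𝓞 M)) (hw : ∀ P ∈ T, ¬ Ov P w) :
    ∃ v : HeightOneSpectrum ℤ, ∀ x : ℚ, w.valuation M (algebraMap ℚ M x) = v.valuation ℚ x := by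
  obtain ⟨P, hP, hPw⟩ := exists_below w
  refine ⟨pz hP, fun x => ?_⟩
  exact (valQ hP x w hPw (hu P hP fun h => hw P h hPw)).1.symm

/-- The conditions of a Selmer class at the primes which are not over `T`. -/
theorem cs_topR (hEXQ : S_EXQ) (hLIE : S_LIE) (hLOC1M : S_LOC1M)
    (hLOC2M : S_LOC2M) (htop : im ℚ M Ω ⊔ im ℚ L Ω = ⊤) {a b d : ℤ} {θ : L} {X' : ℕ}
    {S J T : Finset ℤ} {s A B : ℤ → ℤ} (hc : IsCub a b θ) (hS : GoodS S s)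
    (hF : Fam X' S s T A B a b) (hJ : J ⊆ S) {T' : Set ℤ} (hTp : ∀ P ∈ T', IsPr P)
    (hJT : ∀ Q ∈ J, Q ∉ T') (h2T : (2 : ℤ) ∈ T') (h3T : (3 : ℤ) ∈ T')
    (hu : ∀ P : ℤ, IsPr P → P ∉ T' → Unr M P) (hr : ∀ Q ∈ J, Res M Q)
    (hd : ∀ P : ℤ, IsPr P → P ∣ d → P ∈ T') {h : M[X]}
    (hloc : ∀ w : HeightOneSpectrum (𝓞 M), ¬ Ov 2 w → PLoc (w.adicCompletion M)
      (((a * (d * ∏ Q ∈ J, Q) ^ 2 : ℤ)) : M) (((b * (d * ∏ Q ∈ J, Q) ^ 3 : ℤ)) : M) h)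
    (h0 : aeval (((d * ∏ Q ∈ J, Q : ℤ) : Ω) * algebraMap L Ω θ) h ≠ 0) :
    Cs (𝓞 Ω) J T' (algebraMap L Ω θ)
      (aeval (((d * ∏ Q ∈ J, Q : ℤ) : Ω) * algebraMap L Ω θ) h) := by
  have hroot : (algebraMap L Ω θ) ^ 3 + algebraMap M Ω (a : M) * algebraMap L Ω θ +
      algebraMap M Ω (b : M) = 0 := by
    have h1 := congrArg (algebraMap L Ω) hc.root
    rw [map_zero, map_add, map_add, map_mul, map_pow, map_intCast, map_intCast] at h1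
    rw [map_intCast, map_intCast]
    exact h1
  have hJp : ∀ Q ∈ J, IsPr Q := fun Q hQ => (hS Q (hJ hQ)).1
  -- at the primes in `J`
  have key : ∀ Q ∈ J, ∀ 𝔓 : HeightOneSpectrum (𝓞 Ω), Ov Q 𝔓 →
      (𝔓.valuation Ω (algebraMap L Ω θ) = 1 → U0 𝔓 ((Q : Ω) * algebraMap L Ω θ)
        (aeval (((d * ∏ Q ∈ J, Q : ℤ) : Ω) * algebraMap L Ω θ) h)) ∧
      (𝔓.valuation Ω (algebraMap L Ω θ) < 1 →
        Ev 𝔓 (aeval (((d * ∏ Q ∈ J, Q : ℤ) : Ω) * algebraMap L Ω θ) h)) := by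
    intro Q hQ 𝔓 h𝔓
    have hQS := hJ hQ
    have hQp : IsPr Q := (hS Q hQS).1
    obtain ⟨w, hw, hO⟩ := hLIE M Ω (𝓞 M) (𝓞 Ω) 𝔓
    have hQw : Ov Q w := (hO Q).2 h𝔓
    have hnT : ∀ P ∈ T', ¬ Ov P w := by
      intro P hP hPw
      have : Q = P := below_unique hQp (hTp P hP) hQw hPw
      rw [← this] at hP
      exact hJT Q hQ hP
    have h2w : ¬ Ov 2 w := hnT 2 h2T
    have h3w : ¬ Ov 3 w := hnT 3 h3T
    have hdw : ¬ Ov d w := not_ov_d hd hnT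
    haveI : Finite (𝓞 M ⧸ w.asIdeal) :=
      Pool.Agent.N42.PQ.finite_residue (L := M) hQp.2.ne_zero hQw
    have hprod : (∏ P ∈ J, P) = Q * ∏ P ∈ J.erase Q, P := (Finset.mul_prod_erase J id hQ).symm
    have hϖ : w.valuation M (Q : M) = WithZero.exp (-1 : ℤ) := hu Q hQp (hJT Q hQ) w hQw
    have hD' : w.valuation M (((d * ∏ P ∈ J.erase Q, P : ℤ)) : M) = 1 := by
      refine val_eq_of _ w fun h => ?_
      rcases ov_mul h with h | h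
      · exact hdw h
      · obtain ⟨P, hP, hP'⟩ := ov_prod h
        have hPS := hJ (Finset.mem_of_mem_erase hP)
        exact Finset.ne_of_mem_erase hP (below_unique (hS P hPS).1 (hS Q hQS).1 hP' hQw)
    have hb1 : w.valuation M (b : M) < 1 := by
      rw [← ov_val]
      obtain ⟨c, hc⟩ := hF.rb Q hQS
      unfold Ov at hQw ⊢
      rw [hc, Int.cast_mul]
      exact Ideal.mul_mem_right _ _ hQw
    have hns := fun z hz => ns_top' (M := M) (a := a) hQp (hu Q hQp (hJT Q hQ)) (hr Q hQ)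
      (fam_ns hS hF hQS) w hQw z hz
    have e0 : (((d * ∏ Q ∈ J, Q : ℤ)) : M) = (Q : M) * (((d * ∏ P ∈ J.erase Q, P : ℤ)) : M) := by
      rw [hprod]
      push_cast
      ring
    have e1 : (((a * (d * ∏ Q ∈ J, Q) ^ 2 : ℤ)) : M) = (a : M) *
        ((Q : M) * (((d * ∏ P ∈ J.erase Q, P : ℤ)) : M)) ^ 2 := by
      rw [← e0]
      simp only [Int.cast_mul, Int.cast_pow]
    have e2 : (((b * (d * ∏ Q ∈ J, Q) ^ 3 : ℤ)) : M) = (b : M) *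
        ((Q : M) * (((d * ∏ P ∈ J.erase Q, P : ℤ)) : M)) ^ 3 := by
      rw [← e0]
      simp only [Int.cast_mul, Int.cast_pow]
    have e3 : algebraMap M Ω ((Q : M) * (((d * ∏ P ∈ J.erase Q, P : ℤ)) : M)) =
        (((d * ∏ P ∈ J, P : ℤ)) : Ω) := by
      rw [← e0, map_intCast]
    have hl := hloc w h2w
    rw [e1, e2] at hl
    have h2 := hLOC2M M Ω (𝓞 M) (𝓞 Ω) w 𝔓 hw (a : M) (b : M)
      (Q : M) (((d * ∏ P ∈ J.erase Q, P : ℤ)) : M) (algebraMap L Ω θ) h hroot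
      (val_six h2w h3w) (val_le a w) hb1 hϖ hD' hns hl (by rw [e3]; exact h0)
    rw [e3, map_intCast (algebraMap M Ω)] at h2
    refine ⟨fun h3 => h2.1 h3 ?_, h2.2⟩
    exact odd_top' hEXQ htop hc hF.sq hQp (hF.rb Q hQS) (fam_ns hS hF hQS)
      (hu Q hQp (hJT Q hQ)) 𝔓 h𝔓 h3
  refine ⟨fun 𝔓 h1 h2 => ?_, fun Q hQ 𝔓 h1 h2 => (key Q hQ 𝔓 h1).1 h2,
    fun Q hQ 𝔓 h1 h2 => (key Q hQ 𝔓 h1).2 h2⟩
  obtain ⟨w, hw, hO⟩ := hLIE M Ω (𝓞 M) (𝓞 Ω) 𝔓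
  have hnT : ∀ P ∈ T', ¬ Ov P w := fun P hP h => h1 P hP ((hO P).1 h)
  obtain ⟨v, hv⟩ := val_lowR hu w hnT
  refine ev_at hLOC1M hc hJp hw (hnT 2 h2T) (hnT 3 h3T) (not_ov_d hd hnT)
    (fun Q hQ h => h2 Q hQ ((hO Q).1 h)) ?_ (hloc w (hnT 2 h2T)) h0
  have e : (((dsc a b : ℤ)) : M) = algebraMap ℚ M ((dsc a b : ℤ) : ℚ) := by
    rw [map_intCast]
  rw [e, hv]
  exact val_sqfree hF.sq v

end top

section base

variable {L Ω : Type} (O O' : Type) [Field L] [CharZero L] [Field Ω] [Algebra L Ω]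
  [CommRing O] [IsDedekindDomain O] [Algebra O L] [IsFractionRing O L]
  [CommRing O'] [IsDedekindDomain O'] [Algebra O' Ω] [IsFractionRing O' Ω]

/-- The conditions descend. -/
theorem cs_down {θ : L} {J : Finset ℤ} {T : Set ℤ}
    (hUR : ∀ 𝔓 : HeightOneSpectrum O, (∀ P ∈ T, ¬ Ov P 𝔓) → ∃ 𝔓' : HeightOneSpectrum O',
      ∀ x : L, 𝔓'.valuation Ω (algebraMap L Ω x) = 𝔓.valuation L x)
    (hSP : ∀ Q ∈ J, ∀ 𝔓' : HeightOneSpectrum O', Ov Q 𝔓' → ∀ s : Ω, s ≠ 0 →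
      ∃ s₀ : L, 𝔓'.valuation Ω (s - algebraMap L Ω s₀) < 𝔓'.valuation Ω s)
    (hJT : ∀ Q ∈ J, ∀ 𝔓 : HeightOneSpectrum O, Ov Q 𝔓 → ∀ P ∈ T, ¬ Ov P 𝔓)
    {x : L} (hC : Cs O' J T (algebraMap L Ω θ) (algebraMap L Ω x)) : Cs O J T θ x := by
  refine ⟨fun 𝔓 h1 h2 => ?_, fun Q hQ 𝔓 h1 h2 => ?_, fun Q hQ 𝔓 h1 h2 => ?_⟩
  · obtain ⟨𝔓', hv⟩ := hUR 𝔓 h1
    rw [← ev_down hv]
    exact hC.ev 𝔓' (fun P hPT h => h1 P hPT ((ov_down hv P).1 h))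
      (fun Q hQ h => h2 Q hQ ((ov_down hv Q).1 h))
  · obtain ⟨𝔓', hv⟩ := hUR 𝔓 (hJT Q hQ 𝔓 h1)
    have hQ' : Ov Q 𝔓' := (ov_down hv Q).2 h1
    have hd := hSP Q hQ 𝔓' hQ'
    have h3 := hC.u0 Q hQ 𝔓' hQ' (by rw [hv]; exact h2)
    refine ⟨fun h4 => sq_down hv hd (h3.1 ((ev_down hv x).2 h4)), fun h4 => ?_⟩
    have h5 := h3.2 fun h6 => h4 ((ev_down hv x).1 h6)
    have e : algebraMap L Ω x * ((Q : Ω) * algebraMap L Ω θ) =
        algebraMap L Ω (x * ((Q : L) * θ)) := by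
      rw [map_mul, map_mul, map_intCast]
    rw [e] at h5
    exact sq_down hv hd h5
  · obtain ⟨𝔓', hv⟩ := hUR 𝔓 (hJT Q hQ 𝔓 h1)
    rw [← ev_down hv]
    exact hC.eq Q hQ 𝔓' ((ov_down hv Q).2 h1) (by rw [hv]; exact h2)

end base

theorem Cov.mono {K L : Type} [Field K] [Field L] [Algebra K L] {C C' : L → Prop} {N : ℕ}
    (h : Cov K L C N) (hC : ∀ x : L, x ≠ 0 → IsSquare (Algebra.norm K x) → C' x → C x) :
    Cov K L C' N := by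
  obtain ⟨Z, hZ, hc⟩ := h
  exact ⟨Z, hZ, fun x hx h3 h4 => hc x hx (hC x hx h4 h3) h4⟩

end Pool.Agent.H30GR
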